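import Pool.Agent.X254.NF2

/-! # The Dickson multiplication on a field with 343 elements -/

set_option autoImplicit false
set_option linter.unusedSectionVars false

namespace Pool.Agent.X254.NF

section K

variable {K : Type} [Field K]

open Classical in
/-- the class -/
noncomputable def cl (y : K) : ℕ := if y ^ 114 = 4 then 1 else if y ^ 114 = 2 then 2 else 0

/-- the multiplication -/
noncomputable def nm (x y : K) : K := x ^ (7 ^ cl y) * y

variable (h : Nat.card K = 343)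

include h

lemma cl_cases {y : K} (hy : y ≠ 0) :
    (y ^ 114 = 1 ∧ cl y = 0) ∨ (y ^ 114 = 4 ∧ cl y = 1) ∨ (y ^ 114 = 2 ∧ cl y = 2) := by
  have h3 : (y ^ 114) ^ 3 = 1 := by rw [← pow_mul]; exact pow_card_sub h hy
  rcases cube_one h h3 with e | e | e
  · left
    refine ⟨e, ?_⟩
    unfold cl
    rw [e, if_neg (four_ne_one h).symm, if_neg two_ne_one.symm]
  · right; right
    refine ⟨e, ?_⟩
    unfold cl
    rw [e, if_neg (four_ne_two h).symm, if_pos rfl]
  · right; left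
    refine ⟨e, ?_⟩
    unfold cl
    rw [e, if_pos rfl]

lemma pow_seven_pow {w : K} (hw : w ^ 7 = w) (n : ℕ) : w ^ (7 ^ n) = w := by
  induction n with
  | zero => simp
  | succ n ih => rw [pow_succ, pow_mul, ih, hw]

lemma w7 {y : K} (hy : y ≠ 0) : (y ^ 114) ^ 7 = y ^ 114 := by
  have h1 := pow_card_sub h hy
  calc (y ^ 114) ^ 7 = y ^ 342 * (y ^ 342 * y ^ 114) := by ring
    _ = y ^ 114 := by rw [h1, one_mul, one_mul]

lemma nm_ne {x y : K} (hx : x ≠ 0) (hy : y ≠ 0) : nm x y ≠ 0 :=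
  mul_ne_zero (pow_ne_zero _ hx) hy

lemma nm_114 {x y : K} (hx : x ≠ 0) : (nm x y) ^ 114 = x ^ 114 * y ^ 114 := by
  unfold nm
  rw [mul_pow, ← pow_mul, mul_comm (7 ^ cl y) 114, pow_mul, pow_seven_pow h (w7 h hx)]

lemma pow_343 (x : K) (n : ℕ) : x ^ (7 ^ (n + 3)) = x ^ (7 ^ n) := by
  rw [pow_add, mul_comm, pow_mul, show 7 ^ 3 = 343 by norm_num, pow_card' h]

lemma nm_cl {x y : K} (hx : x ≠ 0) (hy : y ≠ 0) (z : K) :
    z ^ (7 ^ (cl x + cl y)) = z ^ (7 ^ cl (nm x y)) := by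
  have h7 := seven h
  have h1 := nm_114 h hx (y := y)
  have n1 : (4 : K) ≠ 1 := four_ne_one h
  have n2 : (2 : K) ≠ 1 := two_ne_one
  have n3 : (4 : K) ≠ 2 := four_ne_two h
  have e44 : (4 : K) * 4 = 2 := by linear_combination 2 * h7
  have e42 : (4 : K) * 2 = 1 := by linear_combination h7
  have e24 : (2 : K) * 4 = 1 := by linear_combination h7
  have e22 : (2 : K) * 2 = 4 := by norm_num
  rcases cl_cases h hx with ⟨a1, a2⟩ | ⟨a1, a2⟩ | ⟨a1, a2⟩ <;>
  rcases cl_cases h hy with ⟨b1, b2⟩ | ⟨b1, b2⟩ | ⟨b1, b2⟩ <;>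
  rcases cl_cases h (nm_ne h hx hy) with ⟨c1, c2⟩ | ⟨c1, c2⟩ | ⟨c1, c2⟩ <;>
  rw [a1, b1, c1] at h1 <;> rw [a2, b2, c2] <;>
  simp only [one_mul, mul_one, e44, e42, e24, e22] at h1 <;>
  first
    | rfl
    | exact absurd h1 n1
    | exact absurd h1.symm n1
    | exact absurd h1 n2
    | exact absurd h1.symm n2
    | exact absurd h1 n3
    | exact absurd h1.symm n3
    | exact pow_343 h z 0
    | exact pow_343 h z 1

lemma nm_zero (x : K) : nm x 0 = 0 := by
  unfold nm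
  rw [mul_zero]

lemma zero_nm (x : K) : nm 0 x = 0 := by
  unfold nm
  rw [zero_pow (pow_ne_zero _ (by norm_num)), zero_mul]

lemma nm_assoc (x y z : K) : nm (nm x y) z = nm x (nm y z) := by
  by_cases hz : z = 0
  · rw [hz, nm_zero h, nm_zero h, nm_zero h]
  by_cases hy : y = 0
  · rw [hy, nm_zero h, zero_nm h, nm_zero h]
  have h1 := nm_cl h hy hz x
  have h2 : nm (nm x y) z = x ^ (7 ^ (cl y + cl z)) * (y ^ (7 ^ cl z) * z) := by
    unfold nm
    rw [mul_pow, ← pow_mul, ← pow_add, mul_assoc]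
  rw [h2, h1]
  rfl

lemma cl_one : cl (1 : K) = 0 := by
  unfold cl
  rw [one_pow, if_neg (four_ne_one h).symm, if_neg two_ne_one.symm]

lemma nm_one (x : K) : nm x 1 = x := by
  unfold nm
  rw [cl_one h]
  simp

lemma one_nm (x : K) : nm 1 x = x := by
  unfold nm
  rw [one_pow, one_mul]

lemma nm_add (x y z : K) : nm (x + y) z = nm x z + nm y z := by
  have hc := charP_of_card h
  have hp : Fact (Nat.Prime 7) := ⟨by norm_num⟩
  have hex : ExpChar K 7 := ExpChar.prime hp.out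
  unfold nm
  rw [add_pow_char_pow, add_mul]

/-- the inverse -/
noncomputable def ni (y : K) : K := (y⁻¹) ^ (7 ^ (3 - cl y))

lemma ni_nm {y : K} (hy : y ≠ 0) : nm (ni y) y = 1 := by
  have h1 : 3 - cl y + cl y = 3 := by
    rcases cl_cases h hy with ⟨-, a⟩ | ⟨-, a⟩ | ⟨-, a⟩ <;> rw [a]
  unfold nm ni
  rw [← pow_mul, ← pow_add, h1, show 7 ^ 3 = 343 by norm_num, pow_card' h, inv_mul_cancel₀ hy]

lemma ni_ne {y : K} (hy : y ≠ 0) : ni y ≠ 0 := pow_ne_zero _ (inv_ne_zero hy)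

lemma nm_ni {y : K} (hy : y ≠ 0) : nm y (ni y) = 1 := by
  -- a left inverse is a right inverse
  have hz := ni_ne h hy
  have h1 := ni_nm h hy
  have h2 := ni_nm h hz
  calc nm y (ni y) = nm 1 (nm y (ni y)) := (one_nm h _).symm
    _ = nm (nm (ni (ni y)) (ni y)) (nm y (ni y)) := by rw [h2]
    _ = nm (ni (ni y)) (nm (nm (ni y) y) (ni y)) := by rw [nm_assoc h, nm_assoc h]
    _ = 1 := by rw [h1, one_nm h, h2]

lemma p171 {y : K} (hy : y ≠ 0) : y ^ 171 = 1 ∨ y ^ 171 = -1 := by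
  have h1 : (y ^ 171) ^ 2 = 1 := by rw [← pow_mul]; exact pow_card_sub h hy
  rcases mul_eq_zero.1 (show (y ^ 171 - 1) * (y ^ 171 + 1) = 0 by linear_combination h1) with e | e
  · exact Or.inl (sub_eq_zero.1 e)
  · exact Or.inr (eq_neg_of_add_eq_zero_left e)

lemma nm_171 {x y : K} (hx : x ≠ 0) : (nm x y) ^ 171 = x ^ 171 * y ^ 171 := by
  unfold nm
  rw [mul_pow, ← pow_mul, mul_comm (7 ^ cl y) 171, pow_mul, pow_seven_pow h]
  rcases p171 h hx with e | e <;> rw [e] <;> norm_num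

end K

section cert

variable {K : Type} [Field K] {ζ : K} (h : Nat.card K = 343) (hz : ζ ^ 3 = 2)

include h hz

lemma cl_ph (x : M) : cl (ph ζ h x) = clM x := by
  have h57 := ph_57 h hz x
  have h1 : ph ζ h x ^ 114 = io K h (nrM x ^ 2) := by
    rw [map_pow, ← h57, ← pow_mul]
  have hp : Fact (Nat.Prime 7) := ⟨by norm_num⟩
  have h4 : io K h 4 = 4 := map_ofNat _ _
  have h2 : io K h 2 = 2 := map_ofNat _ _
  have i4 : io K h (nrM x ^ 2) = 4 ↔ nrM x ^ 2 = 4 := by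
    rw [← h4]
    exact (io K h).injective.eq_iff
  have i2 : io K h (nrM x ^ 2) = 2 ↔ nrM x ^ 2 = 2 := by
    rw [← h2]
    exact (io K h).injective.eq_iff
  unfold cl clM
  simp only [h1, i4, i2]

lemma ph_frob_iter (n : ℕ) (x : M) : ph ζ h x ^ (7 ^ n) = ph ζ h (sigM^[n] x) := by
  induction n generalizing x with
  | zero => simp
  | succ n ih => rw [pow_succ, mul_comm, pow_mul, ph_frob h hz, ih, Function.iterate_succ_apply]

lemma nm_ph (x y : M) : nm (ph ζ h x) (ph ζ h y) = ph ζ h (nmM x y) := by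
  by_cases hy : y = (0, 0, 0)
  · subst hy
    rw [ph_zero, nm_zero h]
    have : nmM x (0, 0, 0) = (0, 0, 0) := by
      unfold nmM mulM
      simp
    rw [this, ph_zero]
  · unfold nm nmM
    rw [cl_ph h hz y, ph_frob_iter h hz, ph_mul h hz]

end cert

end Pool.Agent.X254.NF
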