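import Mathlib

open WittVector Matrix

set_option linter.unusedSectionVars false

namespace Cir

section witt
variable (p : ℕ) [hp : Fact p.Prime] (R : Type*) [CommRing R]

/-- The range of the `k`-th ghost component. -/
noncomputable def G (k : ℕ) : Subring R := (WittVector.ghostComponent (p := p) (R := R) k).range

variable {R}

theorem mem_G (k : ℕ) (a : R) :
    a ∈ G p R k ↔ ∃ x : ℕ → R, a = ∑ i ∈ Finset.range (k + 1), (p : R) ^ i * x i ^ p ^ (k - i) := by
  unfold G
  constructor
  · rintro ⟨x, rfl⟩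
    refine ⟨x.coeff, ?_⟩
    rw [WittVector.ghostComponent_apply, aeval_wittPolynomial]
  · rintro ⟨x, rfl⟩
    refine ⟨WittVector.mk p x, ?_⟩
    rw [WittVector.ghostComponent_apply, aeval_wittPolynomial]
    simp

theorem G_succ_le (k : ℕ) : G p R (k + 1) ≤ G p R k := by
  rintro _ ⟨x, rfl⟩
  exact ⟨WittVector.frobenius x, WittVector.ghostComponent_frobenius k x⟩

theorem G_mono {j k : ℕ} (h : j ≤ k) : G p R k ≤ G p R j := by
  induction h with
  | refl => exact le_rfl
  | step _ ih => exact (G_succ_le p _).trans ih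

theorem p_mul_mem {k : ℕ} {a : R} (ha : a ∈ G p R k) : (p : R) * a ∈ G p R (k + 1) := by
  obtain ⟨x, rfl⟩ := ha
  exact ⟨WittVector.verschiebung x, WittVector.ghostComponent_verschiebung x k⟩

theorem pow_mem_G (k : ℕ) (a : R) : a ^ p ^ k ∈ G p R k :=
  ⟨WittVector.teichmuller p a, WittVector.ghostComponent_teichmuller p a k⟩

theorem mem_G_zero (a : R) : a ∈ G p R 0 := by
  have := pow_mem_G p 0 a
  simpa using this

theorem p_pow_mul_mem {k j : ℕ} {a : R} (ha : a ∈ G p R k) : (p : R) ^ j * a ∈ G p R (k + j) := by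
  induction j with
  | zero => simpa using ha
  | succ j ih =>
    have := p_mul_mem p ih
    rw [pow_succ', mul_assoc]
    exact this

theorem p_pow_mul_mem' (k : ℕ) (a : R) : (p : R) ^ k * a ∈ G p R k := by
  have := p_pow_mul_mem p (j := k) (mem_G_zero p a)
  simpa using this

/-- the orbit terms -/
theorem term_mem {s a : ℕ} (h : a ≤ s) (y : R) : (p : R) ^ (s - a) * y ^ p ^ a ∈ G p R s := by
  have := p_pow_mul_mem p (j := s - a) (pow_mem_G p a y)
  rwa [Nat.add_sub_cancel' h] at this

theorem exists_of_mem_succ {k : ℕ} {a : R} (ha : a ∈ G p R (k + 1)) :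
    ∃ x : R, ∃ y ∈ G p R k, a = x ^ p ^ (k + 1) + p * y := by
  obtain ⟨x, rfl⟩ := (mem_G p _ _).1 ha
  refine ⟨x 0, ∑ i ∈ Finset.range (k + 1), (p : R) ^ i * x (i + 1) ^ p ^ (k - i), ?_, ?_⟩
  · exact (mem_G p _ _).2 ⟨fun i => x (i + 1), rfl⟩
  · rw [Finset.sum_range_succ', Finset.mul_sum, add_comm]
    congr 1
    · simp
    · apply Finset.sum_congr rfl
      intro i _
      rw [show k + 1 - (i + 1) = k - i by omega, pow_succ']
      ring

end witt

section orbit

variable {R : Type*} [CommRing R]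

variable {A : Type*} [AddCommGroup A] [Fintype A] [DecidableEq A]

/-- the conjugation action of a group on its permutations by translations -/
def act (g : A) (σ : Equiv.Perm A) : Equiv.Perm A :=
  (Equiv.addRight g) * σ * (Equiv.addRight g)⁻¹

theorem act_apply (g : A) (σ : Equiv.Perm A) (i : A) : act g σ i = σ (i - g) + g := by
  simp [act, sub_eq_add_neg]

instance permAction : AddAction A (Equiv.Perm A) where
  vadd := act
  zero_vadd σ := by
    ext i
    change act 0 σ i = σ i
    simp [act_apply]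
  add_vadd g h σ := by
    ext i
    change act (g + h) σ i = act g (act h σ) i
    simp only [act_apply]
    rw [show i - (g + h) = i - g - h by abel]
    abel

theorem vadd_apply (g : A) (σ : Equiv.Perm A) (i : A) : (g +ᵥ σ) i = σ (i - g) + g :=
  act_apply g σ i

/-- a term of the Leibniz formula -/
def F (v : A → R) (σ : Equiv.Perm A) : R := Equiv.Perm.sign σ • ∏ i, v (σ i - i)

theorem det_eq (v : A → R) : (circulant v).det = ∑ σ, F v σ := by
  rw [Matrix.det_apply]
  rfl

theorem F_vadd (v : A → R) (g : A) (σ : Equiv.Perm A) : F v (g +ᵥ σ) = F v σ := by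
  unfold F
  have h1 : Equiv.Perm.sign (g +ᵥ σ) = Equiv.Perm.sign σ := by
    change Equiv.Perm.sign (Equiv.addRight g * σ * (Equiv.addRight g)⁻¹) = _
    rw [Equiv.Perm.sign_mul, Equiv.Perm.sign_mul, Equiv.Perm.sign_inv, mul_right_comm,
      Int.units_mul_self, one_mul]
  rw [h1]
  congr 1
  refine (Fintype.prod_equiv (Equiv.addRight g) _ _ ?_).symm
  intro i
  rw [vadd_apply]
  congr 1
  simp

/-- a group as the product of a subgroup and the set of cosets -/
theorem bij {H : Type*} [AddCommGroup H] (φ : H →+ A) (hφ : Function.Injective φ) :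
    Function.Bijective (fun x : (A ⧸ φ.range) × H => x.1.out + φ x.2) := by
  constructor
  · rintro ⟨q, h⟩ ⟨q', h'⟩ e
    simp only at e
    have e1 : ((q.out + φ h : A) : A ⧸ φ.range) = ((q'.out + φ h' : A) : A ⧸ φ.range) := by rw [e]
    have e2 : ∀ (q : A ⧸ φ.range) (h : H), ((q.out + φ h : A) : A ⧸ φ.range) = q := by
      intro q h
      have : ((φ h : A) : A ⧸ φ.range) = 0 := (QuotientAddGroup.eq_zero_iff _).2 ⟨h, rfl⟩
      rw [QuotientAddGroup.mk_add, this, add_zero, QuotientAddGroup.out_eq']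
    rw [e2, e2] at e1
    subst e1
    rw [add_right_inj] at e
    rw [hφ e]
  · intro a
    have : a - (QuotientAddGroup.mk a : A ⧸ φ.range).out ∈ φ.range := by
      rw [← QuotientAddGroup.eq_zero_iff, QuotientAddGroup.mk_sub, QuotientAddGroup.out_eq',
        sub_self]
    obtain ⟨h, hh⟩ := this
    exact ⟨(QuotientAddGroup.mk a, h), by simp [hh]⟩

noncomputable def cosetEquiv {H : Type*} [AddCommGroup H] (φ : H →+ A)
    (hφ : Function.Injective φ) : (A ⧸ φ.range) × H ≃ A := Equiv.ofBijective _ (bij φ hφ)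

theorem cosetEquiv_apply {H : Type*} [AddCommGroup H] (φ : H →+ A)
    (hφ : Function.Injective φ) (q : A ⧸ φ.range) (h : H) :
    cosetEquiv φ hφ (q, h) = q.out + φ h := rfl

theorem prod_eq_pow (T : AddSubgroup A) (g : A → R) (hg : ∀ t ∈ T, ∀ i, g (i + t) = g i) :
    ∃ y, ∏ i, g i = y ^ Nat.card T := by
  classical
  have hinj : Function.Injective T.subtype := T.subtype_injective
  have : Fintype (A ⧸ T.subtype.range) := Fintype.ofFinite _
  have : Fintype T := Fintype.ofFinite _
  refine ⟨∏ q : A ⧸ T.subtype.range, g q.out, ?_⟩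
  rw [← (cosetEquiv T.subtype hinj).prod_comp, Fintype.prod_prod_type, ← Finset.prod_pow]
  apply Finset.prod_congr rfl
  intro q _
  rw [Nat.card_eq_fintype_card, ← Finset.card_univ, ← Finset.prod_const]
  apply Finset.prod_congr rfl
  intro t _
  rw [cosetEquiv_apply]
  exact hg t t.2 _

/-- The determinant of a circulant matrix lies in the range of the ghost component. -/
theorem det_mem_G (p : ℕ) [hp : Fact p.Prime] (s m : ℕ) (hm : ¬ p ∣ m)
    (hA : Nat.card A = p ^ s * m) (v : A → R) : (circulant v).det ∈ G p R s := by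
  classical
  rw [det_eq]
  have : Fintype (Quotient (AddAction.orbitRel A (Equiv.Perm A))) := Fintype.ofFinite _
  rw [← Finset.sum_fiberwise Finset.univ
    (fun σ => (Quotient.mk'' σ : Quotient (AddAction.orbitRel A (Equiv.Perm A))))]
  apply Subring.sum_mem
  intro ω _
  obtain ⟨σ, rfl⟩ := Quotient.exists_rep ω
  have h1 : ∀ τ ∈ Finset.univ.filter (fun τ => (Quotient.mk'' τ :
      Quotient (AddAction.orbitRel A (Equiv.Perm A))) = Quotient.mk _ σ), F v τ = F v σ := by
    intro τ hτ
    rw [Finset.mem_filter] at hτ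
    have : τ ∈ AddAction.orbit A σ := by
      have := Quotient.exact hτ.2
      exact this
    obtain ⟨g, rfl⟩ := this
    exact F_vadd v g σ
  rw [Finset.sum_congr rfl h1, Finset.sum_const]
  have h2 : (Finset.univ.filter (fun τ => (Quotient.mk'' τ :
      Quotient (AddAction.orbitRel A (Equiv.Perm A))) = Quotient.mk _ σ)).card =
      Nat.card (AddAction.orbit A σ) := by
    rw [Nat.card_eq_fintype_card, Fintype.card_subtype]
    congr 1
    ext τ
    simp only [Finset.mem_filter, Finset.mem_univ, true_and]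
    constructor
    · intro h
      exact Quotient.exact h
    · intro h
      exact Quotient.sound h
  rw [h2]
  have h3 : Nat.card (AddAction.orbit A σ) * Nat.card (AddAction.stabilizer A σ) = Nat.card A := by
    have : Fintype (AddAction.orbit A σ) := Fintype.ofFinite _
    have : Fintype (AddAction.stabilizer A σ) := Fintype.ofFinite _
    simpa only [Nat.card_eq_fintype_card] using
      AddAction.card_orbit_mul_card_stabilizer_eq_card_addGroup A σ
  obtain ⟨y, hy⟩ := prod_eq_pow (AddAction.stabilizer A σ) (fun i => v (σ i - i)) (by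
    intro t ht i
    have ht' : t +ᵥ σ = σ := ht
    have h5 : σ (i + t) = σ i + t := by
      have h6 := vadd_apply t σ (i + t)
      rw [ht'] at h6
      simpa using h6
    change v (σ (i + t) - (i + t)) = v (σ i - i)
    rw [h5]
    congr 1
    abel)
  have hpos : 0 < Nat.card A := Nat.card_pos
  have ho : Nat.card (AddAction.orbit A σ) ≠ 0 := by
    intro h0
    rw [h0, zero_mul] at h3
    omega
  have ht : Nat.card (AddAction.stabilizer A σ) ≠ 0 := by
    intro h0
    rw [h0, mul_zero] at h3
    omega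
  obtain ⟨a, t', ht', hta⟩ := Nat.exists_eq_pow_mul_and_not_dvd ht p hp.out.ne_one
  obtain ⟨b, o', ho', hob⟩ := Nat.exists_eq_pow_mul_and_not_dvd ho p hp.out.ne_one
  have hval : ∀ x u : ℕ, ¬ p ∣ u → padicValNat p (p ^ x * u) = x := by
    intro x u hu
    have hu0 : u ≠ 0 := by
      rintro rfl
      exact hu (dvd_zero p)
    rw [padicValNat.mul (pow_ne_zero _ hp.out.ne_zero) hu0, padicValNat.prime_pow,
      padicValNat.eq_zero_of_not_dvd hu, add_zero]
  have hab : b + a = s := by
    have h7 : p ^ (b + a) * (o' * t') = p ^ s * m := by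
      rw [← hA, ← h3, hta, hob]
      ring
    have h8 := hval (b + a) (o' * t') (fun h => (hp.out.dvd_mul.1 h).elim ho' ht')
    rw [h7, hval s m hm] at h8
    exact h8.symm
  unfold F
  rw [hy, hta, hob]
  have h9 := term_mem p (s := s) (a := a) (by omega) (y ^ t')
  rw [show s - a = b by omega] at h9
  have h10 : (p ^ b * o') • (Equiv.Perm.sign σ • y ^ (p ^ a * t')) =
      ((o' : ℤ) * (Equiv.Perm.sign σ : ℤ)) • ((p : R) ^ b * (y ^ t') ^ p ^ a) := by
    rw [← pow_mul, mul_comm t' (p ^ a)]
    simp only [Units.smul_def, nsmul_eq_mul, zsmul_eq_mul]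
    push_cast
    ring
  rw [h10]
  exact Subring.zsmul_mem _ h9 _

end orbit

section isdet

variable {R : Type*} [CommRing R]

/-- `a` is the determinant of a circulant matrix. -/
def IsDet (A : Type*) [AddCommGroup A] [Fintype A] [DecidableEq A] (a : R) : Prop :=
  ∃ v : A → R, (circulant v).det = a

variable {A : Type*} [AddCommGroup A] [Fintype A] [DecidableEq A]

theorem IsDet.mul {a b : R} (ha : IsDet A a) (hb : IsDet A b) : IsDet A (a * b) := by
  obtain ⟨v, rfl⟩ := ha
  obtain ⟨w, rfl⟩ := hb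
  exact ⟨circulant v *ᵥ w, by rw [← circulant_mul, det_mul]⟩

theorem IsDet.one : IsDet A (1 : R) := ⟨Pi.single 0 1, by rw [circulant_single_one, det_one]⟩

theorem IsDet.pow {a : R} (ha : IsDet A a) (k : ℕ) : IsDet A (a ^ k) := by
  induction k with
  | zero => simpa using IsDet.one
  | succ k ih =>
    rw [pow_succ]
    exact ih.mul ha

theorem IsDet.of_mul [Finite R] {a b : R} (ha : IsDet A a) (hab : IsDet A (a * b))
    (hu : IsUnit a) : IsDet A b := by
  obtain ⟨u, rfl⟩ := hu
  have h1 : (u : R) ^ (orderOf u - 1) * u = 1 := by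
    rw [← pow_succ, Nat.sub_add_cancel (orderOf_pos u), ← Units.val_pow_eq_pow_val,
      pow_orderOf_eq_one, Units.val_one]
  have h2 := (ha.pow (orderOf u - 1)).mul hab
  rwa [← mul_assoc, h1, one_mul] at h2

theorem isDet_of_subgroup {H : Type*} [AddCommGroup H] [Fintype H] [DecidableEq H]
    (φ : H →+ A) (hφ : Function.Injective φ) {a : R} (ha : IsDet H a) :
    IsDet A (a ^ Nat.card (A ⧸ φ.range)) := by
  classical
  obtain ⟨v, rfl⟩ := ha
  refine ⟨Function.extend φ v 0, ?_⟩
  have : Fintype (A ⧸ φ.range) := Fintype.ofFinite _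
  let e : H × (A ⧸ φ.range) ≃ A := (Equiv.prodComm _ _).trans (cosetEquiv φ hφ)
  have he : ∀ h q, e (h, q) = q.out + φ h := fun h q => rfl
  rw [← det_submatrix_equiv_self e]
  have h1 : (circulant (Function.extend φ v 0)).submatrix e e =
      blockDiagonal (fun _ : A ⧸ φ.range => circulant v) := by
    ext ⟨h, q⟩ ⟨h', q'⟩
    rw [submatrix_apply, blockDiagonal_apply, circulant_apply, he, he]
    simp only
    split_ifs with hq
    · subst hq
      rw [add_sub_add_left_eq_sub, ← map_sub, hφ.extend_apply, circulant_apply]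
    · rw [Function.extend_apply']
      · rfl
      · rintro ⟨x, hx⟩
        apply hq
        have h2 : ((q.out : A) : A ⧸ φ.range) = ((q'.out : A) : A ⧸ φ.range) := by
          rw [QuotientAddGroup.eq]
          refine ⟨-x + h - h', ?_⟩
          rw [map_sub, map_add, map_neg, hx]
          abel
        rwa [QuotientAddGroup.out_eq', QuotientAddGroup.out_eq'] at h2
  rw [h1, det_blockDiagonal, Finset.prod_const, Finset.card_univ, Nat.card_eq_fintype_card]

theorem isDet_congr {B : Type*} [AddCommGroup B] [Fintype B] [DecidableEq B] (e : A ≃+ B)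
    {a : R} (ha : IsDet A a) : IsDet B a := by
  obtain ⟨v, rfl⟩ := ha
  refine ⟨fun x => v (e.symm x), ?_⟩
  rw [← det_submatrix_equiv_self e.toEquiv]
  congr 1
  ext i j
  simp [circulant_apply, ← map_sub]

theorem isDet_one_add (y : R) : IsDet A (1 + (Fintype.card A : R) * y) := by
  refine ⟨fun x => (if x = 0 then 1 else 0) + y, ?_⟩
  have h1 : circulant (fun x : A => (if x = 0 then (1 : R) else 0) + y) =
      1 + (Matrix.of fun (_ : A) (_ : Unit) => (1 : R)) * (Matrix.of fun (_ : Unit) (_ : A) => y) := by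
    ext i j
    simp [circulant_apply, Matrix.one_apply, Matrix.mul_apply, sub_eq_zero]
  rw [h1, det_one_add_mul_comm]
  simp [Matrix.det_unique, Matrix.mul_apply]

theorem sign_addRight (n : ℕ) :
    Equiv.Perm.sign (Equiv.addRight (1 : ZMod (n + 1))) = (-1) ^ n := by
  have h2 : (Equiv.addRight (1 : Fin (n + 1))) = finRotate (n + 1) := by
    ext i
    rw [finRotate_apply]
    rfl
  have h3 : Equiv.Perm.sign (Equiv.addRight (1 : Fin (n + 1))) = (-1) ^ n := by
    rw [h2, sign_finRotate, Nat.add_sub_cancel]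
  exact h3

theorem perm_cases {n : ℕ} [NeZero n] (hn : 2 ≤ n) (σ : Equiv.Perm (ZMod n))
    (h : ∀ i, σ i = i ∨ σ i = i + 1) : σ = 1 ∨ σ = Equiv.addRight 1 := by
  have : Fact (1 < n) := ⟨hn⟩
  by_cases h1 : ∃ i, σ i = i + 1
  · right
    obtain ⟨i, hi⟩ := h1
    have h2 : ∀ k : ℕ, σ (i + k) = i + k + 1 := by
      intro k
      induction k with
      | zero => simpa using hi
      | succ k ih =>
        rcases h (i + (k + 1 : ℕ)) with h3 | h3
        · exfalso
          have h4 : σ (i + k) = σ (i + (k + 1 : ℕ)) := by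
            rw [h3, ih]
            push_cast
            ring
          have h5 := σ.injective h4
          push_cast at h5
          have h6 : (1 : ZMod n) = 0 := by
            have := congrArg (fun x => x - (i + k)) h5
            simp only [sub_self] at this
            rw [this]
            ring
          exact one_ne_zero h6
        · rw [h3]
    ext j
    have h3 := h2 (j - i).val
    rw [ZMod.natCast_zmod_val] at h3
    have h4 : i + (j - i) = j := by ring
    rw [h4] at h3
    rw [h3]
    rfl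
  · left
    push Not at h1
    ext i
    rw [(h i).resolve_right (h1 i)]
    rfl

theorem det_bidiag (n : ℕ) [NeZero n] (α β : R) :
    (circulant (fun x : ZMod n => (if x = 0 then α else 0) - (if x = 1 then β else 0))).det =
      α ^ n - β ^ n := by
  obtain rfl | hn : n = 1 ∨ 2 ≤ n := by
    have := NeZero.ne n
    omega
  · have h0 : ∀ x : ZMod 1, x = 0 := fun x => Subsingleton.elim _ _
    have : Unique (ZMod 1) := ⟨⟨0⟩, h0⟩
    rw [Matrix.det_unique, circulant_apply]
    have h1 : ((default : ZMod 1) - default) = 0 := h0 _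
    have h2 : (0 : ZMod 1) = 1 := (h0 1).symm
    simp [h2]
  · have : Fact (1 < n) := ⟨hn⟩
    rw [det_eq]
    have h01 : (0 : ZMod n) ≠ 1 := zero_ne_one
    have hne : (1 : Equiv.Perm (ZMod n)) ≠ Equiv.addRight 1 := by
      intro h
      have := congrArg (fun σ : Equiv.Perm (ZMod n) => σ 0) h
      simp at this
    rw [Fintype.sum_eq_add (1 : Equiv.Perm (ZMod n)) (Equiv.addRight 1) hne]
    · unfold F
      obtain ⟨k, rfl⟩ : ∃ k, n = k + 1 := ⟨n - 1, by omega⟩
      rw [sign_addRight]
      simp [h01, Ne.symm h01, Units.smul_def]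
      have h5 : (-1 : R) ^ (2 * k + 1) = -1 := Odd.neg_one_pow ⟨k, rfl⟩
      rw [neg_pow β (k + 1), ← mul_assoc, ← pow_add, show k + (k + 1) = 2 * k + 1 by ring, h5]
      ring
    · rintro σ ⟨h1, h2⟩
      unfold F
      have h3 : ∃ i, ¬ (σ i = i ∨ σ i = i + 1) := by
        by_contra hc
        push Not at hc
        rcases perm_cases hn σ hc with h | h
        · exact h1 h
        · exact h2 h
      obtain ⟨i, hi⟩ := h3
      push Not at hi
      rw [Finset.prod_eq_zero (Finset.mem_univ i), smul_zero]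
      have h4 : σ i - i ≠ 0 := fun h => hi.1 (sub_eq_zero.1 h)
      have h5 : σ i - i ≠ 1 := fun h => hi.2 (by rw [← h]; ring)
      simp [h4, h5]

end isdet
section surj

variable {R : Type*} [CommRing R]

theorem isDet_sub_pow (n : ℕ) [NeZero n] (α β : R) : IsDet (ZMod n) (α ^ n - β ^ n) :=
  ⟨_, det_bidiag n α β⟩

/-- from `p ^ s` to `p ^ (s + 1)` -/
theorem isDet_pow_p (p : ℕ) [hp : Fact p.Prime] (s : ℕ) {a : R}
    (ha : IsDet (ZMod (p ^ s)) a) : IsDet (ZMod (p ^ (s + 1))) (a ^ p) := by
  classical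
  let f : ℤ →+ ZMod (p ^ (s + 1)) := (Int.castAddHom _).comp (AddMonoidHom.mulLeft (p : ℤ))
  have hf : f (p ^ s : ℕ) = 0 := by
    change (((p : ℤ) * ((p ^ s : ℕ) : ℤ) : ℤ) : ZMod (p ^ (s + 1))) = 0
    rw [← Nat.cast_mul, Int.cast_natCast, ZMod.natCast_eq_zero_iff, pow_succ']
  let φ : ZMod (p ^ s) →+ ZMod (p ^ (s + 1)) := ZMod.lift (p ^ s) ⟨f, hf⟩
  have hφ : Function.Injective φ := by
    rw [injective_iff_map_eq_zero]
    intro x hx
    obtain ⟨k, rfl⟩ := ZMod.intCast_surjective x
    have h1 : φ (k : ZMod (p ^ s)) = f k := ZMod.lift_coe _ _ _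
    rw [h1] at hx
    change (((p : ℤ) * k : ℤ) : ZMod (p ^ (s + 1))) = 0 at hx
    rw [ZMod.intCast_zmod_eq_zero_iff_dvd] at hx ⊢
    rw [pow_succ', Nat.cast_mul] at hx
    exact Int.dvd_of_mul_dvd_mul_left (by exact_mod_cast hp.out.ne_zero) hx
  have h2 : Nat.card (ZMod (p ^ (s + 1)) ⧸ φ.range) = p := by
    have h3 := Nat.card_congr (cosetEquiv φ hφ)
    rw [Nat.card_prod, Nat.card_zmod, Nat.card_zmod] at h3
    have h4 : p ^ (s + 1) = p * p ^ s := pow_succ' _ _
    exact Nat.eq_of_mul_eq_mul_right (pow_pos hp.out.pos s) (h3.trans h4)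
  have := isDet_of_subgroup φ hφ ha
  rwa [h2] at this

/-- from `p ^ s` to `p ^ s * m` for `m` invertible -/
theorem isDet_coprime (k m : ℕ) [NeZero k] [NeZero m] (hm : IsUnit (m : R)) {a : R}
    (ha : IsDet (ZMod k) a) : IsDet (ZMod (k * m)) a := by
  classical
  have : NeZero (k * m) := ⟨mul_ne_zero (NeZero.ne k) (NeZero.ne m)⟩
  obtain ⟨v, rfl⟩ := ha
  obtain ⟨u, hu⟩ := hm
  let π : ZMod (k * m) →+* ZMod k := ZMod.castHom (dvd_mul_right k m) (ZMod k)
  have hπ : Function.Surjective π := ZMod.castHom_surjective _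
  let U : Matrix (ZMod (k * m)) (ZMod k) R := Matrix.of fun i j => if π i = j then 1 else 0
  let V : Matrix (ZMod k) (ZMod (k * m)) R := Matrix.of fun j i => if π i = j then (↑u⁻¹ : R) else 0
  have hVU : V * U = 1 := by
    ext j j'
    rw [Matrix.mul_apply]
    simp only [V, U, Matrix.of_apply]
    rw [Matrix.one_apply]
    split_ifs with h
    · subst h
      have h2 : (Finset.univ.filter (fun i => π i = j)).card = m := by
        have h3 : ∀ j' : ZMod k, (Finset.univ.filter (fun i => π i = j')).card =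
            (Finset.univ.filter (fun i => π i = j)).card := fun j' =>
          AddMonoidHom.card_fiber_eq_of_mem_range (π : ZMod (k * m) →+ ZMod k) (hπ j') (hπ j)
        have h4 := Finset.card_eq_sum_card_fiberwise (f := π) (s := Finset.univ)
          (t := Finset.univ) (fun x _ => Finset.mem_univ _)
        rw [Finset.sum_congr rfl (fun j' _ => h3 j'), Finset.sum_const, Finset.card_univ,
          Finset.card_univ, ZMod.card, ZMod.card, smul_eq_mul] at h4
        exact (Nat.eq_of_mul_eq_mul_left (Nat.pos_of_ne_zero (NeZero.ne k)) h4).symm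
      have h5 : ∀ i : ZMod (k * m), ((if π i = j then (↑u⁻¹ : R) else 0) *
          if π i = j then 1 else 0) = if π i = j then (↑u⁻¹ : R) else 0 := by
        intro i
        split_ifs <;> simp
      rw [Finset.sum_congr rfl (fun i _ => h5 i), ← Finset.sum_filter, Finset.sum_const, h2,
        nsmul_eq_mul, ← hu, Units.mul_inv]
    · apply Finset.sum_eq_zero
      intro i _
      split_ifs with h1 h2
      · exact absurd (h1.symm.trans h2) h
      · simp
      · simp
      · simp
  refine ⟨fun x => (if x = 0 then 1 else 0) + (↑u⁻¹ : R) * (v (π x) - (if π x = 0 then 1 else 0)), ?_⟩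
  have h1 : circulant (fun x : ZMod (k * m) => (if x = 0 then (1 : R) else 0) +
      (↑u⁻¹ : R) * (v (π x) - (if π x = 0 then 1 else 0))) = 1 + (U * (circulant v - 1)) * V := by
    ext i j
    simp only [circulant_apply, Matrix.add_apply, Matrix.one_apply, Matrix.mul_apply, U, V,
      Matrix.of_apply, Matrix.sub_apply, sub_eq_zero, map_sub]
    simp
    ring
  rw [h1, det_one_add_mul_comm, ← Matrix.mul_assoc, hVU, Matrix.one_mul, add_sub_cancel]

end surj
section group

variable {R : Type*} [CommRing R] [Finite R]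

theorem exists_inv (S : Subring R) {u : R} (hu : IsUnit u) (h : u ∈ S) : ∃ u' ∈ S, u * u' = 1 := by
  obtain ⟨w, rfl⟩ := hu
  refine ⟨(w : R) ^ (orderOf w - 1), S.pow_mem h _, ?_⟩
  rw [← pow_succ', Nat.sub_add_cancel (orderOf_pos w), ← Units.val_pow_eq_pow_val,
    pow_orderOf_eq_one, Units.val_one]

theorem det_add {A : Type*} [AddCommGroup A] [Fintype A] [DecidableEq A] (S : Subring R)
    {a q w : R} (ha : IsDet A a) (hau : IsUnit a) (haS : a ∈ S) (hw : w ∈ S)
    (H : ∀ z ∈ S, IsDet A (1 + q * z)) : IsDet A (a + q * w) := by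
  obtain ⟨a', ha', h1⟩ := exists_inv S hau haS
  have h2 : a + q * w = a * (1 + q * (a' * w)) := by
    linear_combination (-q * w) * h1
  rw [h2]
  exact ha.mul (H _ (S.mul_mem ha' hw))

variable (p : ℕ) [hp : Fact p.Prime]

theorem isUnit_one_add_p (hnil : IsNilpotent (p : R)) (x : R) : IsUnit (1 + (p : R) * x) :=
  ((Commute.all (p : R) x).isNilpotent_mul_right hnil).isUnit_one_add

/-- expansion of the `p`-th power, `p` odd -/
theorem pow_expand (hp2 : p ≠ 2) (S : Subring R) (j : ℕ) {z : R} (hz : z ∈ S) :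
    ∃ w ∈ S, (1 + (p : R) ^ (1 + j) * z) ^ p = 1 + (p : R) ^ (2 + j) * z + (p : R) ^ (3 + j) * w := by
  have hp3 : 3 ≤ p := by
    have := hp.out.two_le
    omega
  set x : R := (p : R) ^ (1 + j) * z with hx
  have hpS : (p : R) ∈ S := natCast_mem S p
  have hxS : x ∈ S := S.mul_mem (S.pow_mem hpS _) hz
  have h1 := add_pow_prime_eq hp.out x 1
  have h2 : Finset.Ioo 0 p = insert 1 (Finset.Ioo 1 p) := by
    ext i
    simp only [Finset.mem_Ioo, Finset.mem_insert]
    omega
  rw [h2, Finset.sum_insert (by simp)] at h1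
  have h3 : p.choose 1 / p = 1 := by
    rw [Nat.choose_one_right, Nat.div_self hp.out.pos]
  rw [h3] at h1
  have h4 : ∃ c ∈ S, ∑ k ∈ Finset.Ioo 1 p, x ^ (k - 1) * 1 ^ (p - k - 1) *
      ((p.choose k / p : ℕ) : R) = x * c := by
    refine ⟨∑ k ∈ Finset.Ioo 1 p, x ^ (k - 2) * ((p.choose k / p : ℕ) : R), ?_, ?_⟩
    · exact S.sum_mem fun k _ => S.mul_mem (S.pow_mem hxS _) (natCast_mem S _)
    · rw [Finset.mul_sum]
      apply Finset.sum_congr rfl
      intro k hk
      rw [Finset.mem_Ioo] at hk
      rw [one_pow, mul_one, ← mul_assoc, ← pow_succ', show k - 2 + 1 = k - 1 by omega]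
  obtain ⟨c, hc, h5⟩ := h4
  rw [h5] at h1
  refine ⟨(p : R) ^ j * z ^ 2 * c + (p : R) ^ (p * (1 + j) - (3 + j)) * z ^ p, ?_, ?_⟩
  · exact S.add_mem (S.mul_mem (S.mul_mem (S.pow_mem hpS _) (S.pow_mem hz _)) hc)
      (S.mul_mem (S.pow_mem hpS _) (S.pow_mem hz _))
  · rw [add_comm 1 x, h1]
    have h6 : x ^ p = (p : R) ^ (3 + j) * ((p : R) ^ (p * (1 + j) - (3 + j)) * z ^ p) := by
      rw [hx, mul_pow, ← pow_mul, ← mul_assoc, ← pow_add]
      congr 2
      have : 3 * (1 + j) ≤ p * (1 + j) := Nat.mul_le_mul_right _ hp3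
      rw [mul_comm (1 + j) p]
      omega
    rw [h6, hx]
    simp only [pow_add, pow_one, one_pow, Nat.cast_one, Nat.sub_self, pow_zero]
    ring

/-- `1 + p ^ 2 z`, odd case -/
theorem step1_odd (hnil : IsNilpotent (p : R)) (hp2 : p ≠ 2) (k : ℕ)
    (IH : ∀ a ∈ G p R (k + 1), IsUnit a → IsDet (ZMod (p ^ (k + 1))) a) :
    ∀ z ∈ G p R k, IsDet (ZMod (p ^ (k + 2))) (1 + (p : R) ^ 2 * z) := by
  obtain ⟨M, hM⟩ := hnil
  have key : ∀ d : ℕ, ∀ j : ℕ, M ≤ j + d → ∀ z ∈ G p R k,
      IsDet (ZMod (p ^ (k + 2))) (1 + (p : R) ^ (2 + j) * z) := by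
    intro d
    induction d with
    | zero =>
      intro j hj z _
      have : (p : R) ^ (2 + j) = 0 := by
        rw [show 2 + j = M + (2 + j - M) by omega, pow_add, hM, zero_mul]
      rw [this, zero_mul, add_zero]
      exact IsDet.one
    | succ d ihd =>
      intro j hj z hz
      obtain ⟨w, hw, h1⟩ := pow_expand p hp2 (G p R k) j hz
      have h2 : (1 + (p : R) ^ (1 + j) * z) ∈ G p R (k + 1) := by
        have h3 := p_pow_mul_mem p (j := 1 + j) hz
        exact (G p R (k + 1)).add_mem (one_mem _) (G_mono p (by omega) h3)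
      have h4 : IsUnit (1 + (p : R) ^ (1 + j) * z) := by
        rw [pow_add, pow_one, mul_assoc]
        exact isUnit_one_add_p p ⟨M, hM⟩ _
      have h5 := isDet_pow_p p (k + 1) (IH _ h2 h4)
      have h6 := det_add (A := ZMod (p ^ (k + 2))) (G p R k) (q := (p : R) ^ (2 + (j + 1)))
        (w := -w) h5 (h4.pow p)
        ((G p R k).pow_mem (G_succ_le p k h2) p) ((G p R k).neg_mem hw)
        (ihd (j + 1) (by omega))
      have h7 : (1 + (p : R) ^ (1 + j) * z) ^ p + (p : R) ^ (2 + (j + 1)) * -w =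
          1 + (p : R) ^ (2 + j) * z := by
        rw [h1, show 2 + (j + 1) = 3 + j by ring]
        ring
      rwa [h7] at h6
  intro z hz
  have := key M 0 (by omega) z hz
  simpa using this

end group

end Cir
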