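import Pool.Agent.X254.Circ9

set_option linter.unusedSectionVars false
set_option linter.unusedVariables false

namespace Cir

section wild

open Polynomial IsLocalRing

/-- `X ^ 4 - 2 c X - 2` over `ℤ / 4` -/
noncomputable def gpol (c : ZMod 4) : (ZMod 4)[X] := X ^ 4 + (-(C (2 * c) * X + C 2))

theorem gpol_deg_lt (c : ZMod 4) : (-(C (2 * c) * X + C 2) : (ZMod 4)[X]).degree < (4 : ℕ) := by
  rw [degree_neg]
  exact lt_of_le_of_lt degree_linear_le (by norm_num)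

theorem gpol_monic (c : ZMod 4) : (gpol c).Monic := monic_X_pow_add (gpol_deg_lt c)

theorem gpol_natDegree (c : ZMod 4) : (gpol c).natDegree = 4 :=
  natDegree_eq_of_degree_eq_some (by
    have : Nontrivial (ZMod 4) := ⟨⟨0, 1, by decide⟩⟩
    unfold gpol
    rw [degree_add_eq_left_of_degree_lt (by rw [degree_X_pow]; exact gpol_deg_lt c), degree_X_pow])

/-- the ring `(ℤ / 4)[X] / (X ^ 4 - 2 c X - 2)` -/
abbrev Rc (c : ZMod 4) : Type := AdjoinRoot (gpol c)

noncomputable abbrev gam (c : ZMod 4) : Rc c := AdjoinRoot.root (gpol c)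

theorem gam_pow_four (c : ZMod 4) : gam c ^ 4 = 2 * (1 + (AdjoinRoot.of (gpol c) c) * gam c) := by
  have h1 : AdjoinRoot.mk (gpol c) (X ^ 4 + (-(C (2 * c) * X + C 2))) = 0 := AdjoinRoot.mk_self
  rw [map_add, map_pow, AdjoinRoot.mk_X, map_neg, map_add, map_mul, AdjoinRoot.mk_X,
    AdjoinRoot.mk_C, AdjoinRoot.mk_C, map_mul, map_ofNat] at h1
  linear_combination h1

theorem four_eq_zero (c : ZMod 4) : (4 : Rc c) = 0 := by
  have h1 : (AdjoinRoot.of (gpol c)) (4 : ZMod 4) = 0 := by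
    rw [show (4 : ZMod 4) = 0 from rfl, map_zero]
  rwa [map_ofNat] at h1

theorem gam_pow_eight (c : ZMod 4) : gam c ^ 8 = 0 := by
  have h1 : gam c ^ 8 = (gam c ^ 4) ^ 2 := by ring
  rw [h1, gam_pow_four]
  linear_combination (1 + (AdjoinRoot.of (gpol c) c) * gam c) ^ 2 * four_eq_zero c

theorem gam_pow_seven (c : ZMod 4) : gam c ^ 7 ≠ 0 := by
  have h1 : gam c ^ 7 = AdjoinRoot.mk (gpol c) (C 2 * X ^ 3) := by
    rw [map_mul, map_pow, AdjoinRoot.mk_X, AdjoinRoot.mk_C, map_ofNat]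
    have h2 : gam c ^ 7 = gam c ^ 4 * gam c ^ 3 := by ring
    rw [h2, gam_pow_four]
    have h3 := gam_pow_four c
    have h4 := four_eq_zero c
    change 2 * (1 + (AdjoinRoot.of (gpol c) c) * gam c) * gam c ^ 3 = 2 * gam c ^ 3
    linear_combination (2 * (AdjoinRoot.of (gpol c) c)) * h3 +
      ((AdjoinRoot.of (gpol c) c) * (1 + (AdjoinRoot.of (gpol c) c) * gam c)) * h4
  rw [h1]
  apply AdjoinRoot.mk_ne_zero_of_natDegree_lt (gpol_monic c)
  · intro h
    have h2 := congrArg (fun q => coeff q 3) h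
    simp at h2
    exact absurd h2 (by decide)
  · rw [gpol_natDegree]
    exact lt_of_le_of_lt (natDegree_C_mul_X_pow_le _ _) (by norm_num)

instance (c : ZMod 4) : Nontrivial (Rc c) := ⟨⟨_, _, gam_pow_seven c⟩⟩

theorem finite_Rc (c : ZMod 4) : Finite (Rc c) ∧ Nat.card (Rc c) = 256 := by
  have b := (AdjoinRoot.powerBasis' (gpol_monic c)).basis
  rw [AdjoinRoot.powerBasis'_dim, gpol_natDegree] at b
  have h1 := b.equivFun.toEquiv
  have h2 : Finite (Rc c) := Finite.of_equiv _ h1.symm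
  refine ⟨h2, ?_⟩
  rw [Nat.card_congr h1, Nat.card_fun, Nat.card_zmod, Nat.card_fin]
  norm_num

instance (c : ZMod 4) : Finite (Rc c) := (finite_Rc c).1

theorem gam_dvd_two (c : ZMod 4) : ∃ v : Rc c, IsUnit v ∧ (2 : Rc c) = gam c ^ 4 * v ∧
    (1 + (AdjoinRoot.of (gpol c) c) * gam c) * v = 1 := by
  have h1 : IsNilpotent ((AdjoinRoot.of (gpol c) c) * gam c) :=
    (Commute.all _ _).isNilpotent_mul_left ⟨8, gam_pow_eight c⟩
  obtain ⟨v, hv⟩ := h1.isUnit_one_add.exists_right_inv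
  refine ⟨v, IsUnit.of_mul_eq_one _ (by rw [mul_comm]; exact hv), ?_, hv⟩
  rw [gam_pow_four]
  linear_combination (-2) * hv

theorem unit_or_dvd (c : ZMod 4) (x : Rc c) : IsUnit x ∨ gam c ∣ x := by
  obtain ⟨f, rfl⟩ := AdjoinRoot.mk_surjective x
  have h1 := congrArg (AdjoinRoot.mk (gpol c)) (divX_mul_X_add f)
  rw [map_add, map_mul, AdjoinRoot.mk_X, AdjoinRoot.mk_C] at h1
  have h2 : ∀ a : ZMod 4, (a * a = 1) ∨ ∃ b, a = 2 * b := by decide
  rcases h2 (f.coeff 0) with h3 | ⟨b, h3⟩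
  · left
    rw [← h1]
    have h4 : IsUnit ((AdjoinRoot.of (gpol c)) (f.coeff 0)) := by
      apply IsUnit.of_mul_eq_one ((AdjoinRoot.of (gpol c)) (f.coeff 0))
      rw [← map_mul, h3, map_one]
    have h5 : IsNilpotent (AdjoinRoot.mk (gpol c) f.divX * gam c) :=
      (Commute.all _ _).isNilpotent_mul_left ⟨8, gam_pow_eight c⟩
    exact IsNilpotent.isUnit_add_right_of_commute h5 h4 (Commute.all _ _)
  · right
    obtain ⟨v, _, hv, _⟩ := gam_dvd_two c
    rw [← h1, h3, map_mul, map_ofNat, hv]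
    refine ⟨AdjoinRoot.mk (gpol c) f.divX + gam c ^ 3 * v * (AdjoinRoot.of (gpol c) b), ?_⟩
    change _ * gam c + _ = _
    ring

theorem gam_not_unit (c : ZMod 4) : ¬ IsUnit (gam c) := by
  have : IsNilpotent (gam c) := ⟨8, gam_pow_eight c⟩
  exact this.not_isUnit

theorem nonunit_iff (c : ZMod 4) (x : Rc c) : ¬ IsUnit x ↔ gam c ∣ x := by
  constructor
  · exact (unit_or_dvd c x).resolve_left
  · intro h hu
    exact gam_not_unit c (isUnit_of_dvd_unit h hu)

instance (c : ZMod 4) : IsLocalRing (Rc c) := by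
  apply IsLocalRing.of_nonunits_add
  intro a b ha hb
  rw [mem_nonunits_iff, nonunit_iff] at ha hb ⊢
  exact dvd_add ha hb

theorem max_Rc (c : ZMod 4) : maximalIdeal (Rc c) = Ideal.span {gam c} := by
  ext x
  rw [mem_maximalIdeal, mem_nonunits_iff, nonunit_iff, Ideal.mem_span_singleton]

theorem chain_Rc {R : Type*} [CommRing R] [Finite R] [IsLocalRing R] {γ : R} {e : ℕ}
    (hγ : maximalIdeal R = Ideal.span {γ}) (he : γ ^ e = 0) (I J : Ideal R) : I ≤ J ∨ J ≤ I := by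
  by_contra h
  push Not at h
  obtain ⟨h1, h2⟩ := h
  obtain ⟨x, hxI, hxJ⟩ := Set.not_subset.1 h1
  obtain ⟨y, hyJ, hyI⟩ := Set.not_subset.1 h2
  obtain ⟨a, _, u, hu, rfl⟩ := exists_unit_mul hγ he x
  obtain ⟨b, _, v, hv, rfl⟩ := exists_unit_mul hγ he y
  have hxI' : γ ^ a ∈ I := (Ideal.mul_unit_mem_iff_mem I hu).1 hxI
  have hyJ' : γ ^ b ∈ J := (Ideal.mul_unit_mem_iff_mem J hv).1 hyJ
  rcases le_total a b with hab | hab
  · exact hyI (I.mul_mem_right v (I.mem_of_dvd (pow_dvd_pow γ hab) hxI'))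
  · exact hxJ (J.mul_mem_right u (J.mem_of_dvd (pow_dvd_pow γ hab) hyJ'))

theorem ne_Rc (c : ZMod 4) : ∀ j < 8, gam c ^ j ≠ 0 := by
  intro j hj h
  apply gam_pow_seven c
  rw [show 7 = j + (7 - j) by omega, pow_add, h, zero_mul]

theorem res_Rc (c : ZMod 4) : Nat.card (ResidueField (Rc c)) = 2 ^ 1 := by
  have h1 := card_R (max_Rc c) (gam_pow_eight c) (ne_Rc c) _ rfl
  rw [(finite_Rc c).2, show 256 = 2 ^ 8 by norm_num] at h1
  rw [pow_one]
  exact (Nat.pow_left_injective (show 8 ≠ 0 by norm_num) h1).symm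

theorem two_Rc (c : ZMod 4) : Ideal.span {((2 : ℕ) : Rc c)} = Ideal.span {gam c ^ 4} := by
  obtain ⟨v, hv, h1, _⟩ := gam_dvd_two c
  rw [show ((2 : ℕ) : Rc c) = gam c ^ 4 * v by push_cast; exact h1]
  exact Ideal.span_singleton_mul_right_unit hv _

open Classical in
theorem card_zero : Nat.card (G 2 (Rc 0) 2) = 2 ^ 3 := by
  have h1 := card_G_of (max_Rc 0) (gam_pow_eight 0) (ne_Rc 0) 2 1 (res_Rc 0) (k := 4) (t := 1)
    (by rw [gam_pow_four]; simp) (one_pow _) isUnit_one 2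
  rw [h1, pow_one]
  congr 1
  have h2 : (Finset.range 8).filter (InS 2 4 2) = {0, 4, 6} := by
    ext j
    rw [Finset.mem_filter, Finset.mem_range]
    simp only [Finset.mem_insert, Finset.mem_singleton]
    constructor
    · rintro ⟨hj, i, hi, l, rfl⟩
      obtain rfl | rfl | rfl : i = 0 ∨ i = 1 ∨ i = 2 := by omega
      · norm_num at hj ⊢
        omega
      · norm_num at hj ⊢
        omega
      · omega
    · rintro (rfl | rfl | rfl)
      · exact ⟨by omega, 0, by omega, 0, by norm_num⟩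
      · exact ⟨by omega, 0, by omega, 1, by norm_num⟩
      · exact ⟨by omega, 1, by omega, 1, by norm_num⟩
  rw [h2]
  rfl

theorem card_one : 2 ^ 4 ≤ Nat.card (G 2 (Rc 1) 2) := by
  have h1 := (fil_card (max_Rc 1) (gam_pow_eight 1) (ne_Rc 1) 2 1 (res_Rc 1)
    (G 2 (Rc 1) 2).toAddSubgroup (fun j => j = 0 ∨ j = 4 ∨ j = 5 ∨ j = 6) ?_).1
  · rw [pow_one] at h1
    have h2 : ((Finset.range 8).filter (fun j => j = 0 ∨ j = 4 ∨ j = 5 ∨ j = 6)).card = 4 := by
      decide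
    rwa [h2] at h1
  · obtain ⟨v, hv, h2, h3⟩ := gam_dvd_two 1
    rw [map_one, one_mul] at h3
    rintro j _ (rfl | rfl | rfl | rfl)
    · refine ⟨1, isUnit_one, fun τ hτ => ?_⟩
      have := teich_mem_G (γ := gam 1) 2 1 (res_Rc 1) (show 0 ≤ 2 by omega) hτ 0
      simpa using this
    · refine ⟨1, isUnit_one, fun τ hτ => ?_⟩
      have := teich_mem_G (γ := gam 1) 2 1 (res_Rc 1) (show 0 ≤ 2 by omega) hτ 1
      simpa using this
    · refine ⟨v, hv, fun τ hτ => ?_⟩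
      have h4 := teich_mem_G (γ := gam 1) 2 1 (res_Rc 1) (show 0 ≤ 2 by omega) hτ 1
      have h5 := teich_mem_G (γ := gam 1) 2 1 (res_Rc 1) (show 1 ≤ 2 by omega) hτ 0
      have h6 := sub_mem h4 h5
      have h7 : τ * (gam 1 ^ 5 * v) = ((2 : ℕ) : Rc 1) ^ 0 * (τ * gam 1 ^ (1 * 2 ^ (2 - 0))) -
          ((2 : ℕ) : Rc 1) ^ 1 * (τ * gam 1 ^ (0 * 2 ^ (2 - 1))) := by
        norm_num
        linear_combination (τ * gam 1 ^ 4) * h3 + τ * h2
      rw [h7]
      exact h6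
    · refine ⟨v, hv, fun τ hτ => ?_⟩
      have h5 := teich_mem_G (γ := gam 1) 2 1 (res_Rc 1) (show 1 ≤ 2 by omega) hτ 1
      have h7 : τ * (gam 1 ^ 6 * v) =
          ((2 : ℕ) : Rc 1) ^ 1 * (τ * gam 1 ^ (1 * 2 ^ (2 - 1))) := by
        norm_num
        linear_combination (-τ * gam 1 ^ 2) * h2
      rw [h7]
      exact h5

end wild

end Cir
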