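import Pool.Agent.X254.Circ1

open WittVector Matrix

set_option linter.unusedSectionVars false

namespace Cir

section quad

variable {R : Type*} [CommRing R]

theorem circ_prod (N : ℕ) [NeZero N] (α β γ δ : R) :
    circulant (fun x : ZMod N => (if x = 0 then α else 0) - (if x = 1 then β else 0)) *
      circulant (fun x : ZMod N => (if x = 0 then γ else 0) - (if x = 1 then δ else 0)) =
    circulant (fun x : ZMod N => (if x = 0 then α * γ else 0) -
      (if x = 1 then α * δ + β * γ else 0) + (if x = 2 then β * δ else 0)) := by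
  rw [circulant_mul]
  congr 1
  ext i
  simp only [Matrix.mulVec, dotProduct, circulant_apply]
  have h1 : ∀ j : ZMod N, ((if i - j = 0 then α else 0) - (if i - j = 1 then β else 0)) *
      ((if j = 0 then γ else 0) - (if j = 1 then δ else 0)) =
      (if j = 0 then ((if i - j = 0 then α else 0) - (if i - j = 1 then β else 0)) * γ else 0) -
      (if j = 1 then ((if i - j = 0 then α else 0) - (if i - j = 1 then β else 0)) * δ else 0) := by
    intro j
    rw [mul_sub, mul_ite, mul_ite, mul_zero]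
  simp only [h1]
  rw [Finset.sum_sub_distrib, Finset.sum_ite_eq' Finset.univ, Finset.sum_ite_eq' Finset.univ]
  simp only [Finset.mem_univ, if_true, sub_zero]
  have h2 : (i - 1 = 0) ↔ i = 1 := sub_eq_zero
  have h3 : (i - 1 = 1) ↔ i = 2 := by
    rw [sub_eq_iff_eq_add]
    norm_num
  simp only [h2, h3]
  split_ifs <;> ring

theorem isDet_quad (s : ℕ) (n : R) : ∃ v : ℕ → R, v 0 = -1 ∧
    (∀ i, v (i + 1) = v i ^ 2 - 2 * n ^ 2 ^ i) ∧
    IsDet (ZMod (2 ^ (s + 1))) (-((1 - 4 * n) * (∏ i ∈ Finset.range (s + 1), v i) ^ 2)) := by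
  let v : ℕ → R := fun i => Nat.rec (-1) (fun i y => y ^ 2 - 2 * n ^ 2 ^ i) i
  refine ⟨v, rfl, fun i => rfl, ?_⟩
  refine ⟨fun x => (if x = 0 then n else 0) - (if x = 1 then - (1 - 2 * n) else 0) +
    (if x = 2 then n else 0), ?_⟩
  let Q := QuadraticAlgebra R (-n) (-1)
  let c : Q := ⟨0, 1⟩
  let d : Q := ⟨-1, -1⟩
  let ι : R →+* Q := algebraMap R Q
  have hcd : c + d = -1 := by
    apply QuadraticAlgebra.ext
    · change (0 : R) + -1 = -1
      ring
    · change (1 : R) + -1 = -0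
      ring
  have hcd2 : c * d = ι n := by
    ext <;> simp [c, d, Q, ι]
  have hv : ∀ i, c ^ 2 ^ i + d ^ 2 ^ i = ι (v i) := by
    intro i
    induction i with
    | zero =>
      have : v 0 = -1 := rfl
      rw [this, pow_zero, pow_one, pow_one, hcd, map_neg, map_one]
    | succ i ih =>
      have : v (i + 1) = v i ^ 2 - 2 * n ^ 2 ^ i := rfl
      rw [this, map_sub, map_mul, map_pow, map_pow, ← ih, ← hcd2, pow_succ, map_ofNat]
      ring
  have hprod : ∀ i, c ^ 2 ^ i - d ^ 2 ^ i = (c - d) * ι (∏ j ∈ Finset.range i, v j) := by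
    intro i
    induction i with
    | zero => simp
    | succ i ih =>
      rw [Finset.prod_range_succ, map_mul, ← mul_assoc, ← ih, ← hv, pow_succ]
      ring
  have hsq : (c - d) ^ 2 = ι (1 - 4 * n) := by
    rw [map_sub, map_mul, map_one, map_ofNat, ← hcd2]
    have : (c - d) ^ 2 = (c + d) ^ 2 - 4 * (c * d) := by ring
    rw [this, hcd]
    ring
  have hinj : Function.Injective ι := QuadraticAlgebra.algebraMap_injective
  apply hinj
  rw [RingHom.map_det, RingHom.mapMatrix_apply, map_circulant]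
  have h1 := circ_prod (2 ^ (s + 1)) d (-c) c (-d)
  have h2 : (fun x : ZMod (2 ^ (s + 1)) => ι ((if x = 0 then n else 0) -
      (if x = 1 then - (1 - 2 * n) else 0) + (if x = 2 then n else 0))) =
      (fun x : ZMod (2 ^ (s + 1)) => (if x = 0 then d * c else 0) -
      (if x = 1 then d * (-d) + (-c) * c else 0) + (if x = 2 then (-c) * (-d) else 0)) := by
    ext1 x
    have e1 : d * (-d) + (-c) * c = - ι (1 - 2 * n) := by
      rw [map_sub, map_mul, map_one, map_ofNat, ← hcd2]
      have : d * (-d) + (-c) * c = - ((c + d) ^ 2 - 2 * (c * d)) := by ring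
      rw [this, hcd]
      ring
    rw [e1, mul_comm d c, hcd2, neg_mul_neg, hcd2]
    simp only [map_add, map_sub, apply_ite ι, map_zero, map_neg]
  rw [h2, ← h1, det_mul, det_bidiag, det_bidiag]
  have h3 : Even (2 ^ (s + 1)) := by
    rw [pow_succ]
    exact even_two.mul_left _
  rw [h3.neg_pow, h3.neg_pow, map_neg, map_mul, map_pow, ← hsq, ← mul_pow, ← hprod]
  ring

theorem isDet_L5 [Finite R] (k : ℕ) (hnil : IsNilpotent (2 : R))
    (IH : ∀ a ∈ G 2 R (k + 1), IsUnit a → IsDet (ZMod (2 ^ (k + 1))) a) (ν : R) :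
    IsDet (ZMod (2 ^ (k + 2))) (1 - 4 * ν ^ 2 ^ (k + 1)) := by
  obtain ⟨v, h0, h1, h2⟩ := isDet_quad (k + 1) (ν ^ 2 ^ (k + 1))
  have hG : ∀ i, v i ∈ G 2 R (k + 1) := by
    intro i
    induction i with
    | zero =>
      rw [h0]
      exact neg_mem (one_mem _)
    | succ i ih =>
      rw [h1]
      exact sub_mem (pow_mem ih _) (mul_mem (by exact_mod_cast natCast_mem (G 2 R (k + 1)) 2)
        (pow_mem (pow_mem_G 2 _ _) _))
  have hU : ∀ i, IsUnit (v i) := by
    intro i
    induction i with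
    | zero =>
      rw [h0]
      exact isUnit_one.neg
    | succ i ih =>
      rw [h1]
      have : IsNilpotent (2 * (ν ^ 2 ^ (k + 1)) ^ 2 ^ i) :=
        (Commute.all _ _).isNilpotent_mul_right hnil
      have h3 := (Commute.all (v i ^ 2) (-(2 * (ν ^ 2 ^ (k + 1)) ^ 2 ^ i)))
      rw [sub_eq_add_neg, add_comm]
      exact IsNilpotent.isUnit_add_right_of_commute this.neg (ih.pow 2) h3.symm
  have hW : IsDet (ZMod (2 ^ (k + 2))) ((∏ i ∈ Finset.range (k + 2), v i) ^ 2) :=
    isDet_pow_p 2 (k + 1) (IH _ (Subring.prod_mem _ fun i _ => hG i)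
      (IsUnit.prod_iff.2 fun i _ => hU i))
  have hneg : IsDet (ZMod (2 ^ (k + 2))) (-1 : R) := by
    have := isDet_sub_pow (2 ^ (k + 2)) (0 : R) 1
    simpa using this
  have h3 := hneg.mul h2
  refine IsDet.of_mul hW ?_ ((IsUnit.prod_iff.2 fun i _ => hU i).pow 2)
  have h4 : (∏ i ∈ Finset.range (k + 2), v i) ^ 2 * (1 - 4 * ν ^ 2 ^ (k + 1)) =
      -1 * -((1 - 4 * ν ^ 2 ^ (k + 1)) * (∏ i ∈ Finset.range (k + 1 + 1), v i) ^ 2) := by
    ring
  rw [h4]
  exact h3

end quad

section group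

variable {R : Type*} [CommRing R] [Finite R]

theorem step1_two (hnil : IsNilpotent (2 : R)) (k : ℕ)
    (IH : ∀ a ∈ G 2 R (k + 1), IsUnit a → IsDet (ZMod (2 ^ (k + 1))) a) :
    ∀ z ∈ G 2 R k, IsDet (ZMod (2 ^ (k + 2))) (1 + 4 * z) := by
  have hunit : ∀ x : R, IsUnit (1 + 2 * x) := fun x =>
    ((Commute.all (2 : R) x).isNilpotent_mul_right hnil).isUnit_one_add
  obtain ⟨M, hM⟩ := hnil
  obtain _ | k := k
  · intro z _
    have := isDet_one_add (A := ZMod (2 ^ (0 + 2))) z
    rw [ZMod.card] at this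
    norm_num at this ⊢
    exact this
  · have h2S : ∀ j, (2 : R) ∈ G 2 R j := fun j => by exact_mod_cast natCast_mem (G 2 R j) 2
    -- (i)
    have key : ∀ d : ℕ, ∀ j : ℕ, M ≤ j + d → ∀ z ∈ G 2 R k,
        IsDet (ZMod (2 ^ (k + 1 + 2))) (1 + 2 ^ (3 + j) * z) := by
      intro d
      induction d with
      | zero =>
        intro j hj z _
        have : (2 : R) ^ (3 + j) = 0 := by
          rw [show 3 + j = M + (3 + j - M) by omega, pow_add, hM, zero_mul]
        rw [this, zero_mul, add_zero]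
        exact IsDet.one
      | succ d ihd =>
        intro j hj z hz
        have h2 : (1 + 2 ^ (2 + j) * z) ∈ G 2 R (k + 2) := by
          have h3 := p_pow_mul_mem 2 (j := 2 + j) hz
          exact add_mem (one_mem _) (G_mono 2 (show k + 2 ≤ k + (2 + j) by omega)
            (by exact_mod_cast h3))
        have h4 : IsUnit (1 + 2 ^ (2 + j) * z) := by
          have := hunit (2 ^ (1 + j) * z)
          rwa [← mul_assoc, ← pow_succ', show 1 + j + 1 = 2 + j by ring] at this
        have h5 := isDet_pow_p 2 (k + 1 + 1) (IH _ h2 h4)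
        have h6 := det_add (A := ZMod (2 ^ (k + 1 + 2))) (G 2 R k) (q := 2 ^ (3 + (j + 1)))
          (w := -(2 ^ j * z ^ 2)) h5 (h4.pow 2)
          (pow_mem (G_mono 2 (show k ≤ k + 2 by omega) h2) 2)
          (neg_mem (mul_mem (pow_mem (h2S _) _) (pow_mem hz _)))
          (ihd (j + 1) (by omega))
        have h7 : (1 + 2 ^ (2 + j) * z) ^ 2 + 2 ^ (3 + (j + 1)) * -(2 ^ j * z ^ 2) =
            1 + 2 ^ (3 + j) * z := by
          simp only [pow_add]
          ring
        rwa [h7] at h6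
    have key8 : ∀ z ∈ G 2 R k, IsDet (ZMod (2 ^ (k + 1 + 2))) (1 + 8 * z) := by
      intro z hz
      have := key M 0 (by omega) z hz
      norm_num at this
      exact this
    -- (ii)
    have hsq : ∀ z ∈ G 2 R (k + 1), IsDet (ZMod (2 ^ (k + 1 + 2))) (1 + 4 * (z + z ^ 2)) := by
      intro z hz
      have h2 : (1 + 2 * z) ∈ G 2 R (k + 2) := by
        have h3 := p_mul_mem 2 hz
        exact add_mem (one_mem _) (by exact_mod_cast h3)
      have h5 := isDet_pow_p 2 (k + 1 + 1) (IH _ h2 (hunit z))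
      have h6 : 1 + 4 * (z + z ^ 2) = (1 + 2 * z) ^ 2 := by ring
      rw [h6]
      exact h5
    -- powers
    have hpow : ∀ x : R, IsDet (ZMod (2 ^ (k + 1 + 2))) (1 + 4 * x ^ 2 ^ (k + 1)) := by
      intro x
      have hz : x ^ 2 ^ (k + 1) ∈ G 2 R (k + 1) := pow_mem_G 2 _ _
      set z := x ^ 2 ^ (k + 1) with hzdef
      have hzk : z ∈ G 2 R k := G_succ_le 2 k hz
      have h1 := hsq z hz
      have h2 := isDet_L5 (k + 1) ⟨M, hM⟩ IH x
      have h3 : x ^ 2 ^ (k + 1 + 1) = z ^ 2 := by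
        rw [hzdef, ← pow_mul, ← pow_succ]
      rw [h3] at h2
      have h4 := h1.mul h2
      have hu1 : IsUnit (1 + 4 * (z + z ^ 2)) := by
        have := hunit (2 * (z + z ^ 2))
        rwa [← mul_assoc, show (2 : R) * 2 = 4 by norm_num] at this
      have hu2 : IsUnit (1 - 4 * z ^ 2) := by
        have := hunit (-(2 * z ^ 2))
        rwa [show (1 : R) + 2 * -(2 * z ^ 2) = 1 - 4 * z ^ 2 by ring] at this
      have h4S : ∀ j, (4 : R) ∈ G 2 R j := fun j => by exact_mod_cast natCast_mem (G 2 R j) 4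
      have h5 := det_add (A := ZMod (2 ^ (k + 1 + 2))) (G 2 R k) (q := 8)
        (w := 2 * (z ^ 3 + z ^ 4)) h4 (hu1.mul hu2)
        (mul_mem (add_mem (one_mem _) (mul_mem (h4S _) (add_mem hzk (pow_mem hzk _))))
          (sub_mem (one_mem _) (mul_mem (h4S _) (pow_mem hzk _))))
        (mul_mem (h2S _) (add_mem (pow_mem hzk _) (pow_mem hzk _))) key8
      have h6 : (1 + 4 * (z + z ^ 2)) * (1 - 4 * z ^ 2) + 8 * (2 * (z ^ 3 + z ^ 4)) =
          1 + 4 * z := by ring
      rwa [h6] at h5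
    intro z hz
    obtain ⟨x, y, hy, rfl⟩ := exists_of_mem_succ 2 hz
    have h4S : ∀ j, (4 : R) ∈ G 2 R j := fun j => by exact_mod_cast natCast_mem (G 2 R j) 4
    have hu1 : IsUnit (1 + 4 * x ^ 2 ^ (k + 1)) := by
      have := hunit (2 * x ^ 2 ^ (k + 1))
      rwa [← mul_assoc, show (2 : R) * 2 = 4 by norm_num] at this
    have h5 := det_add (A := ZMod (2 ^ (k + 1 + 2))) (G 2 R k) (q := 8)
        (w := y) (hpow x) hu1
        (add_mem (one_mem _) (mul_mem (h4S _) (G_succ_le 2 k (pow_mem_G 2 _ _)))) hy key8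
    have h6 : 1 + 4 * x ^ 2 ^ (k + 1) + 8 * y = 1 + 4 * (x ^ 2 ^ (k + 1) + (2 : ℕ) * y) := by
      push_cast
      ring
    rwa [h6] at h5

/-- `1 + p ^ 2 z` -/
theorem step1 (p : ℕ) [hp : Fact p.Prime] (hnil : IsNilpotent (p : R)) (k : ℕ)
    (IH : ∀ a ∈ G p R (k + 1), IsUnit a → IsDet (ZMod (p ^ (k + 1))) a) :
    ∀ z ∈ G p R k, IsDet (ZMod (p ^ (k + 2))) (1 + (p : R) ^ 2 * z) := by
  by_cases h : p = 2
  · subst h
    have h1 := step1_two (by exact_mod_cast hnil) k IH
    intro z hz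
    have := h1 z hz
    norm_num
    exact this
  · exact step1_odd p hnil h k IH

end group

end Cir
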