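import Pool.Agent.X254.Circ2

open WittVector Matrix

set_option linter.unusedSectionVars false

namespace Cir

section step2

variable (p : ℕ) [hp : Fact p.Prime]

theorem sum_range_pow (i : ℕ) : ((∑ j ∈ Finset.range p, j ^ i : ℕ) : ZMod p) =
    ∑ x : ZMod p, x ^ i := by
  push_cast
  have : NeZero p := ⟨hp.out.ne_zero⟩
  refine Finset.sum_bij (fun j _ => (j : ZMod p)) (fun _ _ => Finset.mem_univ _) ?_ ?_ ?_
  · intro a ha b hb h
    rw [Finset.mem_range] at ha hb
    rw [ZMod.natCast_eq_natCast_iff'] at h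
    rwa [Nat.mod_eq_of_lt ha, Nat.mod_eq_of_lt hb] at h
  · intro b _
    exact ⟨b.val, Finset.mem_range.2 (ZMod.val_lt b), ZMod.natCast_zmod_val b⟩
  · intro a _
    rfl

theorem sum_pow_ge (i : ℕ) (h1 : 2 ≤ i) (h2 : i < p) :
    ∃ t : ℤ, ∑ j ∈ Finset.range p, (j : ℤ) ^ (p - 2 + i) = p * t := by
  have h0 : ((∑ j ∈ Finset.range p, j ^ (p - 2 + i) : ℕ) : ZMod p) = 0 := by
    rw [sum_range_pow]
    have h3 : ∀ x : ZMod p, x ^ (p - 2 + i) = x ^ (i - 1) := by
      intro x
      have h4 : p - 2 + i = p + (i - 2) := by omega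
      rw [h4, pow_add, ZMod.pow_card, ← pow_succ']
      congr 1
      omega
    simp only [h3]
    apply FiniteField.sum_pow_lt_card_sub_one
    rw [ZMod.card]
    omega
  rw [ZMod.natCast_eq_zero_iff] at h0
  obtain ⟨t, ht⟩ := h0
  refine ⟨t, ?_⟩
  exact_mod_cast ht

theorem sum_pow_one : ∃ t : ℤ, ∑ j ∈ Finset.range p, (j : ℤ) ^ (p - 2 + 1) = -1 + p * t := by
  have hp2 := hp.out.two_le
  have h0 : ((∑ j ∈ Finset.range p, j ^ (p - 2 + 1) : ℕ) : ZMod p) = -1 := by
    rw [sum_range_pow]
    have h3 : ∀ x : ZMod p, x ^ (p - 2 + 1) = 1 - if x = 0 then 1 else 0 := by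
      intro x
      have h4 : p - 2 + 1 = p - 1 := by omega
      rw [h4]
      split_ifs with h
      · rw [h, zero_pow (by omega)]
        ring
      · rw [ZMod.pow_card_sub_one_eq_one h]
        ring
    simp only [h3]
    rw [Finset.sum_sub_distrib, Finset.sum_const, Finset.sum_ite_eq' Finset.univ]
    simp
  have h1 : ((∑ j ∈ Finset.range p, (j : ℤ) ^ (p - 2 + 1) + 1 : ℤ) : ZMod p) = 0 := by
    push_cast at h0 ⊢
    rw [h0]
    ring
  rw [ZMod.intCast_zmod_eq_zero_iff_dvd] at h1
  obtain ⟨t, ht⟩ := h1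
  exact ⟨t, by linarith⟩

variable {R : Type*} [CommRing R]

theorem sum_g (g : R → R) (hg : ∀ c, g c = ∑ i ∈ Finset.Ioo 0 p, ((p.choose i / p : ℕ) : R) * c ^ i)
    (c : R) : ∃ y : R, ∑ j ∈ Finset.range p, (j ^ (p - 2)) • g (j * c) = -c + p * y := by
  have hp2 := hp.out.two_le
  obtain ⟨t1, ht1⟩ := sum_pow_one p
  have ht : ∀ i, ∃ t : ℤ, 2 ≤ i → i < p → ∑ j ∈ Finset.range p, (j : ℤ) ^ (p - 2 + i) = p * t := by
    intro i
    by_cases h : 2 ≤ i ∧ i < p
    · obtain ⟨t, ht⟩ := sum_pow_ge p i h.1 h.2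
      exact ⟨t, fun _ _ => ht⟩
    · exact ⟨0, fun h1 h2 => absurd ⟨h1, h2⟩ h⟩
  choose t ht using ht
  have h1 : ∑ j ∈ Finset.range p, (j ^ (p - 2)) • g (j * c) =
      ∑ i ∈ Finset.Ioo 0 p, ((p.choose i / p : ℕ) : R) * c ^ i *
        ((∑ j ∈ Finset.range p, (j : ℤ) ^ (p - 2 + i) : ℤ) : R) := by
    simp only [hg, Finset.smul_sum]
    rw [Finset.sum_comm]
    apply Finset.sum_congr rfl
    intro i _
    push_cast
    rw [Finset.mul_sum]
    apply Finset.sum_congr rfl
    intro j _
    rw [nsmul_eq_mul, mul_pow, pow_add]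
    push_cast
    ring
  rw [h1]
  have h2 : Finset.Ioo 0 p = insert 1 (Finset.Ioo 1 p) := by
    ext i
    simp only [Finset.mem_Ioo, Finset.mem_insert]
    omega
  rw [h2, Finset.sum_insert (by simp), ht1]
  have h3 : p.choose 1 / p = 1 := by
    rw [Nat.choose_one_right, Nat.div_self hp.out.pos]
  rw [h3]
  have h4 : ∑ i ∈ Finset.Ioo 1 p, ((p.choose i / p : ℕ) : R) * c ^ i *
        ((∑ j ∈ Finset.range p, (j : ℤ) ^ (p - 2 + i) : ℤ) : R) =
      p * ∑ i ∈ Finset.Ioo 1 p, ((p.choose i / p : ℕ) : R) * c ^ i * (t i : R) := by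
    rw [Finset.mul_sum]
    apply Finset.sum_congr rfl
    intro i hi
    rw [Finset.mem_Ioo] at hi
    rw [ht i (by omega) hi.2]
    push_cast
    ring
  rw [h4]
  refine ⟨c * t1 + ∑ i ∈ Finset.Ioo 1 p, ((p.choose i / p : ℕ) : R) * c ^ i * (t i : R), ?_⟩
  push_cast
  ring

theorem ghost_succ (k : ℕ) (u : WittVector p R) :
    ∃ z ∈ G p R k, ghostComponent (k + 1) u = u.coeff 0 ^ p ^ (k + 1) + p * z := by
  refine ⟨∑ i ∈ Finset.range (k + 1), (p : R) ^ i * u.coeff (i + 1) ^ p ^ (k - i), ?_, ?_⟩
  · exact (mem_G p _ _).2 ⟨fun i => u.coeff (i + 1), rfl⟩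
  · rw [WittVector.ghostComponent_apply, aeval_wittPolynomial]
    rw [Finset.sum_range_succ', Finset.mul_sum, add_comm]
    congr 1
    · simp
    · apply Finset.sum_congr rfl
      intro i _
      rw [show k + 1 - (i + 1) = k - i by omega, pow_succ']
      ring

theorem ghost_succ_succ (k : ℕ) (u : WittVector p R) :
    ∃ z ∈ G p R k, ghostComponent (k + 2) u = u.coeff 0 ^ p ^ (k + 2) +
      p * u.coeff 1 ^ p ^ (k + 1) + p ^ 2 * z := by
  refine ⟨∑ i ∈ Finset.range (k + 1), (p : R) ^ i * u.coeff (i + 2) ^ p ^ (k - i), ?_, ?_⟩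
  · exact (mem_G p _ _).2 ⟨fun i => u.coeff (i + 2), rfl⟩
  · rw [WittVector.ghostComponent_apply, aeval_wittPolynomial]
    rw [show k + 2 + 1 = (k + 1) + 1 + 1 by ring, Finset.sum_range_succ', Finset.sum_range_succ',
      Finset.mul_sum]
    have : ∀ i ∈ Finset.range (k + 1), (p : R) ^ (i + 1 + 1) * u.coeff (i + 1 + 1) ^
        p ^ (k + 2 - (i + 1 + 1)) = p ^ 2 * (p ^ i * u.coeff (i + 2) ^ p ^ (k - i)) := by
      intro i _
      rw [show k + 2 - (i + 1 + 1) = k - i by omega, pow_succ', pow_succ', show i + 1 + 1 = i + 2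
        by ring]
      ring
    rw [Finset.sum_congr rfl this]
    simp
    ring

/-- the first Witt coordinate of `[1 + c] - [c]` -/
theorem coeff_one (c : R) : (teichmuller p (1 + c) - teichmuller p c).coeff 0 = 1 ∧
    (teichmuller p (1 + c) - teichmuller p c).coeff 1 =
      ∑ i ∈ Finset.Ioo 0 p, ((p.choose i / p : ℕ) : R) * c ^ i := by
  let Z := Polynomial ℤ
  let X : Z := Polynomial.X
  let φ : Z →+* R := Polynomial.eval₂RingHom (Int.castRingHom R) c
  have hφX : φ X = c := Polynomial.eval₂_X _ _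
  let U : WittVector p Z := teichmuller p (1 + X) - teichmuller p X
  have hU : WittVector.map φ U = teichmuller p (1 + c) - teichmuller p c := by
    rw [map_sub, WittVector.map_teichmuller, WittVector.map_teichmuller, map_add, map_one, hφX]
  have h0 : U.coeff 0 = 1 := by
    have h := WittVector.ghostComponent_apply 0 U
    rw [aeval_wittPolynomial] at h
    simp only [zero_add, Finset.range_one, Finset.sum_singleton, pow_zero, one_mul, Nat.sub_self,
      pow_one] at h
    rw [← h, map_sub, WittVector.ghostComponent_teichmuller, WittVector.ghostComponent_teichmuller]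
    simp
  have h1 : U.coeff 1 = ∑ i ∈ Finset.Ioo 0 p, ((p.choose i / p : ℕ) : Z) * X ^ i := by
    have h := WittVector.ghostComponent_apply 1 U
    rw [aeval_wittPolynomial] at h
    simp only [Nat.reduceAdd, Finset.sum_range_succ, Finset.range_zero, Finset.sum_empty,
      zero_add, pow_zero, one_mul, Nat.sub_zero, pow_one, Nat.sub_self, h0, one_pow] at h
    rw [map_sub, WittVector.ghostComponent_teichmuller, WittVector.ghostComponent_teichmuller,
      pow_one] at h
    have h2 := add_pow_prime_eq hp.out (1 : Z) X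
    rw [h2] at h
    have hpz : (p : Z) ≠ 0 := Nat.cast_ne_zero.2 hp.out.ne_zero
    have h3 : (p : Z) * U.coeff 1 = p * ∑ i ∈ Finset.Ioo 0 p, ((p.choose i / p : ℕ) : Z) * X ^ i := by
      have h4 : (p : Z) * 1 * X * ∑ k ∈ Finset.Ioo 0 p, (1 : Z) ^ (k - 1) * X ^ (p - k - 1) *
          ((p.choose k / p : ℕ) : Z) =
          p * ∑ i ∈ Finset.Ioo 0 p, ((p.choose i / p : ℕ) : Z) * X ^ i := by
        rw [mul_one, mul_assoc]
        congr 1
        rw [Finset.mul_sum]
        refine Finset.sum_bij' (fun k _ => p - k) (fun k _ => p - k) ?_ ?_ ?_ ?_ ?_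
        · intro k hk
          rw [Finset.mem_Ioo] at hk ⊢
          omega
        · intro k hk
          rw [Finset.mem_Ioo] at hk ⊢
          omega
        · intro k hk
          rw [Finset.mem_Ioo] at hk
          omega
        · intro k hk
          rw [Finset.mem_Ioo] at hk
          omega
        · intro k hk
          rw [Finset.mem_Ioo] at hk
          rw [Nat.choose_symm hk.2.le, one_pow, one_mul, ← mul_assoc, ← pow_succ',
            show p - k - 1 + 1 = p - k by omega]
          ring
      rw [← h4]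
      linear_combination -h
    exact mul_left_cancel₀ hpz h3
  constructor
  · rw [← hU, WittVector.map_coeff, h0, map_one]
  · rw [← hU, WittVector.map_coeff, h1, map_sum]
    apply Finset.sum_congr rfl
    intro i _
    rw [map_mul, map_pow, hφX, map_natCast]

variable [Finite R]

theorem isUnit_add_p (hnil : IsNilpotent (p : R)) {a : R} (ha : IsUnit a) (x : R) :
    IsUnit (a + (p : R) * x) := by
  have h := (Commute.all (p : R) x).isNilpotent_mul_right hnil
  rw [add_comm]
  exact IsNilpotent.isUnit_add_right_of_commute h ha (Commute.all _ _)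

theorem step2 (hnil : IsNilpotent (p : R)) (k : ℕ)
    (H1 : ∀ z ∈ G p R k, IsDet (ZMod (p ^ (k + 2))) (1 + (p : R) ^ 2 * z)) (x : R) :
    IsDet (ZMod (p ^ (k + 2))) (1 + (p : R) * x ^ p ^ (k + 1)) := by
  have hP : p ^ (k + 1) ≠ 0 := pow_ne_zero _ hp.out.ne_zero
  have hpS : (p : R) ∈ G p R k := natCast_mem _ p
  have hPk : ∀ x : R, x ^ p ^ (k + 1) ∈ G p R k := fun x => G_succ_le p k (pow_mem_G p _ _)
  have hmem : ∀ x : R, 1 + (p : R) * x ^ p ^ (k + 1) ∈ G p R k := fun x =>
    add_mem (one_mem _) (mul_mem hpS (hPk x))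
  let L : AddSubmonoid R :=
    { carrier := {x | IsDet (ZMod (p ^ (k + 2))) (1 + (p : R) * x ^ p ^ (k + 1))}
      zero_mem' := by
        change IsDet _ _
        rw [zero_pow hP, mul_zero, add_zero]
        exact IsDet.one
      add_mem' := by
        intro x y hx hy
        change IsDet _ _ at hx hy ⊢
        obtain ⟨z, hz, h1⟩ := ghost_succ p k
          (teichmuller p x + teichmuller p y - teichmuller p (x + y))
        have h2 : (teichmuller p x + teichmuller p y - teichmuller p (x + y)).coeff 0 = 0 := by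
          have h3 := map_sub (WittVector.constantCoeff (p := p) (R := R))
            (teichmuller p x + teichmuller p y) (teichmuller p (x + y))
          rw [map_add WittVector.constantCoeff] at h3
          have h4 : ∀ x : R, WittVector.constantCoeff (p := p) (R := R) (teichmuller p x) = x :=
            fun x => WittVector.teichmuller_coeff_zero p x
          rw [h4, h4, h4, sub_self] at h3
          exact h3
        rw [h2, zero_pow hP, zero_add, map_sub, map_add, ghostComponent_teichmuller,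
          ghostComponent_teichmuller, ghostComponent_teichmuller] at h1
        have h5 := det_add (A := ZMod (p ^ (k + 2))) (G p R k) (q := (p : R) ^ 2)
          (w := -z - (x * y) ^ p ^ (k + 1)) (hx.mul hy)
          ((isUnit_one_add_p p hnil _).mul (isUnit_one_add_p p hnil _))
          (mul_mem (hmem x) (hmem y)) (sub_mem (neg_mem hz) (hPk _)) H1
        have h6 : (1 + (p : R) * x ^ p ^ (k + 1)) * (1 + (p : R) * y ^ p ^ (k + 1)) +
            (p : R) ^ 2 * (-z - (x * y) ^ p ^ (k + 1)) = 1 + (p : R) * (x + y) ^ p ^ (k + 1) := by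
          rw [mul_pow]
          linear_combination (p : R) * h1
        rwa [h6] at h5 }
  have hpL : ∀ y : R, (p : R) * y ∈ L := by
    intro y
    change IsDet _ _
    have h1 := H1 ((p : R) ^ (p ^ (k + 1) - 1) * y ^ p ^ (k + 1))
      (mul_mem (pow_mem hpS _) (hPk y))
    have h2 : (p : R) ^ 2 * ((p : R) ^ (p ^ (k + 1) - 1) * y ^ p ^ (k + 1)) =
        p * (p * y) ^ p ^ (k + 1) := by
      rw [mul_pow, ← mul_assoc, ← mul_assoc, ← pow_add, ← pow_succ']
      congr 2
      have := Nat.pos_of_ne_zero hP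
      omega
    rwa [h2] at h1
  let g : R → R := fun c => ∑ i ∈ Finset.Ioo 0 p, ((p.choose i / p : ℕ) : R) * c ^ i
  have hgL : ∀ c, g c ∈ L := by
    intro c
    change IsDet _ _
    obtain ⟨h0, h1⟩ := coeff_one p c
    obtain ⟨z, hz, h2⟩ := ghost_succ_succ p k (teichmuller p (1 + c) - teichmuller p c)
    have hS : ghostComponent (k + 2) (teichmuller p (1 + c) - teichmuller p c) ∈ G p R k :=
      G_mono p (show k ≤ k + 2 by omega) ⟨_, rfl⟩
    rw [h0, h1, one_pow] at h2
    have hU : IsUnit (ghostComponent (k + 2) (teichmuller p (1 + c) - teichmuller p c)) := by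
      rw [h2, pow_two, mul_assoc, add_assoc, ← mul_add]
      exact isUnit_one_add_p p hnil _
    have hD : IsDet (ZMod (p ^ (k + 2)))
        (ghostComponent (k + 2) (teichmuller p (1 + c) - teichmuller p c)) := by
      rw [map_sub, ghostComponent_teichmuller, ghostComponent_teichmuller]
      exact isDet_sub_pow _ _ _
    have h5 := det_add (A := ZMod (p ^ (k + 2))) (G p R k) (q := (p : R) ^ 2)
      (w := -z) hD hU hS (neg_mem hz) H1
    have h6 : ghostComponent (k + 2) (teichmuller p (1 + c) - teichmuller p c) +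
        (p : R) ^ 2 * -z = 1 + p * g c ^ p ^ (k + 1) := by
      rw [h2]
      ring
    rwa [h6] at h5
  have hall : ∀ c, c ∈ L := by
    intro c
    obtain ⟨y, hy⟩ := sum_g p g (fun _ => rfl) (-c)
    have h1 : ∑ j ∈ Finset.range p, (j ^ (p - 2)) • g (j * -c) ∈ L :=
      sum_mem fun j _ => nsmul_mem (hgL _) _
    rw [hy] at h1
    have h2 := add_mem h1 (hpL (-y))
    have h3 : - -c + p * y + p * -y = c := by ring
    rwa [h3] at h2
  exact hall x

/-- Every unit of the Witt subring is a circulant determinant. -/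
theorem isDet_of_mem_G (hnil : IsNilpotent (p : R)) (s : ℕ) :
    ∀ a ∈ G p R s, IsUnit a → IsDet (ZMod (p ^ s)) a := by
  induction s using Nat.strong_induction_on with
  | _ s ih =>
    intro a ha hau
    obtain _ | s := s
    · refine ⟨fun _ => a, ?_⟩
      have hs : Subsingleton (ZMod (p ^ 0)) := by
        rw [pow_zero]
        infer_instance
      have h0 : ∀ x : ZMod (p ^ 0), x = 0 := fun x => Subsingleton.elim _ _
      have : Unique (ZMod (p ^ 0)) := ⟨⟨0⟩, h0⟩
      rw [Matrix.det_unique, circulant_apply]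
    · obtain ⟨x, y, hy, rfl⟩ := exists_of_mem_succ p ha
      have hx : IsUnit x := by
        have h1 := isUnit_add_p p hnil hau (-y)
        have h2 : x ^ p ^ (s + 1) + p * y + p * -y = x ^ p ^ (s + 1) := by ring
        rw [h2] at h1
        exact (isUnit_pow_iff (pow_ne_zero _ hp.out.ne_zero)).1 h1
      have hxD : IsDet (ZMod (p ^ (s + 1))) (x ^ p ^ (s + 1)) := by
        have := isDet_sub_pow (p ^ (s + 1)) x 0
        rwa [zero_pow (pow_ne_zero _ hp.out.ne_zero), sub_zero] at this
      have h3 := det_add (A := ZMod (p ^ (s + 1))) (G p R s) (q := (p : R)) (w := y) hxD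
        (hx.pow _) (G_succ_le p s (pow_mem_G p _ _)) hy
      apply h3
      intro z hz
      obtain _ | k := s
      · have := isDet_one_add (A := ZMod (p ^ (0 + 1))) z
        rw [ZMod.card] at this
        norm_num at this ⊢
        exact this
      · have H1 := step1 p hnil k (ih (k + 1) (by omega))
        obtain ⟨t, w, hw, rfl⟩ := exists_of_mem_succ p hz
        have h4 := step2 p hnil k H1 t
        have h5 := det_add (A := ZMod (p ^ (k + 2))) (G p R k) (q := (p : R) ^ 2) (w := w) h4
          (isUnit_one_add_p p hnil _) (add_mem (one_mem _) (mul_mem (natCast_mem _ p)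
          (G_succ_le p k (pow_mem_G p _ _)))) hw H1
        have h6 : 1 + (p : R) * t ^ p ^ (k + 1) + (p : R) ^ 2 * w =
            1 + p * (t ^ p ^ (k + 1) + p * w) := by ring
        rwa [h6] at h5

end step2

end Cir
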