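import Pool.Agent.X254.Circ3

open Matrix

set_option linter.unusedSectionVars false

namespace Cir

section cnt

open Polynomial UniqueFactorizationMonoid

variable {K : Type*} [Field K] [Finite K]

/-- number of units of a quotient of the polynomial ring -/
noncomputable def NU (f : K[X]) : ℕ := Nat.card (K[X] ⧸ Ideal.span {f})ˣ

theorem NU_mul {f g : K[X]} (h : IsCoprime f g) : NU (f * g) = NU f * NU g := by
  unfold NU
  have h1 : IsCoprime (Ideal.span {f}) (Ideal.span {g}) := (Ideal.isCoprime_span_singleton_iff f g).2 h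
  rw [← Ideal.span_singleton_mul_span_singleton,
    Nat.card_congr (Units.mapEquiv (Ideal.quotientMulEquivQuotientProd _ _ h1).toMulEquiv).toEquiv,
    Nat.card_congr MulEquiv.prodUnits.toEquiv, Nat.card_prod]

theorem NU_one : NU (1 : K[X]) = 1 := by
  unfold NU
  rw [Ideal.span_singleton_one]
  have : Subsingleton (K[X] ⧸ (⊤ : Ideal K[X])) := Ideal.Quotient.subsingleton_iff.2 rfl
  exact Nat.card_unique

theorem card_quot {f : K[X]} (hf : f ≠ 0) :
    Nat.card (K[X] ⧸ Ideal.span {f}) = Nat.card K ^ f.natDegree := by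
  have : Module.Finite K (K[X] ⧸ Ideal.span {f}) := (AdjoinRoot.powerBasis hf).finite
  rw [Module.natCard_eq_pow_finrank (K := K), finrank_quotient_span_eq_natDegree]

theorem NU_irr {f : K[X]} (hf : Irreducible f) : NU f = Nat.card K ^ f.natDegree - 1 := by
  have : Fact (Irreducible f) := ⟨hf⟩
  have h1 := card_quot hf.ne_zero
  unfold NU
  have h2 : Nat.card (AdjoinRoot f)ˣ = Nat.card (AdjoinRoot f) - 1 := Nat.card_units _
  rw [← h1]
  exact h2

theorem NU_prod (s : Multiset K[X]) (h1 : ∀ g ∈ s, Irreducible g) (h2 : Squarefree s.prod) :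
    NU s.prod = (s.map fun g => Nat.card K ^ g.natDegree - 1).prod := by
  induction s using Multiset.induction with
  | empty => simpa using NU_one
  | cons a s ih =>
    rw [Multiset.prod_cons] at h2
    rw [Multiset.prod_cons, Multiset.map_cons, Multiset.prod_cons]
    obtain ⟨h3, h4, h5⟩ := squarefree_mul_iff.1 h2
    rw [NU_mul h3.isCoprime, NU_irr (h1 a (Multiset.mem_cons_self _ _)),
      ih (fun g hg => h1 g (Multiset.mem_cons_of_mem hg)) h5]

theorem NU_X_pow_sub_one (p f : ℕ) [hp : Fact p.Prime] (hK : Nat.card K = p ^ f) (m : ℕ)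
    (hm : ¬ p ∣ m) :
    NU (X ^ m - 1 : K[X]) = ∏ d ∈ m.divisors,
      ((p ^ f) ^ orderOf ((p ^ f : ℕ) : ZMod d) - 1) ^ (d.totient / orderOf ((p ^ f : ℕ) : ZMod d)) := by
  classical
  have : Fintype K := Fintype.ofFinite K
  have hm0 : 0 < m := Nat.pos_of_ne_zero fun h => hm (h ▸ dvd_zero p)
  have hKf : Fintype.card K = p ^ f := by rw [← hK, Nat.card_eq_fintype_card]
  have hchar := charP_of_card_eq_prime_pow hKf
  let s : Multiset K[X] := ∑ d ∈ m.divisors, normalizedFactors (cyclotomic d K)
  have hprod : ∀ d, (normalizedFactors (cyclotomic d K)).prod = cyclotomic d K := fun d => by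
    rw [prod_normalizedFactors_eq (cyclotomic_ne_zero d K), (cyclotomic.monic d K).normalize_eq_self]
  have hs : s.prod = X ^ m - 1 := by
    rw [← prod_cyclotomic_eq_X_pow_sub_one hm0]
    change (∑ d ∈ m.divisors, normalizedFactors (cyclotomic d K)).prod = _
    rw [Multiset.prod_sum]
    exact Finset.prod_congr rfl fun d _ => hprod d
  have hirr : ∀ g ∈ s, Irreducible g := by
    intro g hg
    rw [Multiset.mem_sum] at hg
    obtain ⟨d, _, hd⟩ := hg
    exact irreducible_of_normalized_factor g hd
  have hsq : Squarefree s.prod := by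
    rw [hs]
    apply Separable.squarefree
    rw [X_pow_sub_one_separable_iff]
    intro h
    exact hm ((CharP.cast_eq_zero_iff K p m).1 h)
  rw [← hs, NU_prod s hirr hsq]
  have h1 : (s.map fun g => Nat.card K ^ g.natDegree - 1) =
      ∑ d ∈ m.divisors, (normalizedFactors (cyclotomic d K)).map
        fun g => Nat.card K ^ g.natDegree - 1 :=
    map_sum (Multiset.mapAddMonoidHom (fun g : K[X] => Nat.card K ^ g.natDegree - 1)) _ _
  rw [h1, Multiset.prod_sum]
  apply Finset.prod_congr rfl
  intro d hd
  have hdm := Nat.dvd_of_mem_divisors hd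
  have hpd : p.Coprime d := hp.out.coprime_iff_not_dvd.2 fun h => hm (h.trans hdm)
  have hord : orderOf (ZMod.unitOfCoprime _ (hpd.pow_left f)) = orderOf ((p ^ f : ℕ) : ZMod d) := by
    rw [← orderOf_units, ZMod.coe_unitOfCoprime]
  have hdeg : ∀ P ∈ normalizedFactors (cyclotomic d K),
      P.natDegree = orderOf ((p ^ f : ℕ) : ZMod d) := by
    intro P hP
    rw [natDegree_of_mem_normalizedFactors_cyclotomic hKf hpd hP, hord]
  have hcard : (normalizedFactors (cyclotomic d K)).card * orderOf ((p ^ f : ℕ) : ZMod d) =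
      d.totient := by
    have h2 := congrArg natDegree (hprod d)
    rw [natDegree_cyclotomic, natDegree_multiset_prod _ (zero_notMem_normalizedFactors _),
      Multiset.map_congr rfl hdeg] at h2
    simpa using h2
  have hpos : 0 < orderOf ((p ^ f : ℕ) : ZMod d) := by
    rw [← hord]
    have : NeZero d := ⟨fun h => by
      rw [h] at hdm
      exact hm0.ne' (zero_dvd_iff.1 hdm)⟩
    exact orderOf_pos _
  have h3 : (normalizedFactors (cyclotomic d K)).map (fun g => Nat.card K ^ g.natDegree - 1) =
      (normalizedFactors (cyclotomic d K)).map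
        (fun _ => (p ^ f) ^ orderOf ((p ^ f : ℕ) : ZMod d) - 1) :=
    Multiset.map_congr rfl fun P hP => by rw [hdeg P hP, hK]
  rw [h3, Multiset.map_const', Multiset.prod_replicate, ← hcard, Nat.mul_div_cancel _ hpos]

end cnt

section mat

open Polynomial

variable (n : ℕ) [NeZero n] (K : Type*) [Field K]

/-- the shift matrix -/
def shift : Matrix (ZMod n) (ZMod n) K := circulant (Pi.single 1 1)

theorem shift_pow (i : ℕ) : shift n K ^ i = circulant (Pi.single (i : ZMod n) 1) := by
  induction i with
  | zero =>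
    rw [pow_zero, Nat.cast_zero, circulant_single_one]
  | succ i ih =>
    rw [pow_succ, ih, shift, circulant_mul]
    congr 1
    rw [Matrix.mulVec_single_one]
    ext j
    simp only [Matrix.col_apply, circulant_apply, Pi.single_apply]
    push_cast
    simp only [sub_eq_iff_eq_add]

theorem shift_pow_card : shift n K ^ n = 1 := by
  rw [shift_pow, ZMod.natCast_self, circulant_single_one]

variable {K}

theorem sum_zmod {M : Type*} [AddCommMonoid M] (F : ℕ → M) :
    ∑ i : ZMod n, F i.val = ∑ i ∈ Finset.range n, F i := by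
  obtain ⟨k, rfl⟩ : ∃ k, n = k + 1 := ⟨n - 1, by have := NeZero.pos n; omega⟩
  exact Fin.sum_univ_eq_sum_range F (k + 1)

/-- the polynomial of a vector -/
noncomputable def poly (v : ZMod n → K) : K[X] := ∑ i : ZMod n, C (v i) * X ^ i.val

theorem aeval_poly (v : ZMod n → K) : aeval (shift n K) (poly n v) = circulant v := by
  unfold poly
  rw [map_sum]
  ext i j
  rw [Matrix.sum_apply, circulant_apply]
  have h1 : ∀ l : ZMod n, (aeval (shift n K) (C (v l) * X ^ l.val)) i j =
      if i - j = l then v l else 0 := by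
    intro l
    rw [map_mul, map_pow, aeval_X, aeval_C, shift_pow, ZMod.natCast_zmod_val,
      ← Algebra.smul_def, Matrix.smul_apply, circulant_apply, Pi.single_apply]
    split_ifs <;> simp
  simp only [h1]
  rw [Finset.sum_ite_eq Finset.univ]
  simp

theorem aeval_eq_zero {f : K[X]} (h : aeval (shift n K) f = 0) : (X ^ n - 1 : K[X]) ∣ f := by
  have hmon : (X ^ n - 1 : K[X]).Monic := by
    have := monic_X_pow_sub_C (1 : K) (NeZero.ne n)
    simpa using this
  rw [← modByMonic_eq_zero_iff_dvd hmon]
  have h1 : aeval (shift n K) (f %ₘ (X ^ n - 1)) = 0 := by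
    have h2 := congrArg (aeval (shift n K)) (modByMonic_add_div f (X ^ n - 1 : K[X]))
    rw [map_add, map_mul, map_sub, map_pow, aeval_X, map_one, shift_pow_card, sub_self, zero_mul,
      add_zero, h] at h2
    exact h2
  have hdeg : (f %ₘ (X ^ n - 1)).natDegree < n := by
    have h3 := natDegree_modByMonic_lt f hmon (by
      intro h4
      have h5 := congrArg natDegree h4
      have h6 : (X ^ n - 1 : K[X]).natDegree = n := by
        have := natDegree_X_pow_sub_C (R := K) (n := n) (r := 1)
        simpa using this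
      rw [h6, natDegree_one] at h5
      exact NeZero.ne n h5)
    have h6 : (X ^ n - 1 : K[X]).natDegree = n := by
      have := natDegree_X_pow_sub_C (R := K) (n := n) (r := 1)
      simpa using this
    rwa [h6] at h3
  rw [aeval_eq_sum_range' hdeg] at h1
  ext j
  rw [coeff_zero]
  by_cases hj : j < n
  · have h2 := congrFun (congrFun h1 (j : ZMod n)) 0
    rw [Matrix.sum_apply] at h2
    have h3 : ∀ i ∈ Finset.range n, ((f %ₘ (X ^ n - 1)).coeff i • shift n K ^ i) (j : ZMod n) 0 =
        if i = j then (f %ₘ (X ^ n - 1)).coeff i else 0 := by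
      intro i hi
      rw [Finset.mem_range] at hi
      rw [shift_pow, Matrix.smul_apply, circulant_apply, Pi.single_apply, sub_zero]
      have h4 : ((j : ZMod n) = (i : ZMod n)) ↔ i = j := by
        rw [ZMod.natCast_eq_natCast_iff', Nat.mod_eq_of_lt hi, Nat.mod_eq_of_lt hj]
        exact eq_comm
      simp only [h4]
      split_ifs <;> simp
    rw [Finset.sum_congr rfl h3, Finset.sum_ite_eq' (Finset.range n)] at h2
    simpa [hj] using h2
  · exact coeff_eq_zero_of_natDegree_lt (by omega)

theorem det_iff [Finite K] (p s m : ℕ) [hp : Fact p.Prime] [CharP K p] (hn : n = p ^ s * m)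
    (v : ZMod n → K) :
    IsUnit (circulant v).det ↔ IsUnit (Ideal.Quotient.mk (Ideal.span {(X ^ m - 1 : K[X])}) (poly n v)) := by
  have hfrob : (X ^ n - 1 : K[X]) = (X ^ m - 1) ^ p ^ s := by
    rw [sub_pow_char_pow, one_pow, ← pow_mul, mul_comm m, ← hn]
  constructor
  · intro h
    rw [← Matrix.isUnit_iff_isUnit_det] at h
    obtain ⟨u, hu⟩ := h
    have h1 : (circulant v) ^ orderOf u = 1 := by
      rw [← hu, ← Units.val_pow_eq_pow_val, pow_orderOf_eq_one, Units.val_one]
    have h2 : aeval (shift n K) (poly n v ^ orderOf u - 1) = 0 := by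
      rw [map_sub, map_pow, aeval_poly, h1, map_one, sub_self]
    have h3 : (X ^ m - 1 : K[X]) ∣ poly n v ^ orderOf u - 1 :=
      (dvd_pow_self _ (pow_ne_zero _ hp.out.ne_zero)).trans (hfrob ▸ aeval_eq_zero n h2)
    rw [← Ideal.mem_span_singleton, ← Ideal.Quotient.eq_zero_iff_mem, map_sub, map_pow, map_one,
      sub_eq_zero] at h3
    exact IsUnit.of_pow_eq_one h3 (orderOf_pos u).ne'
  · intro h
    obtain ⟨b, hb⟩ := h.exists_right_inv
    obtain ⟨g, rfl⟩ := Ideal.Quotient.mk_surjective b
    rw [← map_mul, ← map_one (Ideal.Quotient.mk _), ← sub_eq_zero, ← map_sub,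
      Ideal.Quotient.eq_zero_iff_mem, Ideal.mem_span_singleton] at hb
    have h1 : (X ^ n - 1 : K[X]) ∣ (poly n v * g - 1) ^ p ^ s := by
      rw [hfrob]
      exact pow_dvd_pow_of_dvd hb _
    obtain ⟨w, hw⟩ := h1
    have h2 := congrArg (aeval (shift n K)) hw
    rw [map_mul, map_sub, map_pow, map_pow, aeval_X, map_one, shift_pow_card, sub_self, zero_mul,
      map_sub, map_mul, aeval_poly, map_one] at h2
    have h3 : IsUnit (circulant v * aeval (shift n K) g) := by
      have h4 : IsNilpotent (circulant v * aeval (shift n K) g - 1) := ⟨_, h2⟩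
      have h5 := h4.isUnit_add_one
      simpa using h5
    rw [← Matrix.isUnit_iff_isUnit_det] 
    rw [Matrix.isUnit_iff_isUnit_det, det_mul] at h3
    rw [Matrix.isUnit_iff_isUnit_det]
    exact isUnit_of_mul_isUnit_left h3

end mat

section fib

/-- counting preimages under a surjective homomorphism -/
theorem card_preimage {A B : Type*} [AddCommGroup A] [AddCommGroup B] (φ : A →+ B)
    (hφ : Function.Surjective φ) (S : Set B) :
    Nat.card (φ ⁻¹' S) * Nat.card B = Nat.card S * Nat.card A := by
  obtain ⟨σ, hσ⟩ := hφ.hasRightInverse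
  let e : B × φ.ker ≃ A :=
    { toFun := fun x => σ x.1 + x.2
      invFun := fun a => (φ a, ⟨a - σ (φ a), by rw [AddMonoidHom.mem_ker, map_sub, hσ, sub_self]⟩)
      left_inv := by
        rintro ⟨b, k, hk⟩
        rw [AddMonoidHom.mem_ker] at hk
        have h1 : φ (σ b + k) = b := by rw [map_add, hσ, hk, add_zero]
        simp [h1]
      right_inv := by
        intro a
        simp }
  let e' : S × φ.ker ≃ φ ⁻¹' S :=
    { toFun := fun x => ⟨σ x.1 + x.2, by
        have h2 : φ x.2 = 0 := (AddMonoidHom.mem_ker).1 x.2.2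
        rw [Set.mem_preimage, map_add, hσ, h2, add_zero]
        exact x.1.2⟩
      invFun := fun a => (⟨φ a, a.2⟩, ⟨a - σ (φ a), by
        rw [AddMonoidHom.mem_ker, map_sub, hσ, sub_self]⟩)
      left_inv := by
        rintro ⟨⟨b, hb⟩, k, hk⟩
        rw [AddMonoidHom.mem_ker] at hk
        have h1 : φ (σ b + k) = b := by rw [map_add, hσ, hk, add_zero]
        simp [h1]
      right_inv := by
        intro a
        ext
        simp }
  rw [← Nat.card_congr e, ← Nat.card_congr e', Nat.card_prod, Nat.card_prod]
  ring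

end fib

section main

open Polynomial

variable {R : Type*} [CommRing R] [Finite R] [IsLocalRing R]

/-- the number of circulant matrices whose determinant is a unit -/
theorem card_unit_det (p f s m n : ℕ) [hp : Fact p.Prime] [NeZero n] (hn : n = p ^ s * m)
    (hm : ¬ p ∣ m) (hq : Nat.card (IsLocalRing.ResidueField R) = p ^ f) :
    Nat.card {v : ZMod n → R // IsUnit (circulant v).det} * (p ^ f) ^ m =
      Nat.card R ^ n * ∏ d ∈ m.divisors, ((p ^ f) ^ orderOf ((p ^ f : ℕ) : ZMod d) - 1) ^
        (d.totient / orderOf ((p ^ f : ℕ) : ZMod d)) := by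
  classical
  set K := IsLocalRing.ResidueField R with hKdef
  have hKfin : Finite K := Finite.of_surjective _ (IsLocalRing.residue_surjective (R := R))
  have : Fintype K := Fintype.ofFinite K
  have hKf : Fintype.card K = p ^ f := by rw [← hq, Nat.card_eq_fintype_card]
  have hchar := charP_of_card_eq_prime_pow hKf
  have hm0 : 0 < m := Nat.pos_of_ne_zero fun h => hm (h ▸ dvd_zero p)
  let B := K[X] ⧸ Ideal.span {(X ^ m - 1 : K[X])}
  let res : R →+* K := IsLocalRing.residue R
  have hadd : ∀ v w : ZMod n → R, poly n (fun i => res ((v + w) i)) =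
      poly n (fun i => res (v i)) + poly n (fun i => res (w i)) := by
    intro v w
    unfold poly
    rw [← Finset.sum_add_distrib]
    apply Finset.sum_congr rfl
    intro i _
    simp only [Pi.add_apply, map_add]
    ring
  let Θ : (ZMod n → R) →+ B := AddMonoidHom.mk'
    (fun v => Ideal.Quotient.mk _ (poly n (fun i => res (v i)))) (by
      intro v w
      rw [hadd, map_add])
  have hΘ : ∀ v, Θ v = Ideal.Quotient.mk _ (poly n (fun i => res (v i))) := fun _ => rfl
  have hmon : (X ^ m - 1 : K[X]).Monic := by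
    have := monic_X_pow_sub_C (1 : K) hm0.ne'
    simpa using this
  have hdegm : (X ^ m - 1 : K[X]).natDegree = m := by
    have := natDegree_X_pow_sub_C (R := K) (n := m) (r := 1)
    simpa using this
  have hmn : m ≤ n := by
    rw [hn]
    exact Nat.le_mul_of_pos_left _ (pow_pos hp.out.pos _)
  have hsurj : Function.Surjective Θ := by
    intro b
    obtain ⟨g, rfl⟩ := Ideal.Quotient.mk_surjective b
    have hres := IsLocalRing.residue_surjective (R := R)
    choose lift hlift using hres
    refine ⟨fun i => lift ((g %ₘ (X ^ m - 1)).coeff i.val), ?_⟩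
    rw [hΘ]
    have h1 : poly n (fun i : ZMod n => res (lift ((g %ₘ (X ^ m - 1)).coeff i.val))) =
        g %ₘ (X ^ m - 1) := by
      unfold poly
      have h2 : ∀ x, res (lift x) = x := hlift
      simp only [h2]
      rw [sum_zmod n (fun i => C ((g %ₘ (X ^ m - 1)).coeff i) * X ^ i)]
      have hdeg : (g %ₘ (X ^ m - 1)).natDegree < n := by
        have h3 := natDegree_modByMonic_lt g hmon (by
          intro h4
          have h5 := congrArg natDegree h4
          rw [hdegm, natDegree_one] at h5
          omega)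
        omega
      exact (as_sum_range_C_mul_X_pow' _ hdeg).symm
    rw [h1, Ideal.Quotient.eq, Ideal.mem_span_singleton]
    refine ⟨- (g /ₘ (X ^ m - 1)), ?_⟩
    have h2 := modByMonic_add_div g (X ^ m - 1 : K[X])
    linear_combination h2
  have hunit : ∀ v : ZMod n → R, IsUnit (circulant v).det ↔ IsUnit (Θ v) := by
    intro v
    rw [hΘ, ← det_iff n p s m hn, ← isUnit_map_iff res, RingHom.map_det, RingHom.mapMatrix_apply,
      map_circulant]
  have h1 := card_preimage Θ hsurj {b | IsUnit b}
  have hB : Nat.card B = (p ^ f) ^ m := by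
    have := card_quot (f := (X ^ m - 1 : K[X])) hmon.ne_zero
    rw [hdegm, hq] at this
    exact this
  have hBU : Nat.card ({b | IsUnit b} : Set B) = ∏ d ∈ m.divisors,
      ((p ^ f) ^ orderOf ((p ^ f : ℕ) : ZMod d) - 1) ^ (d.totient / orderOf ((p ^ f : ℕ) : ZMod d)) := by
    rw [← NU_X_pow_sub_one p f hq m hm]
    unfold NU
    refine Nat.card_congr ?_
    exact
      { toFun := fun b => b.2.unit
        invFun := fun u => ⟨u, u.isUnit⟩
        left_inv := fun b => by ext; rfl
        right_inv := fun u => by ext; rfl }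
  have h2 : Nat.card (Θ ⁻¹' {b | IsUnit b}) = Nat.card {v : ZMod n → R // IsUnit (circulant v).det} := by
    refine Nat.card_congr (Equiv.subtypeEquivRight ?_)
    intro v
    exact (hunit v).symm
  have h3 : Nat.card (ZMod n → R) = Nat.card R ^ n := by
    rw [Nat.card_fun, Nat.card_zmod]
  rw [h2, hB, hBU, h3] at h1
  rw [h1, mul_comm]

end main

end Cir
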