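import Pool.Agent.X254.Circ4

open Matrix

set_option linter.unusedSectionVars false

namespace Cir

section loc

open IsLocalRing

variable {R : Type*} [CommRing R] [Finite R] [IsLocalRing R]

theorem charP_residue (p f : ℕ) [hp : Fact p.Prime] (hq : Nat.card (ResidueField R) = p ^ f) :
    CharP (ResidueField R) p := by
  have hKfin : Finite (ResidueField R) := Finite.of_surjective _ (residue_surjective (R := R))
  have : Fintype (ResidueField R) := Fintype.ofFinite _
  have hKf : Fintype.card (ResidueField R) = p ^ f := by rw [← hq, Nat.card_eq_fintype_card]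
  exact charP_of_card_eq_prime_pow hKf

theorem isNilpotent_of_not_isUnit {x : R} (hx : ¬ IsUnit x) : IsNilpotent x :=
  Ring.KrullDimLE.isNilpotent_iff_mem_nonunits.2 hx

theorem nilp (p f : ℕ) [hp : Fact p.Prime] (hq : Nat.card (ResidueField R) = p ^ f) :
    IsNilpotent (p : R) := by
  have := charP_residue p f hq
  apply isNilpotent_of_not_isUnit
  intro h
  have h1 := h.map (residue R)
  rw [map_natCast, CharP.cast_eq_zero] at h1
  exact not_isUnit_zero h1

theorem unit_m (p f : ℕ) [hp : Fact p.Prime] (hq : Nat.card (ResidueField R) = p ^ f) (m : ℕ)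
    (hm : ¬ p ∣ m) : IsUnit (m : R) := by
  have := charP_residue p f hq
  rw [← isUnit_map_iff (residue R), map_natCast, isUnit_iff_ne_zero]
  intro h
  exact hm ((CharP.cast_eq_zero_iff _ p m).1 h)

theorem isDet_iff (p f s m n : ℕ) [hp : Fact p.Prime] [NeZero n] (hn : n = p ^ s * m)
    (hm : ¬ p ∣ m) (hq : Nat.card (ResidueField R) = p ^ f) {a : R} (ha : IsUnit a) :
    IsDet (ZMod n) a ↔ a ∈ G p R s := by
  constructor
  · rintro ⟨v, rfl⟩
    exact det_mem_G p s m hm (by rw [Nat.card_zmod, hn]) v
  · intro h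
    have h1 := isDet_of_mem_G p (nilp p f hq) s a h ha
    have : NeZero m := ⟨fun h => hm (h ▸ dvd_zero p)⟩
    subst hn
    exact isDet_coprime (p ^ s) m (unit_m p f hq m hm) h1

end loc

section fib2

variable {R : Type*} [CommRing R] [Finite R]

theorem fiber_le {n : ℕ} [NeZero n] {a b : R} (ha : IsUnit a) (hb : IsUnit b)
    (hA : IsDet (ZMod n) a) (hB : IsDet (ZMod n) b) :
    Nat.card {v : ZMod n → R // (circulant v).det = a} ≤
      Nat.card {v : ZMod n → R // (circulant v).det = b} := by
  obtain ⟨a', ha'⟩ := ha.exists_right_inv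
  have h1 : IsDet (ZMod n) (a' * b) := by
    apply IsDet.of_mul hA _ ha
    rwa [← mul_assoc, ha', one_mul]
  obtain ⟨w, hw⟩ := h1
  have hwu : IsUnit (circulant w).det := by
    rw [hw]
    exact (IsUnit.of_mul_eq_one a (by rw [mul_comm]; exact ha')).mul hb
  let F : {v : ZMod n → R // (circulant v).det = a} → {v : ZMod n → R // (circulant v).det = b} :=
    fun v => ⟨circulant w *ᵥ v.1, by
      rw [← circulant_mul, det_mul, hw, v.2]
      rw [mul_comm a' b, mul_assoc, mul_comm a' a, ha', mul_one]⟩
  apply Nat.card_le_card_of_injective F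
  intro v v' h
  have h2 : circulant w *ᵥ v.1 = circulant w *ᵥ v'.1 := congrArg Subtype.val h
  have h3 := congrArg (fun x => (circulant w)⁻¹ *ᵥ x) h2
  simp only [Matrix.mulVec_mulVec, Matrix.nonsing_inv_mul _ hwu, Matrix.one_mulVec] at h3
  exact Subtype.ext h3

theorem fiber_eq {n : ℕ} [NeZero n] {a b : R} (ha : IsUnit a) (hb : IsUnit b)
    (hA : IsDet (ZMod n) a) (hB : IsDet (ZMod n) b) :
    Nat.card {v : ZMod n → R // (circulant v).det = a} =
      Nat.card {v : ZMod n → R // (circulant v).det = b} :=
  le_antisymm (fiber_le ha hb hA hB) (fiber_le hb ha hB hA)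

theorem card_fibers {n : ℕ} [NeZero n] {a : R} (ha : IsUnit a) (hA : IsDet (ZMod n) a) :
    Nat.card {v : ZMod n → R // IsUnit (circulant v).det} =
      Nat.card {u : R // IsUnit u ∧ IsDet (ZMod n) u} *
        Nat.card {v : ZMod n → R // (circulant v).det = a} := by
  classical
  let F : {v : ZMod n → R // IsUnit (circulant v).det} → {u : R // IsUnit u ∧ IsDet (ZMod n) u} :=
    fun v => ⟨(circulant v.1).det, v.2, v.1, rfl⟩
  have : Fintype {u : R // IsUnit u ∧ IsDet (ZMod n) u} := Fintype.ofFinite _
  rw [← Nat.card_congr (Equiv.sigmaFiberEquiv F), Nat.card_sigma]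
  have h1 : ∀ u : {u : R // IsUnit u ∧ IsDet (ZMod n) u},
      Nat.card {v : {v : ZMod n → R // IsUnit (circulant v).det} // F v = u} =
        Nat.card {v : ZMod n → R // (circulant v).det = a} := by
    intro u
    rw [fiber_eq ha u.2.1 hA u.2.2]
    exact Nat.card_congr
      { toFun := fun v => ⟨v.1.1, congrArg Subtype.val v.2⟩
        invFun := fun v => ⟨⟨v.1, by rw [v.2]; exact u.2.1⟩, Subtype.ext v.2⟩
        left_inv := fun v => rfl
        right_inv := fun v => rfl }
  rw [Finset.sum_congr rfl (fun u _ => h1 u), Finset.sum_const, smul_eq_mul, Finset.card_univ,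
    ← Nat.card_eq_fintype_card]

end fib2

section loc2

open IsLocalRing

variable {R : Type*} [CommRing R] [Finite R] [IsLocalRing R]

/-- units of the Witt subring -/
theorem card_units_G (p f s : ℕ) [hp : Fact p.Prime] (hq : Nat.card (ResidueField R) = p ^ f) :
    Nat.card {u : R // IsUnit u ∧ u ∈ G p R s} * p ^ f = (p ^ f - 1) * Nat.card (G p R s) := by
  have hchar := charP_residue p f hq
  have hKfin : Finite (ResidueField R) := Finite.of_surjective _ (residue_surjective (R := R))
  let φ : G p R s →+ ResidueField R := ((residue R).comp (G p R s).subtype : _ →+* _)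
  have hφ : ∀ x, φ x = residue R x := fun _ => rfl
  have hsurj : Function.Surjective φ := by
    intro y
    have hinj : Function.Injective (iterateFrobenius (ResidueField R) p s) :=
      (iterateFrobenius (ResidueField R) p s).injective
    obtain ⟨z, hz⟩ := Finite.surjective_of_injective hinj y
    obtain ⟨x, rfl⟩ := residue_surjective z
    refine ⟨⟨x ^ p ^ s, pow_mem_G p s x⟩, ?_⟩
    rw [hφ, map_pow, ← hz, iterateFrobenius_def]
  have h1 := card_preimage φ hsurj {y | y ≠ 0}
  have h2 : Nat.card (φ ⁻¹' {y | y ≠ 0}) = Nat.card {u : R // IsUnit u ∧ u ∈ G p R s} := by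
    refine Nat.card_congr
      { toFun := fun x => ⟨x.1.1, ?_, x.1.2⟩
        invFun := fun u => ⟨⟨u.1, u.2.2⟩, ?_⟩
        left_inv := fun x => rfl
        right_inv := fun u => rfl }
    · have h3 : φ x.1 ≠ 0 := x.2
      rw [hφ] at h3
      rw [← isUnit_map_iff (residue R)]
      exact isUnit_iff_ne_zero.2 h3
    · have h3 := u.2.1.map (residue R)
      exact isUnit_iff_ne_zero.1 h3
  have h3 : Nat.card ({y | y ≠ 0} : Set (ResidueField R)) = p ^ f - 1 := by
    rw [← hq, ← Nat.card_units]
    exact Nat.card_congr unitsEquivNeZero.symm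
  rw [h2, hq, h3] at h1
  exact h1

end loc2

end Cir
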