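import Pool.Agent.X254.Circ5

open Matrix

set_option linter.unusedSectionVars false

namespace Cir

section chain

theorem isLocal_of_chain {R : Type*} [CommRing R] [Nontrivial R]
    (h : ∀ I J : Ideal R, I ≤ J ∨ J ≤ I) : IsLocalRing R := by
  obtain ⟨M, hM⟩ := Ideal.exists_maximal R
  apply IsLocalRing.of_unique_max_ideal
  refine ⟨M, hM, ?_⟩
  intro N hN
  rcases h M N with h1 | h1
  · exact (hM.eq_of_le hN.ne_top h1).symm
  · exact hN.eq_of_le hM.ne_top h1

/-- first isomorphism theorem, counting form -/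
theorem card_hom {A B : Type*} [AddCommGroup A] [AddCommGroup B] (φ : A →+ B)
    (hφ : Function.Surjective φ) : Nat.card A = Nat.card φ.ker * Nat.card B := by
  have h1 := card_preimage φ hφ {0}
  have h2 : Nat.card (φ ⁻¹' {0}) = Nat.card φ.ker := rfl
  rw [h2] at h1
  rw [h1]
  simp

open IsLocalRing

variable {R : Type*} [CommRing R] [Finite R] [IsLocalRing R] {γ : R} {e : ℕ}
  (hγ : maximalIdeal R = Ideal.span {γ}) (he : γ ^ e = 0) (he' : ∀ j < e, γ ^ j ≠ 0)

include hγ he in
theorem exists_unit_mul (x : R) : ∃ j ≤ e, ∃ u : R, IsUnit u ∧ x = γ ^ j * u := by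
  classical
  let P : ℕ → Prop := fun j => γ ^ j ∣ x
  have h0 : P 0 := by simp [P]
  have hspec : P (Nat.findGreatest P e) := Nat.findGreatest_spec (Nat.zero_le e) h0
  have hle : Nat.findGreatest P e ≤ e := Nat.findGreatest_le e
  obtain ⟨y, hy⟩ := hspec
  by_cases hlt : Nat.findGreatest P e = e
  · refine ⟨e, le_rfl, 1, isUnit_one, ?_⟩
    rw [hy, hlt, he]
    simp
  · refine ⟨_, hle, y, ?_, hy⟩
    by_contra hu
    have h1 : y ∈ maximalIdeal R := (mem_maximalIdeal y).2 hu
    rw [hγ, Ideal.mem_span_singleton] at h1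
    obtain ⟨z, rfl⟩ := h1
    have h2 : P (Nat.findGreatest P e + 1) := ⟨z, by rw [hy]; ring⟩
    have h3 := Nat.le_findGreatest (show Nat.findGreatest P e + 1 ≤ e by omega) h2
    omega

include hγ he he' in
theorem pow_mul_eq_zero_iff {i : ℕ} {x : R} (hi : i ≤ e) :
    γ ^ i * x = 0 ↔ γ ^ (e - i) ∣ x := by
  constructor
  · intro h
    obtain ⟨j, hj, u, hu, rfl⟩ := exists_unit_mul hγ he x
    rw [← mul_assoc, ← pow_add] at h
    have h1 : γ ^ (i + j) = 0 := by
      have := hu.mul_left_eq_zero.1 h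
      exact this
    have h2 : e ≤ i + j := by
      by_contra hlt
      exact he' _ (by omega) h1
    exact (pow_dvd_pow γ (by omega)).mul_right u
  · rintro ⟨y, rfl⟩
    rw [← mul_assoc, ← pow_add, Nat.add_sub_cancel' hi, he, zero_mul]

include hγ he he' in
theorem pow_dvd_iff {i j : ℕ} {u : R} (hu : IsUnit u) (hi : i ≤ e) (hj : j ≤ e) :
    γ ^ i ∣ γ ^ j * u ↔ i ≤ j := by
  constructor
  · intro h
    have h1 : γ ^ i ∣ γ ^ j := by
      obtain ⟨w, rfl⟩ := hu
      exact (Units.dvd_mul_right).1 h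
    by_contra hlt
    obtain ⟨y, hy⟩ := h1
    have h2 : γ ^ (e - i) * γ ^ j = 0 := by
      rw [hy, ← mul_assoc, ← pow_add, Nat.sub_add_cancel hi, he, zero_mul]
    rw [← pow_add] at h2
    exact he' _ (by omega) h2
  · intro h
    exact (pow_dvd_pow γ h).mul_right u

variable (q : ℕ) (hq : Nat.card (ResidueField R) = q)

include hγ hq in
theorem card_quot_max : Nat.card R = Nat.card (Ideal.span {γ ^ 1}) * q := by
  have h1 := card_hom ((residue R : R →+* ResidueField R) : R →+ ResidueField R) residue_surjective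
  rw [hq] at h1
  rw [h1]
  congr 1
  apply Nat.card_congr
  refine Equiv.subtypeEquivRight ?_
  intro x
  rw [pow_one, ← hγ, AddMonoidHom.mem_ker]
  exact residue_eq_zero_iff x

include hγ he he' in
theorem card_step {j : ℕ} (hj : j < e) : Nat.card (Ideal.span {γ ^ j}) =
    Nat.card (Ideal.span {γ ^ (e - 1)}) * Nat.card (Ideal.span {γ ^ (j + 1)}) := by
  let φ : Ideal.span {γ ^ j} →+ Ideal.span {γ ^ (j + 1)} := AddMonoidHom.mk'
    (fun x => ⟨γ * x.1, by
      have h1 := x.2
      rw [Ideal.mem_span_singleton] at h1 ⊢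
      rw [pow_succ']
      exact mul_dvd_mul_left _ h1⟩) (by
      intro x y
      ext
      simp [mul_add])
  have hφ : Function.Surjective φ := by
    rintro ⟨y, hy⟩
    rw [Ideal.mem_span_singleton] at hy
    obtain ⟨z, rfl⟩ := hy
    refine ⟨⟨γ ^ j * z, Ideal.mem_span_singleton.2 (dvd_mul_right _ _)⟩, ?_⟩
    apply Subtype.ext
    change γ * (γ ^ j * z) = γ ^ (j + 1) * z
    ring
  rw [card_hom φ hφ]
  congr 1
  have hlt : ∀ x : Ideal.span {γ ^ j}, x ∈ φ.ker ↔ γ ^ (e - 1) ∣ x.1 := by
    intro x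
    rw [AddMonoidHom.mem_ker, ← pow_mul_eq_zero_iff hγ he he' (i := 1) (by omega), pow_one]
    exact Subtype.ext_iff
  exact Nat.card_congr
    { toFun := fun x => ⟨x.1.1, Ideal.mem_span_singleton.2 ((hlt _).1 x.2)⟩
      invFun := fun x => ⟨⟨x.1, Ideal.mem_span_singleton.2
        ((pow_dvd_pow γ (by omega)).trans (Ideal.mem_span_singleton.1 x.2))⟩,
        (hlt _).2 (Ideal.mem_span_singleton.1 x.2)⟩
      left_inv := fun x => rfl
      right_inv := fun x => rfl }

include hγ he he' hq in
theorem card_span {j : ℕ} (hj : j ≤ e) : Nat.card (Ideal.span {γ ^ j}) = q ^ (e - j) := by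
  have he1 : 1 ≤ e := by
    by_contra h
    have h1 : e = 0 := by omega
    rw [h1, pow_zero] at he
    exact one_ne_zero he
  have hpos : 0 < Nat.card (Ideal.span {γ ^ 1}) := Nat.card_pos
  have hsoc : Nat.card (Ideal.span {γ ^ (e - 1)}) = q := by
    have h1 := card_step hγ he he' (j := 0) he1
    have h2 := card_quot_max hγ q hq
    have h3 : Nat.card (Ideal.span {γ ^ 0}) = Nat.card R := by
      rw [pow_zero, Ideal.span_singleton_one]
      exact Nat.card_congr (Equiv.subtypeUnivEquiv fun x => trivial)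
    rw [h3, h2, zero_add, mul_comm] at h1
    exact (Nat.eq_of_mul_eq_mul_right hpos h1).symm
  obtain ⟨d, hd⟩ : ∃ d, e = j + d := ⟨e - j, by omega⟩
  induction d generalizing j with
  | zero =>
    have h1 : j = e := by omega
    rw [h1, he, Nat.sub_self, pow_zero, Ideal.span_singleton_zero]
    exact Nat.card_unique
  | succ d ih =>
    rw [card_step hγ he he' (show j < e by omega), hsoc, ih (j := j + 1) (by omega) (by omega),
      ← pow_succ']
    congr 1
    omega

include hγ he he' hq in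
theorem card_R : Nat.card R = q ^ e := by
  have h1 := card_span hγ he he' q hq (j := 0) (Nat.zero_le _)
  rw [pow_zero, Ideal.span_singleton_one, Nat.sub_zero] at h1
  rw [← h1]
  exact (Nat.card_congr (Equiv.subtypeUnivEquiv fun x => trivial)).symm

end chain

end Cir
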