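import Pool.Agent.X254.Circ6

open Matrix

set_option linter.unusedSectionVars false
set_option linter.unusedVariables false

namespace Cir

section sizes

open IsLocalRing

variable {R : Type*} [CommRing R] [Finite R] [IsLocalRing R] {γ : R} {e : ℕ}
  (hγ : maximalIdeal R = Ideal.span {γ}) (he : γ ^ e = 0) (he' : ∀ j < e, γ ^ j ≠ 0)
  (p f : ℕ) [hp : Fact p.Prime] (hq : Nat.card (ResidueField R) = p ^ f)

theorem ceil_iff {e N j : ℕ} (hN : 0 < N) : (e + N - 1) / N ≤ j ↔ e ≤ j * N := by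
  rw [← Nat.lt_succ_iff, Nat.div_lt_iff_lt_mul hN, Nat.succ_mul]
  omega

theorem ceil_le {e N : ℕ} (hN : 0 < N) : (e + N - 1) / N ≤ e := by
  rw [ceil_iff hN]
  exact Nat.le_mul_of_pos_right _ hN

include hγ he he' in
theorem pow_mem_iff {i N : ℕ} (hN : 0 < N) (hi : i ≤ e) (x : R) :
    γ ^ i ∣ x ^ N ↔ γ ^ ((i + N - 1) / N) ∣ x := by
  have hc : (i + N - 1) / N ≤ i := ceil_le hN
  obtain ⟨j, hj, u, hu, rfl⟩ := exists_unit_mul hγ he x
  rw [pow_dvd_iff hγ he he' hu (by omega) hj, mul_pow, ← pow_mul, ceil_iff hN]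
  by_cases hjN : j * N ≤ e
  · rw [pow_dvd_iff hγ he he' (hu.pow N) hi hjN]
  · have h1 : γ ^ (j * N) = 0 := by
      rw [show j * N = e + (j * N - e) by omega, pow_add, he, zero_mul]
    rw [h1, zero_mul]
    simp only [dvd_zero, true_iff]
    omega

include hγ he he' hq in
theorem card_G_char (s : ℕ) (hp0 : (p : R) = 0) :
    Nat.card (G p R s) = (p ^ f) ^ ((e + p ^ s - 1) / p ^ s) := by
  have hchar : CharP R p := (CharP.charP_iff_prime_eq_zero hp.out).2 hp0
  have hN : 0 < p ^ s := pow_pos hp.out.pos s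
  let φ : R →+ G p R s := AddMonoidHom.mk' (fun x => ⟨x ^ p ^ s, pow_mem_G p s x⟩) (by
    intro x y
    apply Subtype.ext
    exact add_pow_char_pow x y p s)
  have hφ : Function.Surjective φ := by
    rintro ⟨a, ha⟩
    obtain _ | s := s
    · exact ⟨a, Subtype.ext (by change a ^ p ^ 0 = a; simp)⟩
    · obtain ⟨x, y, hy, hxy⟩ := exists_of_mem_succ p ha
      exact ⟨x, Subtype.ext (by
        change x ^ p ^ (s + 1) = a
        rw [hxy, hp0, zero_mul, add_zero])⟩
  have h1 := card_hom φ hφ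
  have hc : (e + p ^ s - 1) / p ^ s ≤ e := ceil_le hN
  have hker : Nat.card φ.ker = Nat.card (Ideal.span {γ ^ ((e + p ^ s - 1) / p ^ s)}) := by
    refine Nat.card_congr (Equiv.subtypeEquivRight ?_)
    intro x
    rw [AddMonoidHom.mem_ker, Ideal.mem_span_singleton, ← pow_mem_iff hγ he he' hN le_rfl, he,
      zero_dvd_iff]
    exact Subtype.ext_iff
  rw [hker, card_span hγ he he' _ hq hc, card_R hγ he he' _ hq] at h1
  have h2 : (p ^ f) ^ e = (p ^ f) ^ (e - (e + p ^ s - 1) / p ^ s) *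
      (p ^ f) ^ ((e + p ^ s - 1) / p ^ s) := by
    rw [← pow_add, Nat.sub_add_cancel hc]
  rw [h2] at h1
  exact (Nat.eq_of_mul_eq_mul_left (pow_pos (pow_pos hp.out.pos _) _) h1).symm

include hγ he he' hq in
theorem card_G_one (k : ℕ) (hk : k ≤ e) (hpk : Ideal.span {(p : R)} = Ideal.span {γ ^ k}) :
    Nat.card (G p R 1) = (p ^ f) ^ (e - k + (k + p - 1) / p) := by
  have hnil := nilp p f hq
  have hpm : (p : R) ∈ Ideal.span {γ ^ k} := hpk ▸ Ideal.mem_span_singleton_self _
  have hk0 : k ≠ 0 := by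
    rintro rfl
    rw [pow_zero, Ideal.span_singleton_one] at hpk
    have h1 := Ideal.span_singleton_eq_top.1 hpk
    exact (hnil.not_isUnit) h1
  let N : Ideal R := Ideal.span {γ ^ k}
  have hNtop : N ≠ ⊤ := by
    intro h
    have h1 : N ≤ maximalIdeal R := by
      rw [hγ, Ideal.span_singleton_le_span_singleton]
      exact dvd_pow_self _ hk0
    exact (maximalIdeal.isMaximal R).ne_top (top_le_iff.1 (h ▸ h1))
  have : Nontrivial (R ⧸ N) := Ideal.Quotient.nontrivial_iff.2 hNtop
  have hp0 : ((p : ℕ) : R ⧸ N) = 0 := by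
    rw [← map_natCast (Ideal.Quotient.mk N), Ideal.Quotient.eq_zero_iff_mem]
    exact hpm
  have hchar : CharP (R ⧸ N) p := (CharP.charP_iff_prime_eq_zero hp.out).2 hp0
  let θ : R →+* R ⧸ N := (frobenius (R ⧸ N) p).comp (Ideal.Quotient.mk N)
  have hθ : ∀ x, θ x = Ideal.Quotient.mk N x ^ p := fun x => rfl
  let H : AddSubgroup (R ⧸ N) := (θ : R →+ R ⧸ N).range
  have hc : (k + p - 1) / p ≤ k := ceil_le hp.out.pos
  have h1 := card_hom ((θ : R →+ R ⧸ N).rangeRestrict) (AddMonoidHom.rangeRestrict_surjective _)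
  have hker : Nat.card ((θ : R →+ R ⧸ N).rangeRestrict).ker =
      Nat.card (Ideal.span {γ ^ ((k + p - 1) / p)}) := by
    refine Nat.card_congr (Equiv.subtypeEquivRight ?_)
    intro x
    rw [AddMonoidHom.ker_rangeRestrict, AddMonoidHom.mem_ker, Ideal.mem_span_singleton,
      ← pow_mem_iff hγ he he' hp.out.pos hk, ← Ideal.mem_span_singleton]
    change θ x = 0 ↔ _
    rw [hθ, ← map_pow, Ideal.Quotient.eq_zero_iff_mem]
  rw [hker, card_span hγ he he' _ hq (hc.trans hk), card_R hγ he he' _ hq] at h1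
  let ψ : G p R 1 →+ H := AddMonoidHom.mk' (fun a => ⟨Ideal.Quotient.mk N a.1, by
      obtain ⟨x, y, hy, hxy⟩ := exists_of_mem_succ p a.2
      refine ⟨x, ?_⟩
      change θ x = _
      rw [hθ, hxy, map_add, map_mul, map_natCast, hp0, zero_mul, add_zero, map_pow]
      simp⟩) (by
      intro x y
      apply Subtype.ext
      exact map_add _ _ _)
  have hψ : Function.Surjective ψ := by
    rintro ⟨_, ⟨x, rfl⟩⟩
    refine ⟨⟨x ^ p ^ 1, pow_mem_G p 1 x⟩, ?_⟩
    apply Subtype.ext
    change Ideal.Quotient.mk N (x ^ p ^ 1) = θ x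
    rw [hθ, map_pow, pow_one]
  have h2 := card_hom ψ hψ
  have hNG : ∀ a ∈ N, a ∈ G p R 1 := by
    intro a ha
    have ha' : a ∈ Ideal.span {(p : R)} := hpk ▸ ha
    obtain ⟨y, rfl⟩ := Ideal.mem_span_singleton.1 ha'
    exact p_mul_mem p (mem_G_zero p y)
  have hkerψ : Nat.card ψ.ker = Nat.card (Ideal.span {γ ^ k}) := by
    have h3 : ∀ a : G p R 1, a ∈ ψ.ker ↔ a.1 ∈ N := by
      intro a
      rw [AddMonoidHom.mem_ker, ← Ideal.Quotient.eq_zero_iff_mem]
      exact Subtype.ext_iff
    exact Nat.card_congr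
      { toFun := fun a => ⟨a.1.1, (h3 _).1 a.2⟩
        invFun := fun a => ⟨⟨a.1, hNG _ a.2⟩, (h3 _).2 a.2⟩
        left_inv := fun a => rfl
        right_inv := fun a => rfl }
  rw [hkerψ, card_span hγ he he' _ hq hk] at h2
  have h4 : (p ^ f) ^ e = (p ^ f) ^ (e - (k + p - 1) / p) * (p ^ f) ^ ((k + p - 1) / p) := by
    rw [← pow_add, Nat.sub_add_cancel (hc.trans hk)]
  rw [h4] at h1
  have h5 : Nat.card H = (p ^ f) ^ ((k + p - 1) / p) :=
    (Nat.eq_of_mul_eq_mul_left (pow_pos (pow_pos hp.out.pos _) _) h1).symm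
  rw [h2, h5, ← pow_add]

include hγ hq in
theorem G_eq_top (hpk : Ideal.span {(p : R)} = Ideal.span {γ}) (s : ℕ) (x : R) : x ∈ G p R s := by
  have hchar := charP_residue p f hq
  have hKfin : Finite (ResidueField R) := Finite.of_surjective _ (residue_surjective (R := R))
  induction s generalizing x with
  | zero => exact mem_G_zero p x
  | succ s ih =>
    have hinj : Function.Injective (iterateFrobenius (ResidueField R) p (s + 1)) :=
      (iterateFrobenius (ResidueField R) p (s + 1)).injective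
    obtain ⟨z, hz⟩ := Finite.surjective_of_injective hinj (residue R x)
    obtain ⟨y, rfl⟩ := residue_surjective z
    rw [iterateFrobenius_def, ← map_pow, ← sub_eq_zero, ← map_sub, residue_eq_zero_iff, hγ, ← hpk,
      Ideal.mem_span_singleton] at hz
    obtain ⟨w, hw⟩ := hz
    have h1 : x = y ^ p ^ (s + 1) + p * (-w) := by linear_combination -hw
    rw [h1]
    exact add_mem (pow_mem_G p _ y) (p_mul_mem p (ih _))

include hγ he he' hq in
theorem all_units_iff (s : ℕ) : (∀ a : R, IsUnit a → a ∈ G p R s) ↔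
    s = 0 ∨ Ideal.span {(p : R)} = Ideal.span {γ} := by
  constructor
  · intro h
    by_contra hcon
    push Not at hcon
    obtain ⟨hs, hne⟩ := hcon
    have hγn : IsNilpotent γ := ⟨e, he⟩
    have h1 : γ ∈ G p R s := by
      have h2 := sub_mem (h (γ + 1) hγn.isUnit_add_one) (h 1 isUnit_one)
      simpa using h2
    have h3 : γ ∈ G p R (0 + 1) := G_mono p (by omega) h1
    obtain ⟨x, y, hy, hxy⟩ := exists_of_mem_succ p h3
    have hnil := nilp p f hq
    obtain ⟨j, hj, u, hu, hpj⟩ := exists_unit_mul hγ he (p : R)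
    have hp2 : γ ^ 2 ∣ (p : R) := by
      have hj2 : 2 ≤ j := by
        by_contra hlt
        have hj01 : j = 0 ∨ j = 1 := by omega
        rcases hj01 with rfl | rfl
        · rw [pow_zero, one_mul] at hpj
          rw [hpj] at hnil
          exact hnil.not_isUnit hu
        · apply hne
          rw [hpj, pow_one]
          exact Ideal.span_singleton_mul_right_unit hu γ
      rw [hpj]
      exact (pow_dvd_pow γ hj2).mul_right u
    have hx : γ ∣ x := by
      rw [← Ideal.mem_span_singleton, ← hγ, mem_maximalIdeal]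
      intro hxu
      have h5 : IsUnit (x ^ p ^ (0 + 1)) := hxu.pow _
      have h6 := isUnit_add_p p hnil h5 y
      rw [← hxy] at h6
      exact hγn.not_isUnit h6
    have hx2 : γ ^ 2 ∣ x ^ p ^ (0 + 1) := by
      have h5 : 2 ≤ p ^ (0 + 1) := by
        rw [zero_add, pow_one]
        exact hp.out.two_le
      exact (pow_dvd_pow_of_dvd hx 2).trans (pow_dvd_pow x h5)
    have h7 : γ ^ 2 ∣ γ := by
      have h8 := dvd_add hx2 (hp2.mul_right y)
      rwa [← hxy] at h8
    obtain ⟨w, hw⟩ := h7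
    have h9 : γ * (1 - γ * w) = 0 := by linear_combination hw
    have h10 : IsUnit (1 - γ * w) :=
      ((Commute.all γ w).isNilpotent_mul_right hγn).isUnit_one_sub
    have h11 : γ = 0 := h10.mul_left_eq_zero.1 h9
    apply hne
    have h12 : (p : R) = 0 := by
      rw [h11] at hp2
      simpa using hp2
    rw [h12, h11]
  · rintro (rfl | h) a _
    · exact mem_G_zero p a
    · exact G_eq_top hγ p f hq h s a

end sizes

section formula

open IsLocalRing

variable {R : Type*} [CommRing R] [Finite R] [IsLocalRing R]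

/-- the counting formula -/
theorem count_formula (p f s m n : ℕ) [hp : Fact p.Prime] [NeZero n] (hn : n = p ^ s * m)
    (hm : ¬ p ∣ m) (hq : Nat.card (ResidueField R) = p ^ f) {a : R} (ha : IsUnit a)
    (haG : a ∈ G p R s) :
    (Nat.card {v : ZMod n → R // (circulant v).det = a} : ℚ) =
      (Nat.card R : ℚ) ^ n / Nat.card (G p R s) * ∏ d ∈ m.divisors.erase 1,
        (1 - 1 / ((p ^ f : ℕ) : ℚ) ^ orderOf ((p ^ f : ℕ) : ZMod d)) ^
          (d.totient / orderOf ((p ^ f : ℕ) : ZMod d)) := by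
  have hA : IsDet (ZMod n) a := (isDet_iff p f s m n hn hm hq ha).2 haG
  have h1 := card_fibers ha hA
  have h2 := card_unit_det p f s m n hn hm hq
  have h3 := card_units_G (R := R) p f s hq
  have h4 : Nat.card {u : R // IsUnit u ∧ IsDet (ZMod n) u} =
      Nat.card {u : R // IsUnit u ∧ u ∈ G p R s} := by
    refine Nat.card_congr (Equiv.subtypeEquivRight ?_)
    intro u
    constructor
    · rintro ⟨hu, h⟩
      exact ⟨hu, (isDet_iff p f s m n hn hm hq hu).1 h⟩
    · rintro ⟨hu, h⟩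
      exact ⟨hu, (isDet_iff p f s m n hn hm hq hu).2 h⟩
  rw [h4] at h1
  rw [h1] at h2
  set c := Nat.card {v : ZMod n → R // (circulant v).det = a} with hc
  set U := Nat.card {u : R // IsUnit u ∧ u ∈ G p R s} with hU
  set g := Nat.card (G p R s) with hg
  have hm0 : m ≠ 0 := fun h => hm (h ▸ dvd_zero p)
  have hfin : Finite (ResidueField R) := Finite.of_surjective _ (residue_surjective (R := R))
  have hq1 : 1 < p ^ f := by
    rw [← hq]
    exact Finite.one_lt_card
  have hqQ : (1 : ℚ) < ((p ^ f : ℕ) : ℚ) := by exact_mod_cast hq1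
  set q : ℕ := p ^ f with hqdef
  have hterm : ∀ d ∈ m.divisors, ((q ^ orderOf ((q : ℕ) : ZMod d) - 1 : ℕ) : ℚ) ^
      (d.totient / orderOf ((q : ℕ) : ZMod d)) = (q : ℚ) ^ d.totient *
        (1 - 1 / (q : ℚ) ^ orderOf ((q : ℕ) : ZMod d)) ^
          (d.totient / orderOf ((q : ℕ) : ZMod d)) := by
    intro d hd
    have hdm := Nat.dvd_of_mem_divisors hd
    have hpd : p.Coprime d := hp.out.coprime_iff_not_dvd.2 fun h => hm (h.trans hdm)
    have hqd : q.Coprime d := hpd.pow_left f
    have hd0 : NeZero d := ⟨fun h => by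
      rw [h] at hdm
      exact hm0 (zero_dvd_iff.1 hdm)⟩
    have hdvd : orderOf ((q : ℕ) : ZMod d) ∣ d.totient := by
      have h5 : orderOf (ZMod.unitOfCoprime q hqd) = orderOf ((q : ℕ) : ZMod d) := by
        rw [← orderOf_units, ZMod.coe_unitOfCoprime]
      rw [← h5, ← ZMod.card_units_eq_totient]
      exact orderOf_dvd_card
    obtain ⟨k, hk⟩ := hdvd
    have hopos : 0 < orderOf ((q : ℕ) : ZMod d) := by
      rcases Nat.eq_zero_or_pos (orderOf ((q : ℕ) : ZMod d)) with h0 | h0
      · rw [h0, zero_mul] at hk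
        have := Nat.totient_pos.2 (Nat.pos_of_ne_zero hd0.out)
        omega
      · exact h0
    have hk' : d.totient / orderOf ((q : ℕ) : ZMod d) = k := by
      rw [hk, Nat.mul_div_cancel_left _ hopos]
    rw [hk']
    rw [Nat.cast_sub (Nat.one_le_pow _ _ (by omega)), hk, pow_mul, ← mul_pow]
    congr 1
    have h6 : (q : ℚ) ^ orderOf ((q : ℕ) : ZMod d) ≠ 0 := pow_ne_zero _ (by linarith)
    push_cast
    field_simp
  have h2' := congrArg (Nat.cast : ℕ → ℚ) h2
  push_cast [Finset.prod_congr rfl hterm] at h2'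
  rw [Finset.prod_mul_distrib, Finset.prod_pow_eq_pow_sum,
    Nat.sum_totient, ← Finset.mul_prod_erase _ _ (Nat.one_mem_divisors.2 hm0)] at h2'
  have h3' : (U : ℚ) * q = (q - 1) * g := by
    have h7 := congrArg (Nat.cast : ℕ → ℚ) h3
    rw [Nat.cast_mul, Nat.cast_mul, Nat.cast_sub hq1.le] at h7
    exact_mod_cast h7
  have hgpos : (0 : ℚ) < g := by
    have : 0 < g := Nat.card_pos
    exact_mod_cast this
  have hord1 : orderOf ((q : ℕ) : ZMod 1) = 1 := by
    rw [orderOf_eq_one_iff]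
    exact Subsingleton.elim _ _
  have htot : Nat.totient 1 / 1 = 1 := by simp
  rw [hord1, htot, pow_one, pow_one] at h2'
  set PP := ∏ d ∈ m.divisors.erase 1,
        (1 - 1 / (q : ℚ) ^ orderOf ((q : ℕ) : ZMod d)) ^
          (d.totient / orderOf ((q : ℕ) : ZMod d)) with hPP
  have hq0 : (q : ℚ) ≠ 0 := by linarith
  have hqm : (q : ℚ) ^ m ≠ 0 := pow_ne_zero _ hq0
  have hq1' : (q : ℚ) - 1 ≠ 0 := by linarith
  have hfin2 : (U : ℚ) * c = (Nat.card R : ℚ) ^ n * ((1 - 1 / (q : ℚ)) * PP) := by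
    apply mul_right_cancel₀ hqm
    linear_combination h2'
  have hUq : (U : ℚ) = (1 - 1 / (q : ℚ)) * g := by
    field_simp
    linear_combination h3'
  rw [hUq] at hfin2
  have hne : (1 - 1 / (q : ℚ)) ≠ 0 := by
    field_simp
    exact div_ne_zero hq1' hq0
  rw [div_mul_eq_mul_div, eq_div_iff hgpos.ne']
  apply mul_left_cancel₀ hne
  linear_combination hfin2

end formula

end Cir
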