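import Pool.Agent.X254.Circ7

set_option linter.unusedSectionVars false
set_option linter.unusedVariables false

namespace Cir

section teich

open IsLocalRing

variable {R : Type*} [CommRing R] [Finite R] [IsLocalRing R] {γ : R} {e : ℕ}
  (hγ : maximalIdeal R = Ideal.span {γ}) (he : γ ^ e = 0) (he' : ∀ j < e, γ ^ j ≠ 0)
  (p f : ℕ) [hp : Fact p.Prime] (hq : Nat.card (ResidueField R) = p ^ f)

include hγ he he' hq in
theorem unit_pow_teich {x : R} (hx : IsUnit x) :
    (x ^ (p ^ f) ^ (e - 1)) ^ (p ^ f) = x ^ (p ^ f) ^ (e - 1) := by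
  have he1 : 1 ≤ e := by
    by_contra h
    have h1 : e = 0 := by omega
    rw [h1, pow_zero] at he
    exact one_ne_zero he
  obtain ⟨u, rfl⟩ := hx
  have h1 := card_units_G (R := R) p f 0 hq
  have h2 : Nat.card {u : R // IsUnit u ∧ u ∈ G p R 0} = Nat.card Rˣ := by
    refine Nat.card_congr
      { toFun := fun x => x.2.1.unit
        invFun := fun u => ⟨u, u.isUnit, mem_G_zero p _⟩
        left_inv := fun x => by ext; rfl
        right_inv := fun u => by ext; rfl }
  have h3 : Nat.card (G p R 0) = Nat.card R :=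
    Nat.card_congr (Equiv.subtypeUnivEquiv fun x => mem_G_zero p x)
  have hpos : 0 < p ^ f := pow_pos hp.out.pos _
  have h4 : Nat.card Rˣ = (p ^ f) ^ (e - 1) * (p ^ f - 1) := by
    rw [h2, h3, card_R hγ he he' _ hq] at h1
    have h5 : (p ^ f) ^ e = (p ^ f) ^ (e - 1) * p ^ f := by
      rw [← pow_succ, Nat.sub_add_cancel he1]
    rw [h5] at h1
    apply Nat.eq_of_mul_eq_mul_right hpos
    rw [h1]
    ring
  have h6 : u ^ ((p ^ f) ^ (e - 1) * (p ^ f - 1)) = 1 := by
    rw [← h4]
    exact pow_card_eq_one'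
  have h7 : (u : R) ^ ((p ^ f) ^ (e - 1) * (p ^ f - 1)) = 1 := by
    rw [← Units.val_pow_eq_pow_val, h6, Units.val_one]
  have h8 : (p ^ f) ^ (e - 1) * p ^ f = (p ^ f) ^ (e - 1) * (p ^ f - 1) + (p ^ f) ^ (e - 1) := by
    obtain ⟨q', hq'⟩ : ∃ q', p ^ f = q' + 1 := ⟨p ^ f - 1, by omega⟩
    rw [hq', Nat.add_sub_cancel]
    ring
  rw [← pow_mul, h8, pow_add, h7, one_mul]

theorem residue_pow (N : ℕ) (x : ResidueField R) (hq : Nat.card (ResidueField R) = p ^ f) :
    x ^ (p ^ f) ^ N = x := by
  have hfin : Finite (ResidueField R) := Finite.of_surjective _ (residue_surjective (R := R))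
  have : Fintype (ResidueField R) := Fintype.ofFinite _
  rw [← hq, Nat.card_eq_fintype_card]
  exact FiniteField.pow_card_pow N x

include hγ he he' hq in
theorem exists_teich (x : R) : ∃ τ : R, τ ^ (p ^ f) = τ ∧ residue R τ = residue R x := by
  by_cases hx : IsUnit x
  · refine ⟨_, unit_pow_teich hγ he he' p f hq hx, ?_⟩
    rw [map_pow]
    exact residue_pow p f _ _ hq
  · refine ⟨0, zero_pow (pow_pos hp.out.pos _).ne', ?_⟩
    rw [map_zero]
    exact ((residue_eq_zero_iff x).2 ((mem_maximalIdeal x).2 hx)).symm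

include hq in
theorem teich_inj {x y : R} (hx : x ^ (p ^ f) = x) (hy : y ^ (p ^ f) = y)
    (h : residue R x = residue R y) : x = y := by
  have hchar := charP_residue p f hq
  have hfin : Finite (ResidueField R) := Finite.of_surjective _ (residue_surjective (R := R))
  set w := ∑ i ∈ Finset.range (p ^ f), x ^ i * y ^ (p ^ f - 1 - i) with hw
  have h1 : w * (x - y) = x - y := by
    have := (Commute.all x y).geom_sum₂_mul (p ^ f)
    rw [hx, hy] at this
    exact this
  have h2 : residue R w = 0 := by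
    rw [hw, map_sum]
    have h3 : ∀ i ∈ Finset.range (p ^ f), residue R (x ^ i * y ^ (p ^ f - 1 - i)) =
        residue R y ^ (p ^ f - 1) := by
      intro i hi
      rw [Finset.mem_range] at hi
      rw [map_mul, map_pow, map_pow, h, ← pow_add]
      congr 1
      omega
    have hf0 : f ≠ 0 := by
      rintro rfl
      rw [pow_zero] at hq
      have := Finite.one_lt_card (α := ResidueField R)
      omega
    rw [Finset.sum_congr rfl h3, Finset.sum_const, Finset.card_range, nsmul_eq_mul, Nat.cast_pow,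
      CharP.cast_eq_zero, zero_pow hf0, zero_mul]
  have h4 : IsUnit (1 - w) := by
    rw [← isUnit_map_iff (residue R), map_sub, map_one, h2, sub_zero]
    exact isUnit_one
  have h5 : (1 - w) * (x - y) = 0 := by rw [sub_mul, one_mul, h1, sub_self]
  exact sub_eq_zero.1 (h4.mul_right_eq_zero.1 h5)

theorem teich_pow {x : R} (hx : x ^ (p ^ f) = x) (N : ℕ) : x ^ (p ^ f) ^ N = x := by
  induction N with
  | zero => simp
  | succ N ih => rw [pow_succ, pow_mul, ih, hx]

include hq in
theorem teich_root {x : R} (hx : x ^ (p ^ f) = x) (N : ℕ) :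
    ∃ y : R, y ^ (p ^ f) = y ∧ y ^ p ^ N = x := by
  have hfin : Finite (ResidueField R) := Finite.of_surjective _ (residue_surjective (R := R))
  have hf0 : f ≠ 0 := by
    rintro rfl
    rw [pow_zero] at hq
    have := Finite.one_lt_card (α := ResidueField R)
    omega
  refine ⟨x ^ p ^ ((f - 1) * N), ?_, ?_⟩
  · rw [← pow_mul, mul_comm, pow_mul, hx]
  · rw [← pow_mul, ← pow_add]
    have h1 : (f - 1) * N + N = f * N := by
      obtain ⟨g, rfl⟩ := Nat.exists_eq_succ_of_ne_zero hf0
      simp only [Nat.succ_eq_add_one, Nat.add_sub_cancel]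
      ring
    rw [h1, pow_mul]
    exact teich_pow p f hx N

include hq in
theorem teich_mem_G {s i : ℕ} (hi : i ≤ s) {τ : R} (hτ : τ ^ (p ^ f) = τ) (l : ℕ) (γ : R) :
    (p : R) ^ i * (τ * γ ^ (l * p ^ (s - i))) ∈ G p R s := by
  obtain ⟨y, _, hy⟩ := teich_root p f hq hτ (s - i)
  have h1 := term_mem p (s := s) (a := s - i) (by omega) (y * γ ^ l)
  rw [Nat.sub_sub_self hi, mul_pow, hy, ← pow_mul] at h1
  exact h1

theorem add_pow_G {R : Type*} [CommRing R] (s : ℕ) (x y : R) :
    ∃ z ∈ G p R s, (x + y) ^ p ^ (s + 1) = x ^ p ^ (s + 1) + y ^ p ^ (s + 1) + p * z := by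
  obtain ⟨z, hz, h1⟩ := ghost_succ p s
    (WittVector.teichmuller p x + WittVector.teichmuller p y - WittVector.teichmuller p (x + y))
  have h2 : (WittVector.teichmuller p x + WittVector.teichmuller p y -
      WittVector.teichmuller p (x + y)).coeff 0 = 0 := by
    have h3 := map_sub (WittVector.constantCoeff (p := p) (R := R))
      (WittVector.teichmuller p x + WittVector.teichmuller p y) (WittVector.teichmuller p (x + y))
    rw [map_add WittVector.constantCoeff] at h3
    have h4 : ∀ x : R, WittVector.constantCoeff (p := p) (R := R) (WittVector.teichmuller p x) = x :=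
      fun x => WittVector.teichmuller_coeff_zero p x
    rw [h4, h4, h4, sub_self] at h3
    exact h3
  rw [h2, zero_pow (pow_ne_zero _ hp.out.ne_zero), zero_add, map_sub, map_add,
    WittVector.ghostComponent_teichmuller, WittVector.ghostComponent_teichmuller,
    WittVector.ghostComponent_teichmuller] at h1
  exact ⟨-z, neg_mem hz, by linear_combination -h1⟩

end teich

section count

open IsLocalRing

variable {R : Type*} [CommRing R] [Finite R] [IsLocalRing R] {γ : R} {e : ℕ}
  (hγ : maximalIdeal R = Ideal.span {γ}) (he : γ ^ e = 0) (he' : ∀ j < e, γ ^ j ≠ 0)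
  (p f : ℕ) [hp : Fact p.Prime] (hq : Nat.card (ResidueField R) = p ^ f)

/-- the elements of `H` divisible by `γ ^ j` -/
def Fil (γ : R) (H : AddSubgroup R) (j : ℕ) : Set R := {x | x ∈ H ∧ γ ^ j ∣ x}

include hγ he he' hq in
theorem fil_step (H : AddSubgroup R) {j : ℕ} (hj : j < e) (u : R) (hu : IsUnit u)
    (hmem : ∀ τ : R, τ ^ (p ^ f) = τ → τ * (γ ^ j * u) ∈ H) :
    Nat.card (Fil γ H j) = p ^ f * Nat.card (Fil γ H (j + 1)) := by
  rw [← hq, ← Nat.card_prod]
  have hT : ∀ κ : ResidueField R, ∃ τ : R, τ ^ (p ^ f) = τ ∧ residue R τ = κ := by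
    intro κ
    obtain ⟨x, hx⟩ := residue_surjective κ
    obtain ⟨τ, h1, h2⟩ := exists_teich hγ he he' p f hq x
    exact ⟨τ, h1, h2.trans hx⟩
  choose T hT1 hT2 using hT
  obtain ⟨u', hu'⟩ := hu.exists_right_inv
  let F : ResidueField R × Fil γ H (j + 1) → Fil γ H j := fun x =>
    ⟨T x.1 * (γ ^ j * u) + x.2.1, H.add_mem (hmem _ (hT1 _)) x.2.2.1,
      dvd_add (Dvd.intro (T x.1 * u) (by ring)) ((pow_dvd_pow γ (Nat.le_succ j)).trans x.2.2.2)⟩
  refine (Nat.card_congr (Equiv.ofBijective F ⟨?_, ?_⟩)).symm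
  · rintro ⟨κ, x, hx⟩ ⟨κ', x', hx'⟩ h
    have h1 : T κ * (γ ^ j * u) + x = T κ' * (γ ^ j * u) + x' := congrArg Subtype.val h
    have h2 : γ ^ (j + 1) ∣ γ ^ j * (u * (T κ - T κ')) := by
      have h3 : γ ^ j * (u * (T κ - T κ')) = x' - x := by linear_combination h1
      rw [h3]
      exact dvd_sub hx'.2 hx.2
    have h3 : κ = κ' := by
      by_contra hne
      have h4 : IsUnit (T κ - T κ') := by
        rw [← isUnit_map_iff (residue R), map_sub, hT2, hT2, isUnit_iff_ne_zero]
        exact sub_ne_zero.2 hne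
      have h5 := (pow_dvd_iff hγ he he' (hu.mul h4) (show j + 1 ≤ e by omega) hj.le).1 h2
      omega
    subst h3
    have h4 : x = x' := by linear_combination h1
    subst h4
    rfl
  · rintro ⟨y, hy, z, rfl⟩
    have h1 : γ ∣ u' * z - T (residue R (u' * z)) := by
      rw [← Ideal.mem_span_singleton, ← hγ, ← residue_eq_zero_iff, map_sub, hT2, sub_self]
    obtain ⟨w, hw⟩ := h1
    refine ⟨(residue R (u' * z), ⟨γ ^ j * z - T (residue R (u' * z)) * (γ ^ j * u),
      H.sub_mem hy (hmem _ (hT1 _)), ?_⟩), ?_⟩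
    · refine ⟨u * w, ?_⟩
      have h2 : γ ^ j * z = γ ^ j * u * (u' * z) := by
        linear_combination (-γ ^ j * z) * hu'
      rw [h2]
      rw [pow_succ]
      linear_combination (γ ^ j * u) * hw
    · apply Subtype.ext
      change T (residue R (u' * z)) * (γ ^ j * u) + (γ ^ j * z - T (residue R (u' * z)) * (γ ^ j * u)) = _
      ring

include hγ he he' hq in
theorem fil_card (H : AddSubgroup R) (S : ℕ → Prop) [DecidablePred S]
    (hmem : ∀ j < e, S j → ∃ u : R, IsUnit u ∧ ∀ τ : R, τ ^ (p ^ f) = τ → τ * (γ ^ j * u) ∈ H) :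
    (p ^ f) ^ ((Finset.range e).filter S).card ≤ Nat.card H ∧
    ((∀ x ∈ H, ∀ j < e, γ ^ j ∣ x → ¬ γ ^ (j + 1) ∣ x → S j) →
      Nat.card H = (p ^ f) ^ ((Finset.range e).filter S).card) := by
  have key : ∀ d j : ℕ, e = j + d →
      (p ^ f) ^ ((Finset.Ico j e).filter S).card ≤ Nat.card (Fil γ H j) ∧
      ((∀ x ∈ H, ∀ j < e, γ ^ j ∣ x → ¬ γ ^ (j + 1) ∣ x → S j) →
        Nat.card (Fil γ H j) = (p ^ f) ^ ((Finset.Ico j e).filter S).card) := by
    intro d
    induction d with
    | zero =>
      intro j hj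
      have hje : j = e := by omega
      subst hje
      have h1 : Fil γ H j = {0} := by
        ext x
        simp only [Fil, Set.mem_ofPred_eq, Set.mem_singleton_iff, he, zero_dvd_iff]
        exact ⟨fun h => h.2, fun h => ⟨h ▸ H.zero_mem, h⟩⟩
      rw [h1]
      simp
    | succ d ih =>
      intro j hj
      have hlt : j < e := by omega
      obtain ⟨ih1, ih2⟩ := ih (j + 1) (by omega)
      have hIco : Finset.Ico j e = insert j (Finset.Ico (j + 1) e) := by
        ext i
        simp only [Finset.mem_Ico, Finset.mem_insert]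
        omega
      by_cases hS : S j
      · obtain ⟨u, hu, hm⟩ := hmem j hlt hS
        have h1 := fil_step hγ he he' p f hq H hlt u hu hm
        have h2 : ((Finset.Ico j e).filter S).card = ((Finset.Ico (j + 1) e).filter S).card + 1 := by
          rw [hIco, Finset.filter_insert, if_pos hS, Finset.card_insert_of_notMem (by simp)]
        rw [h1, h2, pow_succ']
        exact ⟨Nat.mul_le_mul_left _ ih1, fun h => by rw [ih2 h]⟩
      · have h2 : ((Finset.Ico j e).filter S).card = ((Finset.Ico (j + 1) e).filter S).card := by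
          rw [hIco, Finset.filter_insert, if_neg hS]
        have hsub : Fil γ H (j + 1) ⊆ Fil γ H j := fun x hx =>
          ⟨hx.1, (pow_dvd_pow γ (Nat.le_succ j)).trans hx.2⟩
        rw [h2]
        refine ⟨ih1.trans (Nat.card_mono (Set.toFinite _) hsub), ?_⟩
        intro h
        have h3 : Fil γ H j = Fil γ H (j + 1) := by
          apply Set.Subset.antisymm _ hsub
          intro x hx
          refine ⟨hx.1, ?_⟩
          by_contra hc
          exact hS (h x hx.1 j hlt hx.2 hc)
        rw [h3]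
        exact ih2 h
  have h0 := key e 0 (by omega)
  have h1 : Nat.card (Fil γ H 0) = Nat.card H := by
    refine Nat.card_congr (Equiv.subtypeEquivRight ?_)
    intro x
    simp [Fil]
  rw [h1, ← Finset.range_eq_Ico] at h0
  exact h0

end count

end Cir
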