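import Pool.Agent.X254.Circ8

set_option linter.unusedSectionVars false
set_option linter.unusedVariables false

namespace Cir

/-- the integers `k i + l p ^ (s - i)` -/
def InS (p k s j : ℕ) : Prop := ∃ i ≤ s, ∃ l, j = k * i + l * p ^ (s - i)

theorem InS_shift {p k s a : ℕ} (h : InS p k s a) : InS p k (s + 1) (k + a) := by
  obtain ⟨i, hi, l, rfl⟩ := h
  refine ⟨i + 1, by omega, l, ?_⟩
  rw [show s + 1 - (i + 1) = s - i by omega]
  ring

section tame

open IsLocalRing

variable {R : Type*} [CommRing R] [Finite R] [IsLocalRing R] {γ : R} {e : ℕ}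
  (hγ : maximalIdeal R = Ideal.span {γ}) (he : γ ^ e = 0) (he' : ∀ j < e, γ ^ j ≠ 0)
  (p f : ℕ) [hp : Fact p.Prime] (hq : Nat.card (ResidueField R) = p ^ f)

include hq in
theorem InS_mem {k : ℕ} {t : R} (hk : γ ^ k = p * t) (ht : t ^ (p ^ f) = t) {s j : ℕ}
    (h : InS p k s j) {τ : R} (hτ : τ ^ (p ^ f) = τ) : τ * γ ^ j ∈ G p R s := by
  obtain ⟨i, hi, l, rfl⟩ := h
  have h1 := teich_mem_G (γ := γ) p f hq hi (τ := τ * t ^ i) (by
    rw [mul_pow, hτ, ← pow_mul, mul_comm i, pow_mul, ht]) l
  have h2 : τ * γ ^ (k * i + l * p ^ (s - i)) = (p : R) ^ i * (τ * t ^ i * γ ^ (l * p ^ (s - i))) := by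
    rw [pow_add, pow_mul, hk, mul_pow]
    ring
  rw [h2]
  exact h1

include hγ he he' in
theorem val_unique {b : ℕ} {u : R} (hu : IsUnit u) {j : ℕ} (hj : j < e)
    (h1 : γ ^ j ∣ γ ^ b * u) (h2 : ¬ γ ^ (j + 1) ∣ γ ^ b * u) : j = b := by
  by_cases hb : e ≤ b
  · exfalso
    apply h2
    have h3 : γ ^ b = 0 := by
      rw [show b = e + (b - e) by omega, pow_add, he, zero_mul]
    rw [h3, zero_mul]
    exact dvd_zero _
  · have h3 := (pow_dvd_iff hγ he he' hu hj.le (by omega)).1 h1
    have h4 := mt (pow_dvd_iff hγ he he' hu (show j + 1 ≤ e by omega) (by omega)).2 h2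
    omega

include hγ he he' hq in
theorem val_mem {k : ℕ} {t : R} (hk : γ ^ k = p * t) (ht : t ^ (p ^ f) = t) (htu : IsUnit t) :
    ∀ s, ∀ x ∈ G p R s, ∀ j < e, γ ^ j ∣ x → ¬ γ ^ (j + 1) ∣ x → InS p k s j := by
  intro s
  induction s with
  | zero =>
    intro x _ j _ _ _
    exact ⟨0, le_rfl, j, by simp⟩
  | succ s ih =>
    obtain ⟨t', ht'⟩ := htu.exists_right_inv
    have ht'u : IsUnit t' := IsUnit.of_mul_eq_one t (by rw [mul_comm]; exact ht')
    have hp' : (p : R) = γ ^ k * t' := by rw [hk, mul_assoc, ht', mul_one]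
    have hshift : ∀ a, ∀ w : R, IsUnit w → γ ^ a * w ∈ G p R s → ∀ j < e, j = k + a →
        InS p k (s + 1) j := by
      rintro a w hw hz j hj rfl
      apply InS_shift
      apply ih _ hz a (by omega) (Dvd.intro _ rfl)
      intro hc
      have := (pow_dvd_iff hγ he he' hw (show a + 1 ≤ e by omega) (by omega)).1 hc
      omega
    have main : ∀ d l, l + d = e → ∀ y z : R, γ ^ l ∣ y → z ∈ G p R s → ∀ j < e,
        γ ^ j ∣ y ^ p ^ (s + 1) + p * z → ¬ γ ^ (j + 1) ∣ y ^ p ^ (s + 1) + p * z →
        InS p k (s + 1) j := by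
      intro d
      induction d with
      | zero =>
        intro l hl y z hy hz j hj h1 h2
        have hle : l = e := by omega
        rw [hle, he, zero_dvd_iff] at hy
        obtain ⟨a, ha, w, hw, rfl⟩ := exists_unit_mul hγ he z
        have h3 : y ^ p ^ (s + 1) + p * (γ ^ a * w) = γ ^ (k + a) * (t' * w) := by
          rw [hy, zero_pow (pow_ne_zero _ hp.out.ne_zero), hp', pow_add]
          ring
        rw [h3] at h1 h2
        exact hshift a w hw hz j hj (val_unique hγ he he' (ht'u.mul hw) hj h1 h2)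
      | succ d ihd =>
        intro l hl y z hy hz j hj h1 h2
        by_cases hly : γ ^ (l + 1) ∣ y
        · exact ihd (l + 1) (by omega) y z hly hz j hj h1 h2
        · obtain ⟨ε, rfl⟩ := hy
          have hε : IsUnit ε := by
            by_contra hc
            apply hly
            have h3 : ε ∈ maximalIdeal R := (mem_maximalIdeal ε).2 hc
            rw [hγ, Ideal.mem_span_singleton] at h3
            rw [pow_succ]
            exact mul_dvd_mul_left _ h3
          obtain ⟨a, ha, w, hw, rfl⟩ := exists_unit_mul hγ he z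
          have hnil : IsNilpotent γ := ⟨e, he⟩
          have hunit : ∀ (u v : R) (b : ℕ), IsUnit u → 0 < b → IsUnit (u + γ ^ b * v) := by
            intro u v b hu hb
            have h3 : IsNilpotent (γ ^ b * v) :=
              (Commute.all _ _).isNilpotent_mul_right (hnil.pow_of_pos hb.ne')
            rw [add_comm]
            exact IsNilpotent.isUnit_add_right_of_commute h3 hu (Commute.all _ _)
          have hyP : (γ ^ l * ε) ^ p ^ (s + 1) = γ ^ (l * p ^ (s + 1)) * ε ^ p ^ (s + 1) := by
            rw [mul_pow, ← pow_mul]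
          have hpz : (p : R) * (γ ^ a * w) = γ ^ (k + a) * (t' * w) := by
            rw [hp', pow_add]
            ring
          rcases lt_trichotomy (l * p ^ (s + 1)) (k + a) with hlt | heq | hgt
          · have h3 : (γ ^ l * ε) ^ p ^ (s + 1) + p * (γ ^ a * w) = γ ^ (l * p ^ (s + 1)) *
                (ε ^ p ^ (s + 1) + γ ^ (k + a - l * p ^ (s + 1)) * (t' * w)) := by
              rw [hyP, hpz, mul_add, ← mul_assoc (γ ^ (l * p ^ (s + 1))) (γ ^ (k + a - _)), ← pow_add,
                Nat.add_sub_cancel' hlt.le]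
            rw [h3] at h1 h2
            have h4 := val_unique hγ he he' (hunit _ (t' * w) _ (hε.pow _) (by omega)) hj h1 h2
            exact ⟨0, by omega, l, by rw [h4]; simp⟩
          · by_cases hbig : e ≤ l * p ^ (s + 1)
            · exfalso
              apply h2
              have h3 : γ ^ (l * p ^ (s + 1)) = 0 := by
                rw [show l * p ^ (s + 1) = e + (l * p ^ (s + 1) - e) by omega, pow_add, he, zero_mul]
              rw [hyP, hpz, ← heq, h3, zero_mul, zero_mul, add_zero]
              exact dvd_zero _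
            · have hIn : InS p k s a := by
                apply ih _ hz a (by omega) (Dvd.intro _ rfl)
                intro hc
                have := (pow_dvd_iff hγ he he' hw (show a + 1 ≤ e by omega) (by omega)).1 hc
                omega
              obtain ⟨τ, hτ1, hτ2⟩ := exists_teich hγ he he' p f hq ε
              have h3 : γ ∣ ε - τ := by
                rw [← Ideal.mem_span_singleton, ← hγ, ← residue_eq_zero_iff, map_sub, hτ2, sub_self]
              obtain ⟨ε', hε'⟩ := h3
              obtain ⟨z1, hz1, h4⟩ := add_pow_G p s (γ ^ l * τ) (γ ^ (l + 1) * ε')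
              have h5 : γ ^ l * τ + γ ^ (l + 1) * ε' = γ ^ l * ε := by
                rw [pow_succ]
                linear_combination (-γ ^ l) * hε'
              rw [h5] at h4
              have hτP : (t * τ ^ p ^ (s + 1)) ^ (p ^ f) = t * τ ^ p ^ (s + 1) := by
                rw [mul_pow, ht, ← pow_mul, mul_comm (p ^ (s + 1)), pow_mul, hτ1]
              have hz2 := InS_mem p f hq hk ht hIn hτP
              have h6 : (γ ^ l * τ) ^ p ^ (s + 1) = p * (t * τ ^ p ^ (s + 1) * γ ^ a) := by
                rw [mul_pow, ← pow_mul, heq, pow_add, hk]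
                ring
              have h7 : (γ ^ l * ε) ^ p ^ (s + 1) + p * (γ ^ a * w) =
                  (γ ^ (l + 1) * ε') ^ p ^ (s + 1) +
                  p * (γ ^ a * w + z1 + t * τ ^ p ^ (s + 1) * γ ^ a) := by
                rw [h4, h6]
                ring
              rw [h7] at h1 h2
              exact ihd (l + 1) (by omega) _ _ (Dvd.intro _ rfl)
                (add_mem (add_mem hz hz1) hz2) j hj h1 h2
          · have h3 : (γ ^ l * ε) ^ p ^ (s + 1) + p * (γ ^ a * w) = γ ^ (k + a) *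
                (t' * w + γ ^ (l * p ^ (s + 1) - (k + a)) * ε ^ p ^ (s + 1)) := by
              rw [hyP, hpz, mul_add, ← mul_assoc (γ ^ (k + a)) (γ ^ (_ - (k + a))), ← pow_add,
                Nat.add_sub_cancel' hgt.le, add_comm]
            rw [h3] at h1 h2
            have h4 := val_unique hγ he he' (hunit _ (ε ^ p ^ (s + 1)) _ (ht'u.mul hw) (by omega))
              hj h1 h2
            exact hshift a w hw hz j hj h4
    intro x hx j hj h1 h2
    obtain ⟨y, z, hz, rfl⟩ := exists_of_mem_succ p hx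
    exact main e 0 (by omega) y z (by simp) hz j hj h1 h2

open Classical in
include hγ he he' hq in
theorem card_G_of {k : ℕ} {t : R} (hk : γ ^ k = p * t) (ht : t ^ (p ^ f) = t) (htu : IsUnit t)
    (s : ℕ) : Nat.card (G p R s) = (p ^ f) ^ ((Finset.range e).filter (InS p k s)).card := by
  have h1 := fil_card hγ he he' p f hq (G p R s).toAddSubgroup (InS p k s) (by
    intro j _ hj
    refine ⟨1, isUnit_one, ?_⟩
    intro τ hτ
    rw [mul_one]
    exact InS_mem p f hq hk ht hj hτ)
  exact h1.2 (val_mem hγ he he' p f hq hk ht htu s)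

include hγ he he' hq in
theorem tame_gen {k : ℕ} (hke : k ≤ e) (hpk : Ideal.span {(p : R)} = Ideal.span {γ ^ k})
    (h : ¬ p ∣ k ∨ k = e) : ∃ γ' t : R, maximalIdeal R = Ideal.span {γ'} ∧ γ' ^ e = 0 ∧
      (∀ j < e, γ' ^ j ≠ 0) ∧ γ' ^ k = p * t ∧ t ^ (p ^ f) = t ∧ IsUnit t := by
  by_cases hk : k = e
  · refine ⟨γ, 1, hγ, he, he', ?_, one_pow _, isUnit_one⟩
    rw [hk, he] at hpk
    have h1 : (p : R) ∈ Ideal.span {(0 : R)} := hpk ▸ Ideal.mem_span_singleton_self _
    rw [Ideal.mem_span_singleton, zero_dvd_iff] at h1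
    rw [hk, he, h1, zero_mul]
  · have hpk' : ¬ p ∣ k := h.resolve_right hk
    have h1 : (p : R) ∈ Ideal.span {γ ^ k} := hpk ▸ Ideal.mem_span_singleton_self _
    have h2 : γ ^ k ∈ Ideal.span {(p : R)} := hpk ▸ Ideal.mem_span_singleton_self _
    rw [Ideal.mem_span_singleton] at h1 h2
    obtain ⟨w0, hw0⟩ := h1
    obtain ⟨u0, hu0⟩ := h2
    have hu : IsUnit u0 := by
      by_contra hc
      have h3 := isNilpotent_of_not_isUnit hc
      have h4 : IsUnit (1 - w0 * u0) :=
        ((Commute.all w0 u0).isNilpotent_mul_left h3).isUnit_one_sub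
      have h5 : γ ^ k * (1 - w0 * u0) = 0 := by
        linear_combination hu0 + u0 * hw0
      exact he' k (by omega) (h4.mul_left_eq_zero.1 h5)
    obtain ⟨τ, hτ1, hτ2⟩ := exists_teich hγ he he' p f hq u0
    have hτu : IsUnit τ := by
      rw [← isUnit_map_iff (residue R), hτ2]
      exact hu.map _
    obtain ⟨τ', hτ'⟩ := hτu.exists_right_inv
    have hτ'u : IsUnit τ' := IsUnit.of_mul_eq_one τ (by rw [mul_comm]; exact hτ')
    have hvu : IsUnit (u0 * τ') := hu.mul hτ'u
    have hres : residue R (u0 * τ') = 1 := by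
      rw [map_mul, ← hτ2, ← map_mul, hτ', map_one]
    have hvQ : (u0 * τ') ^ (p ^ f) ^ (e - 1) = 1 := by
      apply teich_inj p f hq (unit_pow_teich hγ he he' p f hq hvu) (one_pow _)
      rw [map_pow, hres, one_pow, map_one]
    obtain ⟨v, hv⟩ := hvu
    have hvQ' : v ^ ((p ^ f) ^ (e - 1)) = 1 := by
      apply Units.ext
      rw [Units.val_pow_eq_pow_val, hv, hvQ, Units.val_one]
    have hcop : Nat.Coprime k ((p ^ f) ^ (e - 1)) :=
      (((hp.out.coprime_iff_not_dvd.2 hpk').pow_left f).pow_left (e - 1)).symm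
    have hbez := Nat.gcd_eq_gcd_ab k ((p ^ f) ^ (e - 1))
    rw [Nat.coprime_iff_gcd_eq_one.1 hcop] at hbez
    set A := Nat.gcdA k ((p ^ f) ^ (e - 1))
    set B := Nat.gcdB k ((p ^ f) ^ (e - 1))
    let η : Rˣ := v ^ (-A)
    have hη : η ^ k * v = 1 := by
      have h3 : η ^ k * v = v ^ ((((p ^ f) ^ (e - 1) : ℕ) : ℤ) * B) := by
        have h4 : η ^ k = v ^ (-A * k) := by
          rw [← zpow_natCast, ← zpow_mul]
        have h5 : (((p ^ f) ^ (e - 1) : ℕ) : ℤ) * B = -A * k + 1 := by
          push_cast at hbez ⊢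
          linear_combination -hbez
        rw [h4, h5, zpow_add, zpow_one]
      rw [h3, zpow_mul, zpow_natCast, hvQ', one_zpow]
    refine ⟨γ * η, τ, ?_, ?_, ?_, ?_, hτ1, hτu⟩
    · rw [hγ]
      exact (Ideal.span_singleton_mul_right_unit η.isUnit γ).symm
    · rw [mul_pow, he, zero_mul]
    · intro j hj h3
      rw [mul_pow] at h3
      exact he' j hj ((η.isUnit.pow j).mul_left_eq_zero.1 h3)
    · have h3 : (η : R) ^ k * (u0 * τ') = 1 := by
        rw [← hv, ← Units.val_pow_eq_pow_val, ← Units.val_mul, hη, Units.val_one]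
      rw [mul_pow, hu0]
      linear_combination (p * τ : R) * h3 - (p * u0 * (η : R) ^ k) * hτ'

open Classical in
include hγ he he' hq in
/-- the size of the Witt subring -/
theorem card_G_tame {k s : ℕ} (hke : k ≤ e) (hpk : Ideal.span {(p : R)} = Ideal.span {γ ^ k})
    (h : s ≤ 1 ∨ ¬ p ∣ k ∨ k = e) :
    Nat.card (G p R s) = (p ^ f) ^ ((Finset.range e).filter (InS p k s)).card := by
  by_cases h2 : ¬ p ∣ k ∨ k = e
  · obtain ⟨γ', t, h3, h4, h5, h6, h7, h8⟩ := tame_gen hγ he he' p f hq hke hpk h2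
    exact card_G_of h3 h4 h5 p f hq h6 h7 h8 s
  · have hs : s ≤ 1 := h.resolve_right h2
    obtain rfl | rfl : s = 0 ∨ s = 1 := by omega
    · refine (fil_card hγ he he' p f hq (G p R 0).toAddSubgroup (InS p k 0) ?_).2 ?_
      · intro j _ _
        exact ⟨1, isUnit_one, fun τ _ => mem_G_zero p _⟩
      · intro x _ j _ _ _
        exact ⟨0, le_rfl, j, by simp⟩
    · have hsub : ∀ x : R, γ ^ k ∣ x → x ∈ G p R 1 := by
        intro x hx
        rw [← Ideal.mem_span_singleton, ← hpk, Ideal.mem_span_singleton] at hx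
        obtain ⟨y, rfl⟩ := hx
        exact p_mul_mem p (mem_G_zero p y)
      refine (fil_card hγ he he' p f hq (G p R 1).toAddSubgroup (InS p k 1) ?_).2 ?_
      · rintro j _ ⟨i, hi, l, rfl⟩
        refine ⟨1, isUnit_one, fun τ hτ => ?_⟩
        rw [mul_one]
        obtain rfl | rfl : i = 0 ∨ i = 1 := by omega
        · have h3 := teich_mem_G (γ := γ) p f hq (show 0 ≤ 1 by omega) hτ l
          rw [pow_zero, one_mul] at h3
          rw [mul_zero, zero_add]
          exact h3
        · apply hsub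
          rw [mul_one, pow_add]
          exact Dvd.intro (γ ^ (l * p ^ (1 - 1)) * τ) (by ring)
      · intro x hx j hj h3 h4
        by_cases hjk : k ≤ j
        · refine ⟨1, le_rfl, j - k, ?_⟩
          simp
          omega
        · obtain ⟨y, z, hz, rfl⟩ := exists_of_mem_succ p hx
          have hpz : γ ^ k ∣ (p : R) * z := by
            rw [← Ideal.mem_span_singleton, ← hpk, Ideal.mem_span_singleton]
            exact Dvd.intro _ rfl
          obtain ⟨l, hl, ε, hε, rfl⟩ := exists_unit_mul hγ he y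
          have h5 : γ ^ j ∣ (γ ^ l * ε) ^ p ^ (0 + 1) :=
            (dvd_add_left ((pow_dvd_pow γ (by omega)).trans hpz)).1 h3
          have h6 : ¬ γ ^ (j + 1) ∣ (γ ^ l * ε) ^ p ^ (0 + 1) := fun h7 =>
            h4 (dvd_add h7 ((pow_dvd_pow γ (by omega)).trans hpz))
          rw [mul_pow, ← pow_mul] at h5 h6
          have h7 := val_unique hγ he he' (hε.pow _) hj h5 h6
          exact ⟨0, by omega, l, by rw [h7]; simp⟩

open Classical in
include hγ he he' hq in
/-- the general lower bound -/
theorem card_G_ge {k s : ℕ} (hke : k ≤ e) (hpk : Ideal.span {(p : R)} = Ideal.span {γ ^ k}) :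
    (p ^ f) ^ ((Finset.range e).filter (InS p k s)).card ≤ Nat.card (G p R s) := by
  by_cases hk : k = e
  · exact (card_G_tame hγ he he' p f hq hke hpk (Or.inr (Or.inr hk))).ge
  · have h1 : (p : R) ∈ Ideal.span {γ ^ k} := hpk ▸ Ideal.mem_span_singleton_self _
    have h2 : γ ^ k ∈ Ideal.span {(p : R)} := hpk ▸ Ideal.mem_span_singleton_self _
    rw [Ideal.mem_span_singleton] at h1 h2
    obtain ⟨w0, hw0⟩ := h1
    obtain ⟨u0, hu0⟩ := h2
    have hu : IsUnit w0 := by
      by_contra hc
      have h3 := isNilpotent_of_not_isUnit hc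
      have h4 : IsUnit (1 - w0 * u0) :=
        ((Commute.all w0 u0).isNilpotent_mul_right h3).isUnit_one_sub
      have h5 : γ ^ k * (1 - w0 * u0) = 0 := by
        linear_combination hu0 + u0 * hw0
      exact he' k (by omega) (h4.mul_left_eq_zero.1 h5)
    refine (fil_card hγ he he' p f hq (G p R s).toAddSubgroup (InS p k s) ?_).1
    rintro j _ ⟨i, hi, l, rfl⟩
    refine ⟨w0 ^ i, hu.pow i, fun τ hτ => ?_⟩
    have h3 := teich_mem_G (γ := γ) p f hq hi hτ l
    have h4 : τ * (γ ^ (k * i + l * p ^ (s - i)) * w0 ^ i) =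
        (p : R) ^ i * (τ * γ ^ (l * p ^ (s - i))) := by
      rw [pow_add, pow_mul, hw0, mul_pow]
      ring
    rw [h4]
    exact h3

end tame

end Cir
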