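import Pool.Agent.TH650.GB.CB
import Pool.Agent.Helper428.MatrixTree

open Matrix Finset
open scoped Classical

set_option linter.unusedSectionVars false
set_option linter.unusedVariables false

namespace Kos

/-- the non-edges, as pairs `i < j` -/
abbrev NE {n : ℕ} (Γ : SimpleGraph (Fin n)) : Type :=
  {p : Fin n × Fin n // p.1 < p.2 ∧ ¬ Γ.Adj p.1 p.2}

section basic

variable {n : ℕ} {R : Type*} [CommRing R]

def d (R : Type*) [CommRing R] {n : ℕ} (a i : Fin n) : R := if a = i then 1 else 0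

theorem sum_d (f : Fin n → R) (i : Fin n) : ∑ a, d R a i * f a = f i := by
  simp [d]

theorem sum_d_left (f : Fin n → R) (i : Fin n) : ∑ a, d R i a * f a = f i := by
  simp [d]

def Pv (R : Type*) [CommRing R] {n : ℕ} (a b i j : Fin n) : R :=
  d R a i * d R b j - d R a j * d R b i

def Av (R : Type*) [CommRing R] {n : ℕ} (a b c i j : Fin n) : R :=
  Pv R a b i j + Pv R b c i j + Pv R c a i j

theorem Av_cyc (a b c i j : Fin n) : Av R a b c i j = Av R b c a i j := by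
  unfold Av
  ring

theorem Av_swap (a b c i j : Fin n) : Av R b a c i j = - Av R a b c i j := by
  unfold Av Pv
  ring

theorem sum_Pv (G : Fin n → Fin n → R) (i j : Fin n) :
    ∑ a, ∑ b, Pv R a b i j * G a b = G i j - G j i := by
  have h1 : ∀ a, ∑ b, Pv R a b i j * G a b = d R a i * G a j - d R a j * G a i := by
    intro a
    have h2 : ∀ b, Pv R a b i j * G a b = d R b j * (d R a i * G a b) -
        d R b i * (d R a j * G a b) := by
      intro b
      unfold Pv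
      ring
    simp only [h2, Finset.sum_sub_distrib, sum_d]
  simp only [h1, Finset.sum_sub_distrib, sum_d]

theorem key_sum (i j : Fin n) (g : Fin n → Fin n → Fin n → R)
    (hcyc : ∀ a b c, g a b c = g b c a) (hsw : ∀ a b c, g b a c = - g a b c) :
    ∑ a, ∑ b, ∑ c, Av R a b c i j * g a b c = 6 * ∑ c, g i j c := by
  have h1 : ∑ a, ∑ b, ∑ c, Pv R a b i j * g a b c = 2 * ∑ c, g i j c := by
    simp only [← Finset.mul_sum]
    rw [sum_Pv (fun a b => ∑ c, g a b c)]
    have : ∑ c, g j i c = - ∑ c, g i j c := by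
      rw [← Finset.sum_neg_distrib]
      exact Finset.sum_congr rfl fun c _ => hsw i j c
    rw [this]
    ring
  have h2 : ∑ a, ∑ b, ∑ c, Pv R b c i j * g a b c = ∑ a, ∑ b, ∑ c, Pv R a b i j * g a b c := by
    rw [Finset.sum_comm]
    apply Finset.sum_congr rfl
    intro b _
    rw [Finset.sum_comm]
    apply Finset.sum_congr rfl
    intro c _
    apply Finset.sum_congr rfl
    intro a _
    rw [hcyc a b c]
  have h3 : ∑ a, ∑ b, ∑ c, Pv R c a i j * g a b c = ∑ a, ∑ b, ∑ c, Pv R a b i j * g a b c := by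
    have h4 : ∑ a, ∑ b, ∑ c, Pv R c a i j * g a b c = ∑ a, ∑ c, ∑ b, Pv R c a i j * g a b c := by
      apply Finset.sum_congr rfl
      intro a _
      rw [Finset.sum_comm]
    rw [h4, Finset.sum_comm]
    apply Finset.sum_congr rfl
    intro c _
    apply Finset.sum_congr rfl
    intro a _
    apply Finset.sum_congr rfl
    intro b _
    rw [← hcyc c a b]
  unfold Av
  simp only [add_mul, Finset.sum_add_distrib]
  rw [h2, h3, h1]
  ring

theorem sum_xA (x : Fin n → R) (i j k l : Fin n) : ∑ c, x c * Av R i j c k l =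
    (∑ c, x c) * Pv R i j k l + (x l * d R j k - x k * d R j l) +
      (x k * d R i l - x l * d R i k) := by
  have h1 : ∀ c, x c * Av R i j c k l = x c * Pv R i j k l +
      (d R c l * (d R j k * x c) - d R c k * (d R j l * x c)) +
      (d R c k * (d R i l * x c) - d R c l * (d R i k * x c)) := by
    intro c
    unfold Av Pv
    ring
  simp only [h1, Finset.sum_add_distrib, Finset.sum_sub_distrib, sum_d, ← Finset.sum_mul]
  ring

end basic

section real

variable {n : ℕ} (Γ : SimpleGraph (Fin n)) (x : Fin n → ℝ)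

noncomputable def Cm : Matrix (NE Γ) (Fin n) ℝ := Matrix.of fun p v => (d ℝ v p.1.2 - d ℝ v p.1.1) / x v

noncomputable def Dm : Matrix (Fin n) (NE Γ) ℝ :=
  Matrix.of fun v q => (d ℝ v q.1.2 - d ℝ v q.1.1) * (x q.1.1 * x q.1.2)

/-- coefficient and vector of a triple -/
noncomputable def cf (r : Fin n × Fin n × Fin n) : ℝ := x r.1 * x r.2.1 * x r.2.2

def vec (R : Type*) [CommRing R] {n : ℕ} (Γ : SimpleGraph (Fin n)) (r : Fin n × Fin n × Fin n)
    (p : NE Γ) : R := Av R r.1 r.2.1 r.2.2 p.1.1 p.1.2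

theorem M_eq (hx : ∀ i, x i ≠ 0) :
    (∑ r : Fin n × Fin n × Fin n, cf x r • vecMulVec (vec ℝ Γ r) (vec ℝ Γ r)) =
    (6 : ℝ) • (Matrix.diagonal (fun p : NE Γ => x p.1.1 * x p.1.2) *
      ((∑ c, x c) • (1 : Matrix (NE Γ) (NE Γ) ℝ) - Cm Γ x * Dm Γ x)) := by
  ext ⟨⟨i, j⟩, hij, hadj⟩ ⟨⟨k, l⟩, hkl, hadj'⟩
  simp only at hij hkl
  rw [Matrix.sum_apply, Fintype.sum_prod_type, Matrix.smul_apply, Matrix.diagonal_mul]
  simp only [Fintype.sum_prod_type, Matrix.smul_apply, vecMulVec_apply, smul_eq_mul, cf, vec,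
    Matrix.sub_apply, Matrix.mul_apply, Cm, Dm, Matrix.of_apply]
  have h1 : ∀ a b c : Fin n, x a * x b * x c * (Av ℝ a b c i j * Av ℝ a b c k l) =
      Av ℝ a b c i j * (x a * x b * x c * Av ℝ a b c k l) := by
    intro a b c
    ring
  simp only [h1]
  rw [key_sum i j (fun a b c => x a * x b * x c * Av ℝ a b c k l)
    (fun a b c => by rw [Av_cyc a b c]; ring) (fun a b c => by rw [Av_swap]; ring)]
  have h2 : ∑ c, x i * x j * x c * Av ℝ i j c k l = x i * x j * ∑ c, x c * Av ℝ i j c k l := by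
    rw [Finset.mul_sum]
    exact Finset.sum_congr rfl fun c _ => by ring
  rw [h2, sum_xA]
  have h3 : ∑ v, (d ℝ v j - d ℝ v i) / x v * ((d ℝ v l - d ℝ v k) * (x k * x l)) =
      (d ℝ j l - d ℝ j k) / x j * (x k * x l) - (d ℝ i l - d ℝ i k) / x i * (x k * x l) := by
    have h4 : ∀ v, (d ℝ v j - d ℝ v i) / x v * ((d ℝ v l - d ℝ v k) * (x k * x l)) =
        d ℝ v j * ((d ℝ v l - d ℝ v k) / x v * (x k * x l)) -
        d ℝ v i * ((d ℝ v l - d ℝ v k) / x v * (x k * x l)) := by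
      intro v
      ring
    simp only [h4, Finset.sum_sub_distrib, sum_d]
  rw [h3]
  have h5 : ∀ a b : Fin n, ∀ y : ℝ, d ℝ a b / x a * (x b * y) = d ℝ a b * y := by
    intro a b y
    unfold d
    split_ifs with h
    · subst h
      field_simp [hx a]
    · ring
  have e1 := h5 j l (x k)
  have e2 := h5 j k (x l)
  have e3 := h5 i l (x k)
  have e4 := h5 i k (x l)
  have h6 : (1 : Matrix (NE Γ) (NE Γ) ℝ) ⟨(i, j), hij, hadj⟩ ⟨(k, l), hkl, hadj'⟩ = Pv ℝ i j k l := by
    rw [Matrix.one_apply]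
    unfold Pv d
    by_cases h : i = k
    · subst h
      by_cases h' : j = l
      · subst h'
        simp [hij.ne, hij.ne']
      · simp [h', hij.ne']
    · by_cases h' : i = l ∧ j = k
      · obtain ⟨rfl, rfl⟩ := h'
        exact absurd hij (not_lt.2 hkl.le)
      · simp only [Subtype.mk.injEq, Prod.mk.injEq, h, false_and, if_false]
        by_cases h'' : i = l
        · have : j ≠ k := fun h3 => h' ⟨h'', h3⟩
          simp [this]
        · simp [h'']
  rw [h6]
  linear_combination (6 * x i * x j) * (e1 - e2 - e3 + e4)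

end real

section real2

variable {n : ℕ} (Γ : SimpleGraph (Fin n)) (x : Fin n → ℝ)

theorem sum_NE (F : Fin n → Fin n → ℝ) (hs : ∀ k l, F k l = F l k) (h0 : ∀ k, F k k = 0) :
    2 * ∑ q : NE Γ, F q.1.1 q.1.2 = ∑ k, ∑ l, if Γ.Adj k l then 0 else F k l := by
  have e1 : ∑ q : NE Γ, F q.1.1 q.1.2 = ∑ p : Fin n × Fin n,
      if p.1 < p.2 ∧ ¬ Γ.Adj p.1 p.2 then F p.1 p.2 else 0 := by
    rw [← Finset.sum_filter]
    exact (Finset.sum_subtype _ (by simp) (fun p : Fin n × Fin n => F p.1 p.2)).symm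
  have e2 : ∑ p : Fin n × Fin n, (if p.1 < p.2 ∧ ¬ Γ.Adj p.1 p.2 then F p.1 p.2 else 0) =
      ∑ p : Fin n × Fin n, if p.2 < p.1 ∧ ¬ Γ.Adj p.1 p.2 then F p.1 p.2 else 0 := by
    rw [← (Equiv.prodComm (Fin n) (Fin n)).sum_comp]
    apply Finset.sum_congr rfl
    rintro ⟨a, b⟩ _
    simp only [Equiv.prodComm_apply, Prod.fst_swap, Prod.snd_swap, Γ.adj_comm b a, hs b a]
  rw [two_mul, e1]
  nth_rewrite 2 [e2]
  rw [← Finset.sum_add_distrib, Fintype.sum_prod_type]
  apply Finset.sum_congr rfl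
  intro a _
  apply Finset.sum_congr rfl
  intro b _
  simp only
  by_cases hadj : Γ.Adj a b
  · simp [hadj]
  · rcases lt_trichotomy a b with h | h | h
    · simp [hadj, h, h.le]
    · subst h
      simp [h0]
    · simp [hadj, h, h.le]

/-- edge weights -/
noncomputable def wt (i j : Fin n) : ℝ := if Γ.Adj i j then x i * x j else 0

noncomputable def wS (e : Sym2 (Fin n)) : ℝ :=
  Sym2.lift ⟨wt Γ x, fun i j => by unfold wt; rw [Γ.adj_comm, mul_comm]⟩ e

theorem wS_mk (i j : Fin n) : wS Γ x s(i, j) = wt Γ x i j := rfl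

noncomputable def Lx : Matrix (Fin n) (Fin n) ℝ := Matrix.of fun u v =>
  (if v = u then ∑ k, wt Γ x u k else 0) - wt Γ x u v + x u * x v

theorem DC_eq (hx : ∀ i, x i ≠ 0) :
    ((∑ c, x c) • (1 : Matrix (Fin n) (Fin n) ℝ) - Dm Γ x * Cm Γ x) * Matrix.diagonal x =
      Lx Γ x := by
  ext u v
  rw [Matrix.mul_diagonal, Matrix.sub_apply, Matrix.smul_apply, Matrix.mul_apply]
  simp only [Cm, Dm, Lx, Matrix.of_apply, smul_eq_mul]
  have h1 : (∑ q : NE Γ, (d ℝ u q.1.2 - d ℝ u q.1.1) * (x q.1.1 * x q.1.2) *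
      ((d ℝ v q.1.2 - d ℝ v q.1.1) / x v)) * x v =
      ∑ q : NE Γ, (d ℝ u q.1.2 - d ℝ u q.1.1) * (d ℝ v q.1.2 - d ℝ v q.1.1) *
        (x q.1.1 * x q.1.2) := by
    rw [Finset.sum_mul]
    apply Finset.sum_congr rfl
    intro q _
    field_simp [hx v]
  have h2 := sum_NE Γ (fun k l => (d ℝ u l - d ℝ u k) * (d ℝ v l - d ℝ v k) * (x k * x l))
    (fun k l => by ring) (fun k => by ring)
  have h3 : ∀ k l, (if Γ.Adj k l then (0 : ℝ) else
      (d ℝ u l - d ℝ u k) * (d ℝ v l - d ℝ v k) * (x k * x l)) =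
      d ℝ u l * (d ℝ v l * (x k * x l - wt Γ x k l)) - d ℝ u l * (d ℝ v k * (x k * x l - wt Γ x k l)) -
      d ℝ v l * (d ℝ u k * (x k * x l - wt Γ x k l)) +
      d ℝ u k * (d ℝ v k * (x k * x l - wt Γ x k l)) := by
    intro k l
    unfold wt
    split_ifs <;> ring
  have hw : ∀ a b, wt Γ x a b = wt Γ x b a := by
    intro a b
    unfold wt
    rw [Γ.adj_comm, mul_comm]
  have h4 : ∑ k, ∑ l, (if Γ.Adj k l then (0 : ℝ) else
      (d ℝ u l - d ℝ u k) * (d ℝ v l - d ℝ v k) * (x k * x l)) =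
      2 * (d ℝ v u * ∑ k, (x u * x k - wt Γ x u k)) - 2 * (x u * x v - wt Γ x u v) := by
    simp only [h3, Finset.sum_add_distrib, Finset.sum_sub_distrib, ← Finset.mul_sum, sum_d_left]
    rw [hw v u]
    have h5 : ∀ k, wt Γ x k u = wt Γ x u k := fun k => hw k u
    simp only [h5, ← Finset.sum_mul]
    ring
  rw [h4] at h2
  rw [sub_mul, h1]
  have h6 : (1 : Matrix (Fin n) (Fin n) ℝ) u v = d ℝ v u := by
    rw [Matrix.one_apply]
    unfold d
    simp only [eq_comm]
  have h7 : (if v = u then ∑ k, wt Γ x u k else 0) = d ℝ v u * ∑ k, wt Γ x u k := by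
    unfold d
    split_ifs <;> ring
  have h8 : d ℝ v u * x v = d ℝ v u * x u := by
    unfold d
    split_ifs with h
    · rw [h]
    · ring
  rw [h6, h7]
  have h9 : ∑ k, (x u * x k - wt Γ x u k) = x u * ∑ k, x k - ∑ k, wt Γ x u k := by
    rw [Finset.sum_sub_distrib, Finset.mul_sum]
  rw [h9] at h2
  linear_combination (∑ k, x k) * h8 - (1 / 2) * h2

open Pool.Agent.Helper428.MatrixTree in
theorem Lx_eq (hn : (n : ℝ) ≠ 0) : Lx Γ x = (1 + Matrix.of fun i (_ : Fin n) => (x i - 1) / n) *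
    PL (fun i j => wS Γ x s(i, j)) * (1 + Matrix.of fun (_ : Fin n) j => (x j - 1) / n) := by
  have hw : ∀ a b, wt Γ x a b = wt Γ x b a := by
    intro a b
    unfold wt
    rw [Γ.adj_comm, mul_comm]
  have hP : ∀ i j, PL (fun i j => wS Γ x s(i, j)) i j =
      (if j = i then ∑ k, wt Γ x i k else 0) - wt Γ x i j + 1 := fun i j => rfl
  have hcol : ∀ j, ∑ i, PL (fun i j => wS Γ x s(i, j)) i j = n := by
    intro j
    simp only [hP, Finset.sum_add_distrib, Finset.sum_sub_distrib, Finset.sum_ite_eq,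
      Finset.mem_univ, if_true, Finset.sum_const, Finset.card_univ, nsmul_eq_mul, mul_one,
      Fintype.card_fin]
    rw [Finset.sum_congr rfl (fun i _ => hw i j)]
    ring
  have hrow : ∀ i, ∑ j, PL (fun i j => wS Γ x s(i, j)) i j = n := by
    intro i
    simp only [hP, Finset.sum_add_distrib, Finset.sum_sub_distrib, Finset.sum_ite_eq',
      Finset.mem_univ, if_true, Finset.sum_const, Finset.card_univ, nsmul_eq_mul, mul_one,
      Fintype.card_fin]
    ring
  have h1 : ∀ i j, ((1 + Matrix.of fun i (_ : Fin n) => (x i - 1) / (n : ℝ)) *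
      PL (fun i j => wS Γ x s(i, j))) i j = PL (fun i j => wS Γ x s(i, j)) i j + (x i - 1) := by
    intro i j
    rw [Matrix.add_mul, Matrix.one_mul, Matrix.add_apply, Matrix.mul_apply]
    simp only [Matrix.of_apply]
    rw [← Finset.mul_sum, hcol j]
    field_simp
  ext i j
  rw [Matrix.mul_add, Matrix.mul_one, Matrix.add_apply, h1, Matrix.mul_apply]
  simp only [h1, Matrix.of_apply]
  rw [← Finset.sum_mul, Finset.sum_add_distrib, hrow i, Finset.sum_const, Finset.card_univ,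
    Fintype.card_fin, hP, nsmul_eq_mul]
  simp only [Lx, Matrix.of_apply]
  field_simp
  ring

theorem det_U (hn : (n : ℝ) ≠ 0) :
    (1 + Matrix.of fun (i : Fin n) (_ : Fin n) => (x i - 1) / (n : ℝ)).det = (∑ i, x i) / n := by
  have h1 : (Matrix.of fun (i : Fin n) (_ : Fin n) => (x i - 1) / (n : ℝ)) =
      (Matrix.of fun (i : Fin n) (_ : Unit) => (x i - 1) / (n : ℝ)) *
      (Matrix.of fun (_ : Unit) (_ : Fin n) => (1 : ℝ)) := by
    ext i j
    simp [Matrix.mul_apply]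
  rw [h1, det_one_add_mul_comm, Matrix.det_unique, Matrix.add_apply, Matrix.mul_apply]
  simp only [Matrix.of_apply, one_mul, Matrix.one_apply_eq]
  rw [← Finset.sum_div, Finset.sum_sub_distrib, Finset.sum_const, Finset.card_univ,
    Fintype.card_fin]
  field_simp
  simp

theorem det_U' (hn : (n : ℝ) ≠ 0) :
    (1 + Matrix.of fun (_ : Fin n) (j : Fin n) => (x j - 1) / (n : ℝ)).det = (∑ i, x i) / n := by
  rw [← det_U x hn, ← det_transpose]
  congr 1
  rw [Matrix.transpose_add, Matrix.transpose_one]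
  rfl

/-- the weighted tree sum -/
noncomputable def tau : ℝ := ∑ T ∈ (Finset.univ : Finset (Finset (Sym2 (Fin n)))).filter
  (fun T : Finset (Sym2 (Fin n)) => (SimpleGraph.fromEdgeSet (T : Set (Sym2 (Fin n)))).IsTree),
    ∏ e ∈ T, wS Γ x e

theorem det_Lx (hn : n ≠ 0) : (Lx Γ x).det = (∑ i, x i) ^ 2 * tau Γ x := by
  have hn' : (n : ℝ) ≠ 0 := by exact_mod_cast hn
  have : Nonempty (Fin n) := ⟨⟨0, Nat.pos_of_ne_zero hn⟩⟩
  rw [Lx_eq Γ x hn', det_mul, det_mul, det_U x hn', det_U' x hn',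
    Pool.Agent.Helper428.MatrixTree.matrix_tree (wS Γ x) (by
      intro e he
      induction e with
      | _ i j =>
        rw [Sym2.mk_isDiag_iff] at he
        subst he
        rw [wS_mk]
        unfold wt
        simp)]
  unfold tau
  rw [Fintype.card_fin]
  field_simp

theorem master (hn : n ≠ 0) (hx : ∀ i, x i ≠ 0) (hs : ∑ c, x c ≠ 0) :
    (∑ c, x c) ^ n * (∏ v, x v) *
      (∑ r : Fin n × Fin n × Fin n, cf x r • vecMulVec (vec ℝ Γ r) (vec ℝ Γ r)).det =
    6 ^ Fintype.card (NE Γ) * (∏ p : NE Γ, x p.1.1 * x p.1.2) *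
      (∑ c, x c) ^ (Fintype.card (NE Γ) + 2) * tau Γ x := by
  set s := ∑ c, x c with hsdef
  rw [M_eq Γ x hx, ← hsdef, Matrix.det_smul, det_mul, det_diagonal]
  have h1 : (s • (1 : Matrix (NE Γ) (NE Γ) ℝ) - Cm Γ x * Dm Γ x).det * s ^ n =
      s ^ Fintype.card (NE Γ) * (s • (1 : Matrix (Fin n) (Fin n) ℝ) - Dm Γ x * Cm Γ x).det := by
    have h2 : s • (1 : Matrix (NE Γ) (NE Γ) ℝ) - Cm Γ x * Dm Γ x =
        s • (1 - (s⁻¹ • Cm Γ x) * Dm Γ x) := by
      rw [smul_sub, Matrix.smul_mul, smul_smul, mul_inv_cancel₀ hs, one_smul]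
    have h3 : s • (1 : Matrix (Fin n) (Fin n) ℝ) - Dm Γ x * Cm Γ x =
        s • (1 - Dm Γ x * (s⁻¹ • Cm Γ x)) := by
      rw [smul_sub, Matrix.mul_smul, smul_smul, mul_inv_cancel₀ hs, one_smul]
    rw [h2, h3, Matrix.det_smul, Matrix.det_smul, det_one_sub_mul_comm, Fintype.card_fin]
    ring
  have h4 := congrArg Matrix.det (DC_eq Γ x hx)
  rw [det_mul, det_diagonal, det_Lx Γ x hn, ← hsdef] at h4
  have h5 : s ^ n * (∏ v, x v) * (6 ^ Fintype.card (NE Γ) * ((∏ p : NE Γ, x p.1.1 * x p.1.2) *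
      (s • (1 : Matrix (NE Γ) (NE Γ) ℝ) - Cm Γ x * Dm Γ x).det)) =
      6 ^ Fintype.card (NE Γ) * (∏ p : NE Γ, x p.1.1 * x p.1.2) * (∏ v, x v) *
      ((s • (1 : Matrix (NE Γ) (NE Γ) ℝ) - Cm Γ x * Dm Γ x).det * s ^ n) := by ring
  rw [h5, h1]
  rw [pow_add]
  linear_combination (6 ^ Fintype.card (NE Γ) * (∏ p : NE Γ, x p.1.1 * x p.1.2) *
    s ^ Fintype.card (NE Γ)) * h4

theorem master2 (hn : n ≠ 0) (hx : ∀ i, x i ≠ 0) (hs : ∑ c, x c ≠ 0) :
    (∑ c, x c) ^ n * (∏ v, x v) *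
      (∑ I : NE Γ → Fin n × Fin n × Fin n, (∏ a, cf x (I a)) *
        (Matrix.of fun a => vec ℝ Γ (I a)).det ^ 2) =
    ((Fintype.card (NE Γ)).factorial * 6 ^ Fintype.card (NE Γ)) * (∏ p : NE Γ, x p.1.1 * x p.1.2) *
      (∑ c, x c) ^ (Fintype.card (NE Γ) + 2) * tau Γ x := by
  rw [← Pool.Agent.TH650.GB.cb_gram]
  linear_combination ((Fintype.card (NE Γ)).factorial : ℝ) * master Γ x hn hx hs

end real2

end Kos
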