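import Pool.Agent.X254.Kos1

open Matrix Finset MvPolynomial
open scoped Classical

set_option linter.unusedSectionVars false
set_option linter.unusedVariables false

namespace Kos

section poly

variable {n : ℕ} (Γ : SimpleGraph (Fin n))

/-- exponent of a triple -/
noncomputable def texp (r : Fin n × Fin n × Fin n) : Fin n →₀ ℕ :=
  Finsupp.single r.1 1 + Finsupp.single r.2.1 1 + Finsupp.single r.2.2 1

noncomputable def sexp (e : Sym2 (Fin n)) : Fin n →₀ ℕ :=
  Sym2.lift ⟨fun i j => Finsupp.single i 1 + Finsupp.single j 1, fun i j => add_comm _ _⟩ e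

theorem sexp_mk (i j : Fin n) : sexp s(i, j) = Finsupp.single i 1 + Finsupp.single j 1 := rfl

noncomputable def ones (n : ℕ) : Fin n →₀ ℕ := ∑ v : Fin n, Finsupp.single v 1

noncomputable def degI (I : NE Γ → Fin n × Fin n × Fin n) : Fin n →₀ ℕ := ∑ a, texp (I a)

noncomputable def degN : Fin n →₀ ℕ := ∑ p : NE Γ, (Finsupp.single p.1.1 1 + Finsupp.single p.1.2 1)

noncomputable def mu {e : ℕ} (g : Fin e → Fin n) : Fin n →₀ ℕ := ∑ t, Finsupp.single (g t) 1

noncomputable def degT (T : Finset (Sym2 (Fin n))) : Fin n →₀ ℕ := ∑ e ∈ T, sexp e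

/-- spanning trees, as edge sets -/
def IsT (T : Finset (Sym2 (Fin n))) : Prop :=
  (SimpleGraph.fromEdgeSet (T : Set (Sym2 (Fin n)))).IsTree ∧ ∀ e ∈ T, e ∈ Γ.edgeSet

/-- the value of a monomial -/
noncomputable def E (x : Fin n → ℝ) (α : Fin n →₀ ℕ) : ℝ := MvPolynomial.eval x (monomial α (1 : ℝ))

theorem E_add (x : Fin n → ℝ) (α β : Fin n →₀ ℕ) : E x (α + β) = E x α * E x β := by
  unfold E
  rw [← map_mul, monomial_mul, one_mul]

theorem E_single (x : Fin n → ℝ) (i : Fin n) : E x (Finsupp.single i 1) = x i := by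
  unfold E
  rw [eval_monomial]
  simp

theorem E_sum {ι : Type*} (x : Fin n → ℝ) (s : Finset ι) (f : ι → Fin n →₀ ℕ) :
    E x (∑ i ∈ s, f i) = ∏ i ∈ s, E x (f i) := by
  unfold E
  rw [monomial_sum_one, map_prod]

theorem E_texp (x : Fin n → ℝ) (r : Fin n × Fin n × Fin n) : E x (texp r) = cf x r := by
  unfold texp cf
  rw [E_add, E_add, E_single, E_single, E_single]

theorem tau_eq (x : Fin n → ℝ) : tau Γ x =
    ∑ T ∈ (Finset.univ : Finset (Finset (Sym2 (Fin n)))).filter (IsT Γ), E x (degT T) := by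
  unfold tau
  have hsub : (Finset.univ : Finset (Finset (Sym2 (Fin n)))).filter (IsT Γ) ⊆
      (Finset.univ : Finset (Finset (Sym2 (Fin n)))).filter
      (fun T : Finset (Sym2 (Fin n)) =>
        (SimpleGraph.fromEdgeSet (T : Set (Sym2 (Fin n)))).IsTree) := by
    intro T hT
    rw [Finset.mem_filter] at hT ⊢
    exact ⟨hT.1, hT.2.1⟩
  rw [← Finset.sum_subset hsub]
  · apply Finset.sum_congr rfl
    intro T hT
    rw [Finset.mem_filter] at hT
    unfold degT
    rw [E_sum]
    apply Finset.prod_congr rfl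
    intro e he
    have h1 := hT.2.2 e he
    induction e with
    | _ i j =>
      rw [SimpleGraph.mem_edgeSet] at h1
      rw [sexp_mk, E_add, E_single, E_single, wS_mk]
      unfold wt
      rw [if_pos h1]
  · intro T hT hT2
    rw [Finset.mem_filter] at hT hT2
    have : ¬ ∀ e ∈ T, e ∈ Γ.edgeSet := fun h => hT2 ⟨hT.1, hT.2, h⟩
    push Not at this
    obtain ⟨e, he, hne⟩ := this
    apply Finset.prod_eq_zero he
    induction e with
    | _ i j =>
      rw [SimpleGraph.mem_edgeSet] at hne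
      rw [wS_mk]
      unfold wt
      rw [if_neg hne]

noncomputable def dI (I : NE Γ → Fin n × Fin n × Fin n) : ℝ :=
  (Matrix.of fun a => vec ℝ Γ (I a)).det

noncomputable def PL : MvPolynomial (Fin n) ℝ :=
  ∑ I : NE Γ → Fin n × Fin n × Fin n, monomial (ones n + degI Γ I) (dI Γ I ^ 2)

noncomputable def PR (e : ℕ) : MvPolynomial (Fin n) ℝ :=
  ∑ g : Fin e → Fin n, ∑ T ∈ (Finset.univ : Finset (Finset (Sym2 (Fin n)))).filter (IsT Γ),
    monomial (degN Γ + mu g + degT T)
      (((Fintype.card (NE Γ)).factorial : ℝ) * 6 ^ Fintype.card (NE Γ))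

theorem eval_mon (x : Fin n → ℝ) (α : Fin n →₀ ℕ) (c : ℝ) :
    MvPolynomial.eval x (monomial α c) = c * E x α := by
  unfold E
  rw [eval_monomial, eval_monomial, one_mul]

theorem eval_eq (hn : n ≠ 0) (e : ℕ) (he : n + e = Fintype.card (NE Γ) + 2) (x : Fin n → ℝ)
    (hx : ∀ i, x i ≠ 0) (hs : ∑ c, x c ≠ 0) :
    MvPolynomial.eval x (PL Γ) = MvPolynomial.eval x (PR Γ e) := by
  have h1 := master2 Γ x hn hx hs
  rw [← he, pow_add, tau_eq] at h1
  unfold PL PR
  simp only [map_sum, eval_mon]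
  have h2 : ∑ I : NE Γ → Fin n × Fin n × Fin n, dI Γ I ^ 2 * E x (ones n + degI Γ I) =
      (∏ v, x v) * (∑ I : NE Γ → Fin n × Fin n × Fin n, (∏ a, cf x (I a)) *
        (Matrix.of fun a => vec ℝ Γ (I a)).det ^ 2) := by
    rw [Finset.mul_sum]
    apply Finset.sum_congr rfl
    intro I _
    unfold ones degI dI
    rw [E_add, E_sum, E_sum]
    simp only [E_single, E_texp]
    ring
  have h3 : (∑ c, x c) ^ e = ∑ g : Fin e → Fin n, E x (mu g) := by
    rw [Fintype.sum_pow]
    apply Finset.sum_congr rfl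
    intro g _
    unfold mu
    rw [E_sum]
    simp only [E_single]
  have h4 : ∑ g : Fin e → Fin n, ∑ T ∈ (Finset.univ : Finset (Finset (Sym2 (Fin n)))).filter (IsT Γ),
      (((Fintype.card (NE Γ)).factorial : ℝ) * 6 ^ Fintype.card (NE Γ)) *
        E x (degN Γ + mu g + degT T) =
      (((Fintype.card (NE Γ)).factorial : ℝ) * 6 ^ Fintype.card (NE Γ)) *
        (∏ p : NE Γ, x p.1.1 * x p.1.2) * (∑ c, x c) ^ e *
        ∑ T ∈ (Finset.univ : Finset (Finset (Sym2 (Fin n)))).filter (IsT Γ), E x (degT T) := by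
    rw [h3, mul_assoc, Finset.sum_mul, Finset.mul_sum]
    apply Finset.sum_congr rfl
    intro g _
    rw [Finset.mul_sum, Finset.mul_sum]
    apply Finset.sum_congr rfl
    intro T _
    have h5 : E x (degN Γ) = ∏ p : NE Γ, x p.1.1 * x p.1.2 := by
      unfold degN
      rw [E_sum]
      simp only [E_add, E_single]
    rw [E_add, E_add, h5]
    ring
  rw [h2, h4]
  have hsn : (∑ c, x c) ^ n ≠ 0 := pow_ne_zero _ hs
  apply mul_left_cancel₀ hsn
  linear_combination h1

theorem PL_eq_PR (hn : n ≠ 0) (e : ℕ) (he : n + e = Fintype.card (NE Γ) + 2) :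
    PL Γ = PR Γ e := by
  have h1 : (PL Γ - PR Γ e) * ((∑ c, X c) * ∏ c, X c) = 0 := by
    apply MvPolynomial.funext
    intro x
    rw [map_mul, map_mul, map_sub, map_sum, map_prod, map_zero]
    simp only [eval_X]
    by_cases hx : ∀ i, x i ≠ 0
    · by_cases hs : ∑ c, x c = 0
      · rw [hs]
        ring
      · rw [eval_eq Γ hn e he x hx hs]
        ring
    · push Not at hx
      obtain ⟨i, hi⟩ := hx
      rw [Finset.prod_eq_zero (Finset.mem_univ i) hi]
      ring
  have h2 : (∑ c : Fin n, (X c : MvPolynomial (Fin n) ℝ)) ≠ 0 := by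
    intro h
    have h3 := congrArg (MvPolynomial.eval (fun _ => (1 : ℝ))) h
    rw [map_sum] at h3
    simp at h3
    exact hn h3
  have h3 : (∏ c : Fin n, (X c : MvPolynomial (Fin n) ℝ)) ≠ 0 :=
    Finset.prod_ne_zero_iff.2 fun c _ => X_ne_zero c
  rcases mul_eq_zero.1 h1 with h | h
  · exact sub_eq_zero.1 h
  · exact absurd h (mul_ne_zero h2 h3)

theorem comb (hn : n ≠ 0) (e : ℕ) (he : n + e = Fintype.card (NE Γ) + 2) (α : Fin n →₀ ℕ) :
    (∃ I : NE Γ → Fin n × Fin n × Fin n, dI Γ I ≠ 0 ∧ ones n + degI Γ I = α) ↔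
    (∃ (g : Fin e → Fin n) (T : Finset (Sym2 (Fin n))), IsT Γ T ∧ degN Γ + mu g + degT T = α) := by
  have h1 := congrArg (coeff α) (PL_eq_PR Γ hn e he)
  unfold PL PR at h1
  simp only [coeff_sum, coeff_monomial] at h1
  constructor
  · rintro ⟨I, hI, hα⟩
    by_contra hc
    push Not at hc
    have h2 : ∑ g : Fin e → Fin n, ∑ T ∈ (Finset.univ : Finset (Finset (Sym2 (Fin n)))).filter (IsT Γ),
        (if degN Γ + mu g + degT T = α then
          (((Fintype.card (NE Γ)).factorial : ℝ) * 6 ^ Fintype.card (NE Γ)) else 0) = 0 := by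
      apply Finset.sum_eq_zero
      intro g _
      apply Finset.sum_eq_zero
      intro T hT
      rw [Finset.mem_filter] at hT
      rw [if_neg (hc g T hT.2)]
    rw [h2] at h1
    have h3 := (Finset.sum_eq_zero_iff_of_nonneg (fun I _ => by
      split_ifs
      · positivity
      · exact le_rfl)).1 h1 I (Finset.mem_univ I)
    rw [if_pos hα] at h3
    exact hI (pow_eq_zero_iff (two_ne_zero) |>.1 h3)
  · rintro ⟨g, T, hT, hα⟩
    by_contra hc
    push Not at hc
    have h2 : ∑ I : NE Γ → Fin n × Fin n × Fin n,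
        (if ones n + degI Γ I = α then dI Γ I ^ 2 else 0) = 0 := by
      apply Finset.sum_eq_zero
      intro I _
      split_ifs with h
      · by_cases h0 : dI Γ I = 0
        · rw [h0]
          ring
        · exact absurd h (hc I h0)
      · rfl
    rw [h2] at h1
    have h3 := (Finset.sum_eq_zero_iff_of_nonneg (fun g _ => Finset.sum_nonneg fun T _ => by
      split_ifs
      · positivity
      · exact le_rfl)).1 h1.symm g (Finset.mem_univ g)
    have h4 := (Finset.sum_eq_zero_iff_of_nonneg (fun T _ => by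
      split_ifs
      · positivity
      · exact le_rfl)).1 h3 T (Finset.mem_filter.2 ⟨Finset.mem_univ T, hT⟩)
    rw [if_pos hα] at h4
    have h5 : (((Fintype.card (NE Γ)).factorial : ℝ) * 6 ^ Fintype.card (NE Γ)) ≠ 0 := by
      have := Nat.factorial_ne_zero (Fintype.card (NE Γ))
      positivity
    exact h5 h4

end poly

end Kos
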