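import Pool.Agent.X254.Kos2

open Matrix Finset MvPolynomial
open scoped Classical

set_option linter.unusedSectionVars false
set_option linter.unusedVariables false
set_option linter.unusedSimpArgs false
set_option linter.deprecated false

namespace Kos

/-- the triples `a < b < c` -/
abbrev Tr (n : ℕ) : Type := {t : Fin n × Fin n × Fin n // t.1 < t.2.1 ∧ t.2.1 < t.2.2}

section deg

variable {n : ℕ} (Γ : SimpleGraph (Fin n))

theorem sexp_apply {e : Sym2 (Fin n)} (he : ¬ e.IsDiag) (i : Fin n) :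
    sexp e i = if i ∈ e then 1 else 0 := by
  induction e with
  | _ a b =>
    rw [Sym2.mk_isDiag_iff] at he
    rw [sexp_mk, Finsupp.add_apply, Finsupp.single_apply, Finsupp.single_apply]
    simp only [Sym2.mem_iff]
    by_cases h1 : a = i
    · subst h1
      simp [Ne.symm he]
    · by_cases h2 : b = i
      · subst h2
        simp [h1]
      · simp [h1, h2, Ne.symm h1, Ne.symm h2]

theorem degT_apply (T : Finset (Sym2 (Fin n))) (hT : ∀ e ∈ T, ¬ e.IsDiag) (i : Fin n) :
    degT T i = ((SimpleGraph.fromEdgeSet (T : Set (Sym2 (Fin n)))).neighborSet i).ncard := by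
  unfold degT
  rw [Finsupp.finsetSum_apply, Finset.sum_congr rfl (fun e he => sexp_apply (hT e he) i),
    ← Finset.sum_filter, Finset.sum_const, smul_eq_mul, mul_one]
  have h1 : ((T.filter (fun e => i ∈ e) : Finset (Sym2 (Fin n))) : Set (Sym2 (Fin n))) =
      (fun j => s(i, j)) '' ((SimpleGraph.fromEdgeSet (T : Set (Sym2 (Fin n)))).neighborSet i) := by
    ext e
    simp only [Finset.coe_filter, Set.mem_ofPred_eq, Set.mem_image, SimpleGraph.mem_neighborSet,
      SimpleGraph.fromEdgeSet_adj, Finset.mem_coe]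
    constructor
    · rintro ⟨he, hi⟩
      obtain ⟨j, rfl⟩ := Sym2.mem_iff_exists.1 hi
      refine ⟨j, ⟨he, ?_⟩, rfl⟩
      rintro rfl
      exact hT _ he (by simp)
    · rintro ⟨j, ⟨h1, h2⟩, rfl⟩
      exact ⟨h1, by simp⟩
  rw [← Set.ncard_coe_finset, h1, Set.ncard_image_of_injOn]
  intro a _ b _ h
  have h2 : s(i, a) = s(i, b) := h
  rw [Sym2.eq_iff] at h2
  rcases h2 with ⟨_, h3⟩ | ⟨h3, h4⟩
  · exact h3
  · rw [h4, ← h3]

theorem IsT_nd {T : Finset (Sym2 (Fin n))} (hT : IsT Γ T) : ∀ e ∈ T, ¬ e.IsDiag := by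
  intro e he
  exact Γ.not_isDiag_of_mem_edgeSet (hT.2 e he)

theorem ones_apply (i : Fin n) : ones n i = 1 := by
  unfold ones
  rw [Finsupp.finsetSum_apply]
  simp [Finsupp.single_apply]

theorem ones_le (hn : 2 ≤ n) {T : Finset (Sym2 (Fin n))} (hT : IsT Γ T) : ones n ≤ degT T := by
  intro i
  have : Nontrivial (Fin n) := Fin.nontrivial_iff_two_le.2 hn
  rw [ones_apply, degT_apply T (IsT_nd Γ hT) i, Nat.one_le_iff_ne_zero]
  obtain ⟨j, hj⟩ := hT.1.connected.preconnected.exists_adj_of_nontrivial i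
  intro h0
  rw [Set.ncard_eq_zero (Set.toFinite _)] at h0
  have : j ∈ (SimpleGraph.fromEdgeSet (T : Set (Sym2 (Fin n)))).neighborSet i := hj
  rw [h0] at this
  exact this

end deg

section sort

variable {n : ℕ} (Γ : SimpleGraph (Fin n))

theorem sort_lemma (t : Fin n × Fin n × Fin n) :
    (∀ i j, Av ℝ t.1 t.2.1 t.2.2 i j = 0) ∨
    ∃ t' : Tr n, ∃ ε : ℝ, ε ≠ 0 ∧ texp t'.1 = texp t ∧
      ∀ i j, Av ℝ t'.1.1 t'.1.2.1 t'.1.2.2 i j = ε * Av ℝ t.1 t.2.1 t.2.2 i j := by
  obtain ⟨a, b, c⟩ := t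
  have key : ∀ a b c : Fin n, a ≤ b → b ≤ c →
      (∀ i j, Av ℝ a b c i j = 0) ∨ (a < b ∧ b < c) := by
    intro a b c hab hbc
    rcases hab.lt_or_eq with h1 | h1
    · rcases hbc.lt_or_eq with h2 | h2
      · exact Or.inr ⟨h1, h2⟩
      · left
        subst h2
        intro i j
        unfold Av Pv
        ring
    · left
      subst h1
      intro i j
      unfold Av Pv
      ring
  have fin : ∀ a' b' c' : Fin n, ∀ ε : ℝ, ε ≠ 0 → a' ≤ b' → b' ≤ c' →
      texp (a', b', c') = texp (a, b, c) →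
      (∀ i j, Av ℝ a' b' c' i j = ε * Av ℝ a b c i j) →
      ((∀ i j, Av ℝ a b c i j = 0) ∨
      ∃ t' : Tr n, ∃ ε : ℝ, ε ≠ 0 ∧ texp t'.1 = texp (a, b, c) ∧
        ∀ i j, Av ℝ t'.1.1 t'.1.2.1 t'.1.2.2 i j = ε * Av ℝ a b c i j) := by
    intro a' b' c' ε hε h1 h2 h3 h4
    rcases key a' b' c' h1 h2 with h5 | h5
    · left
      intro i j
      have := h4 i j
      rw [h5 i j] at this
      exact (mul_eq_zero.1 this.symm).resolve_left hε
    · right
      exact ⟨⟨(a', b', c'), h5⟩, ε, hε, h3, h4⟩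
  simp only
  rcases le_total a b with h1 | h1 <;> rcases le_total b c with h2 | h2 <;>
    rcases le_total a c with h3 | h3
  · exact fin a b c 1 one_ne_zero h1 h2 rfl (fun i j => by ring)
  · exact fin a b c 1 one_ne_zero h1 h2 rfl (fun i j => by ring)
  · exact fin a c b (-1) (by norm_num) h3 h2 (by unfold texp; simp only; abel)
      (fun i j => by unfold Av Pv; ring)
  · exact fin c a b 1 one_ne_zero h3 h1 (by unfold texp; simp only; abel)
      (fun i j => by unfold Av Pv; ring)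
  · exact fin b a c (-1) (by norm_num) h1 h3 (by unfold texp; simp only; abel)
      (fun i j => by unfold Av Pv; ring)
  · exact fin b c a 1 one_ne_zero h2 h3 (by unfold texp; simp only; abel)
      (fun i j => by unfold Av Pv; ring)
  · exact fin c b a (-1) (by norm_num) h2 h1 (by unfold texp; simp only; abel)
      (fun i j => by unfold Av Pv; ring)
  · exact fin c b a (-1) (by norm_num) h2 h1 (by unfold texp; simp only; abel)
      (fun i j => by unfold Av Pv; ring)

theorem sort_I (I : NE Γ → Fin n × Fin n × Fin n) (h : dI Γ I ≠ 0) :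
    ∃ J : NE Γ → Tr n, dI Γ (fun a => (J a).1) ≠ 0 ∧ degI Γ (fun a => (J a).1) = degI Γ I := by
  have h1 : ∀ a, ∃ t' : Tr n, ∃ ε : ℝ, ε ≠ 0 ∧ texp t'.1 = texp (I a) ∧
      ∀ i j, Av ℝ t'.1.1 t'.1.2.1 t'.1.2.2 i j = ε * Av ℝ (I a).1 (I a).2.1 (I a).2.2 i j := by
    intro a
    refine (sort_lemma (I a)).resolve_left ?_
    intro h0
    apply h
    unfold dI
    apply Matrix.det_eq_zero_of_row_eq_zero a
    intro p
    exact h0 _ _
  choose J ε hε hJ hA using h1
  refine ⟨J, ?_, ?_⟩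
  · have h2 : (Matrix.of fun a => vec ℝ Γ (J a).1) = Matrix.of fun a p =>
        ε a * (Matrix.of fun a => vec ℝ Γ (I a)) a p := by
      ext a p
      exact hA a _ _
    unfold dI at h ⊢
    rw [h2, det_mul_column]
    exact mul_ne_zero (Finset.prod_ne_zero_iff.2 fun a _ => hε a) h
  · unfold degI
    exact Finset.sum_congr rfl fun a _ => hJ a

end sort

section ideals

variable {n : ℕ} (Γ : SimpleGraph (Fin n)) (k : Type*) [Field k]

/-- the presentation matrix -/
noncomputable def pres : Matrix (NE Γ) (Tr n) (MvPolynomial (Fin n) k) := Matrix.of fun p t =>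
  if p.1 = (t.1.1, t.1.2.1) then X t.1.2.2
  else if p.1 = (t.1.1, t.1.2.2) then - X t.1.2.1
  else if p.1 = (t.1.2.1, t.1.2.2) then X t.1.1
  else 0

/-- the integral determinant -/
noncomputable def dZ (I : NE Γ → Fin n × Fin n × Fin n) : ℤ :=
  (Matrix.of fun a => vec ℤ Γ (I a)).det

theorem dZ_cast (R : Type*) [CommRing R] (I : NE Γ → Fin n × Fin n × Fin n) :
    (Matrix.of fun a => vec R Γ (I a)).det = (dZ Γ I : R) := by
  have h1 := RingHom.map_det (Int.castRingHom R) (Matrix.of fun a => vec ℤ Γ (I a))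
  unfold dZ
  rw [eq_intCast] at h1
  rw [h1]
  congr 1
  ext a p
  simp [vec, Av, Pv, d, RingHom.mapMatrix_apply]

theorem dI_eq (I : NE Γ → Fin n × Fin n × Fin n) : dI Γ I = (dZ Γ I : ℝ) := dZ_cast Γ ℝ I

theorem entry (p : NE Γ) (t : Tr n) : (X p.1.1 * X p.1.2 : MvPolynomial (Fin n) k) * pres Γ k p t =
    (X t.1.1 * X t.1.2.1 * X t.1.2.2) * vec (MvPolynomial (Fin n) k) Γ t.1 p := by
  obtain ⟨⟨i, j⟩, hij, hadj⟩ := p
  obtain ⟨⟨a, b, c⟩, hab, hbc⟩ := t
  simp only at hij hab hbc
  unfold pres vec Av Pv d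
  simp only [Matrix.of_apply, Prod.mk.injEq]
  have hac : a < c := hab.trans hbc
  by_cases h1 : i = a
  · subst h1
    by_cases h2 : j = b
    · subst h2
      simp [hab.ne, hab.ne', hbc.ne, hbc.ne', hac.ne, hac.ne']
    · by_cases h3 : j = c
      · subst h3
        simp [hab.ne, hab.ne', hbc.ne, hbc.ne', hac.ne, hac.ne']
        ring
      · simp [hab.ne, hab.ne', hac.ne, hac.ne', h2, h3, Ne.symm h2, Ne.symm h3, hij.ne]
  · by_cases h2 : i = b
    · subst h2
      by_cases h3 : j = c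
      · subst h3
        simp [hab.ne, hab.ne', hbc.ne, hbc.ne', hac.ne, hac.ne']
        ring
      · have h4 : a ≠ j := (hab.trans hij).ne
        simp [hab.ne, hab.ne', hbc.ne, hbc.ne', h3, Ne.symm h3, h4, hij.ne]
    · have h3 : a ≠ i := Ne.symm h1
      have h4 : b ≠ i := Ne.symm h2
      by_cases h5 : c = i
      · subst h5
        have h6 : a ≠ j := (hac.trans hij).ne
        have h7 : b ≠ j := (hbc.trans hij).ne
        simp [h1, h2, h6, h7, h3, h4, hij.ne]
      · simp [h1, h2, h3, h4, h5]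

theorem mon_texp (t : Fin n × Fin n × Fin n) :
    (monomial (texp t) 1 : MvPolynomial (Fin n) k) = X t.1 * X t.2.1 * X t.2.2 := by
  unfold texp
  rw [X, X, X, monomial_mul, monomial_mul, one_mul, one_mul]

theorem minor_eq (I : NE Γ → Tr n) :
    (monomial (degN Γ) 1 : MvPolynomial (Fin n) k) * ((pres Γ k).submatrix id I).det =
      monomial (degI Γ (fun a => (I a).1)) ((dZ Γ (fun a => (I a).1) : ℤ) : k) := by
  have h1 : (monomial (degN Γ) 1 : MvPolynomial (Fin n) k) = ∏ p : NE Γ, (X p.1.1 * X p.1.2) := by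
    unfold degN
    rw [monomial_sum_one]
    apply Finset.prod_congr rfl
    intro p _
    rw [X, X, monomial_mul, one_mul]
  have h2 : (monomial (degI Γ (fun a => (I a).1)) 1 : MvPolynomial (Fin n) k) =
      ∏ a, (X (I a).1.1 * X (I a).1.2.1 * X (I a).1.2.2) := by
    unfold degI
    rw [monomial_sum_one]
    exact Finset.prod_congr rfl fun a _ => mon_texp k _
  rw [h1, ← det_mul_column]
  have h3 : (Matrix.of fun p a => (X p.1.1 * X p.1.2 : MvPolynomial (Fin n) k) *
      ((pres Γ k).submatrix id I) p a) = Matrix.of fun p a =>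
      (X (I a).1.1 * X (I a).1.2.1 * X (I a).1.2.2 : MvPolynomial (Fin n) k) *
      ((Matrix.of fun a => vec (MvPolynomial (Fin n) k) Γ (I a).1)ᵀ) p a := by
    ext1 p a
    exact entry Γ k p (I a)
  rw [h3, det_mul_row, det_transpose, dZ_cast Γ _ (fun a => (I a).1), ← h2]
  rw [← map_intCast (C : k →+* MvPolynomial (Fin n) k), mul_comm, C_mul_monomial, mul_one]

variable [CharZero k]

theorem minor_zero (I : NE Γ → Tr n) (h : dZ Γ (fun a => (I a).1) = 0) :
    ((pres Γ k).submatrix id I).det = 0 := by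
  have h1 := minor_eq Γ k I
  rw [h, Int.cast_zero, monomial_zero] at h1
  refine (mul_eq_zero.1 h1).resolve_left ?_
  rw [monomial_eq_zero]
  exact one_ne_zero

theorem minor_nonzero (I : NE Γ → Tr n) (h : dZ Γ (fun a => (I a).1) ≠ 0) :
    degN Γ ≤ degI Γ (fun a => (I a).1) ∧ ((pres Γ k).submatrix id I).det =
      monomial (degI Γ (fun a => (I a).1) - degN Γ) ((dZ Γ (fun a => (I a).1) : ℤ) : k) := by
  have h1 := minor_eq Γ k I
  have hk : ((dZ Γ (fun a => (I a).1) : ℤ) : k) ≠ 0 := Int.cast_ne_zero.2 h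
  have h2 : (monomial (degN Γ) 1 : MvPolynomial (Fin n) k) ∣
      monomial (degI Γ (fun a => (I a).1)) ((dZ Γ (fun a => (I a).1) : ℤ) : k) := ⟨_, h1.symm⟩
  rw [monomial_dvd_monomial] at h2
  have h3 := h2.1.resolve_left hk
  refine ⟨h3, ?_⟩
  have h4 : (monomial (degN Γ) 1 : MvPolynomial (Fin n) k) ≠ 0 := by
    rw [Ne, monomial_eq_zero]
    exact one_ne_zero
  apply mul_left_cancel₀ h4
  rw [h1, monomial_mul, one_mul, add_tsub_cancel_of_le h3]

/-- the ideal of maximal minors -/
noncomputable def Fitt : Ideal (MvPolynomial (Fin n) k) := Ideal.span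
  {f | ∃ I : NE Γ → Tr n, Function.Injective I ∧ f = ((pres Γ k).submatrix id I).det}

noncomputable def mT (T : SimpleGraph (Fin n)) : MvPolynomial (Fin n) k :=
  ∏ i, X i ^ ((T.neighborSet i).ncard - 1)

noncomputable def IT : Ideal (MvPolynomial (Fin n) k) :=
  Ideal.span {f | ∃ T : SimpleGraph (Fin n), T ≤ Γ ∧ T.IsTree ∧ f = mT k T}

theorem mT_eq (hn : 2 ≤ n) {T : Finset (Sym2 (Fin n))} (hT : IsT Γ T) :
    mT k (SimpleGraph.fromEdgeSet (T : Set (Sym2 (Fin n)))) = monomial (degT T - ones n) 1 := by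
  unfold mT
  rw [monomial_eq, C_1, one_mul, Finsupp.prod_fintype _ _ (fun i => pow_zero _)]
  apply Finset.prod_congr rfl
  intro i _
  rw [Finsupp.tsub_apply, ones_apply, degT_apply T (IsT_nd Γ hT)]

theorem mu_mem {e : ℕ} (g : Fin e → Fin n) :
    (monomial (mu g) 1 : MvPolynomial (Fin n) k) ∈
      (Ideal.span (Set.range (X : Fin n → MvPolynomial (Fin n) k))) ^ e := by
  unfold mu
  rw [monomial_sum_one]
  have h1 := Ideal.prod_mem_prod (s := (Finset.univ : Finset (Fin e)))
    (I := fun _ => Ideal.span (Set.range (X : Fin n → MvPolynomial (Fin n) k)))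
    (x := fun t => (monomial (Finsupp.single (g t) 1) 1 : MvPolynomial (Fin n) k))
    (fun t _ => Ideal.subset_span ⟨g t, rfl⟩)
  simpa using h1

theorem pow_le (e : ℕ) : (Ideal.span (Set.range (X : Fin n → MvPolynomial (Fin n) k))) ^ e ≤
    Ideal.span (Set.range fun g : Fin e → Fin n => (monomial (mu g) 1 : MvPolynomial (Fin n) k)) := by
  induction e with
  | zero =>
    rw [pow_zero, Ideal.one_eq_top]
    intro x _
    have h1 : (1 : MvPolynomial (Fin n) k) ∈ Ideal.span (Set.range fun g : Fin 0 → Fin n =>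
        (monomial (mu g) 1 : MvPolynomial (Fin n) k)) := by
      apply Ideal.subset_span
      refine ⟨Fin.elim0, ?_⟩
      simp [mu]
    have h2 := Ideal.mul_mem_left _ x h1
    rwa [mul_one] at h2
  | succ e ih =>
    rw [pow_succ]
    refine (Ideal.mul_mono_left ih).trans ?_
    rw [Ideal.span_mul_span', Ideal.span_le]
    rintro _ ⟨_, ⟨g, rfl⟩, _, ⟨i, rfl⟩, rfl⟩
    apply Ideal.subset_span
    refine ⟨Fin.snoc g i, ?_⟩
    simp only [mu, Fin.sum_univ_castSucc, Fin.snoc_castSucc, Fin.snoc_last]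
    rw [X, monomial_mul, one_mul]

theorem main (hn : 2 ≤ n) (hcard : n ≤ Fintype.card (NE Γ) + 2) :
    Fitt Γ k = IT Γ k *
      (Ideal.span (Set.range (X : Fin n → MvPolynomial (Fin n) k))) ^ (Fintype.card (NE Γ) + 2 - n) := by
  set e := Fintype.card (NE Γ) + 2 - n with he
  have he' : n + e = Fintype.card (NE Γ) + 2 := by omega
  have hcomb := comb Γ (by omega) e he'
  apply le_antisymm
  · unfold Fitt
    rw [Ideal.span_le]
    rintro _ ⟨I, _, rfl⟩
    by_cases h0 : dZ Γ (fun a => (I a).1) = 0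
    · rw [minor_zero Γ k I h0]
      exact Ideal.zero_mem _
    · obtain ⟨hle, hdet⟩ := minor_nonzero Γ k I h0
      have h1 : dI Γ (fun a => (I a).1) ≠ 0 := by
        rw [dI_eq]
        exact Int.cast_ne_zero.2 h0
      obtain ⟨g, T, hT, hα⟩ := (hcomb _).1 ⟨_, h1, rfl⟩
      have hones := ones_le Γ hn hT
      have h2 : degI Γ (fun a => (I a).1) - degN Γ = (degT T - ones n) + mu g := by
        ext i
        have h3 := DFunLike.congr_fun hα i
        have h4 := hones i
        simp only [Finsupp.add_apply, Finsupp.tsub_apply] at h3 h4 ⊢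
        omega
      rw [hdet, h2]
      have h3 : (monomial (degT T - ones n + mu g) ((dZ Γ (fun a => (I a).1) : ℤ) : k)) =
          C ((dZ Γ (fun a => (I a).1) : ℤ) : k) *
            (mT k (SimpleGraph.fromEdgeSet (T : Set (Sym2 (Fin n)))) * monomial (mu g) 1) := by
        rw [mT_eq Γ k hn hT, monomial_mul, one_mul, C_mul_monomial, mul_one]
      rw [h3]
      apply Ideal.mul_mem_left
      apply Ideal.mul_mem_mul _ (mu_mem k g)
      apply Ideal.subset_span
      refine ⟨_, ?_, hT.1, rfl⟩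
      intro a b hab
      rw [SimpleGraph.fromEdgeSet_adj] at hab
      exact hT.2 _ hab.1
  · refine (Ideal.mul_mono_right (pow_le k e)).trans ?_
    unfold IT
    rw [Ideal.span_mul_span', Ideal.span_le]
    rintro _ ⟨_, ⟨T, hTΓ, hTree, rfl⟩, _, ⟨g, rfl⟩, rfl⟩
    have hT : IsT Γ T.edgeFinset := by
      refine ⟨?_, ?_⟩
      · rw [SimpleGraph.coe_edgeFinset, SimpleGraph.fromEdgeSet_edgeSet]
        exact hTree
      · intro e he
        rw [SimpleGraph.mem_edgeFinset] at he
        exact SimpleGraph.edgeSet_mono hTΓ he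
    have hTeq : mT k T = monomial (degT T.edgeFinset - ones n) 1 := by
      rw [← mT_eq Γ k hn hT, SimpleGraph.coe_edgeFinset, SimpleGraph.fromEdgeSet_edgeSet]
    obtain ⟨I, hI, hα⟩ := (hcomb _).2 ⟨g, T.edgeFinset, hT, rfl⟩
    obtain ⟨J, hJ, hJI⟩ := sort_I Γ I hI
    have hJ0 : dZ Γ (fun a => (J a).1) ≠ 0 := by
      rw [dI_eq] at hJ
      exact Int.cast_ne_zero.1 hJ
    obtain ⟨hle, hdet⟩ := minor_nonzero Γ k J hJ0
    have hones := ones_le Γ hn hT
    rw [← hJI] at hα
    have h2 : degI Γ (fun a => (J a).1) - degN Γ = (degT T.edgeFinset - ones n) + mu g := by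
      ext i
      have h3 := DFunLike.congr_fun hα i
      have h4 := hones i
      simp only [Finsupp.add_apply, Finsupp.tsub_apply] at h3 h4 ⊢
      omega
    have hk : ((dZ Γ (fun a => (J a).1) : ℤ) : k) ≠ 0 := Int.cast_ne_zero.2 hJ0
    have h3 : mT k T * monomial (mu g) 1 = C (((dZ Γ (fun a => (J a).1) : ℤ) : k)⁻¹) *
        ((pres Γ k).submatrix id J).det := by
      rw [hdet, h2, hTeq, monomial_mul, one_mul, C_mul_monomial, inv_mul_cancel₀ hk]
    change mT k T * monomial (mu g) 1 ∈ _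
    rw [h3]
    apply Ideal.mul_mem_left
    apply Ideal.subset_span
    refine ⟨J, ?_, rfl⟩
    intro a b hab
    by_contra hne
    apply hJ
    unfold dI
    exact Matrix.det_zero_of_row_eq hne (by
      ext p
      change vec ℝ Γ (J a).1 p = vec ℝ Γ (J b).1 p
      rw [hab])

end ideals

end Kos
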