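import Mathlib

/-! # Fields with 343 elements: the model `(ZMod 7)^3`, `ζ^3 = 2`, and the Dickson multiplication -/

set_option autoImplicit false

namespace Pool.Agent.X254.NF

/-- triples -/
abbrev M := ZMod 7 × ZMod 7 × ZMod 7

/-- multiplication of the model -/
def mulM (x y : M) : M :=
  (x.1 * y.1 + 2 * (x.2.1 * y.2.2 + x.2.2 * y.2.1),
    x.1 * y.2.1 + x.2.1 * y.1 + 2 * (x.2.2 * y.2.2),
    x.1 * y.2.2 + x.2.1 * y.2.1 + x.2.2 * y.1)

/-- Frobenius -/
def sigM (x : M) : M := (x.1, 4 * x.2.1, 2 * x.2.2)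

/-- norm -/
def nrM (x : M) : ZMod 7 :=
  x.1 ^ 3 + 2 * x.2.1 ^ 3 + 4 * x.2.2 ^ 3 + x.1 * x.2.1 * x.2.2

/-- the class -/
def clM (y : M) : ℕ := if nrM y ^ 2 = 4 then 1 else if nrM y ^ 2 = 2 then 2 else 0

/-- the multiplication of the nearfield -/
def nmM (x y : M) : M := mulM (sigM^[clM y] x) y

lemma norm_id : ∀ a b c : ZMod 7,
    mulM (mulM (a, b, c) (sigM (a, b, c))) (sigM (sigM (a, b, c))) = (nrM (a, b, c), 0, 0) := by
  decide +kernel

lemma norm_ne : ∀ a b c : ZMod 7, nrM (a, b, c) = 0 → (a, b, c) = ((0, 0, 0) : M) := by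
  decide +kernel

section K

variable {K : Type} [Field K]

lemma charP_of_card (h : Nat.card K = 343) : CharP K 7 := by
  have hf : Finite K := Nat.finite_of_card_ne_zero (by rw [h]; norm_num)
  have := Fintype.ofFinite K
  obtain ⟨p, hp⟩ := CharP.exists K
  obtain ⟨n, hpp, hc⟩ := FiniteField.card K p
  rw [← Nat.card_eq_fintype_card, h] at hc
  have h7 : p ∣ 7 ^ 3 := by
    have : p ∣ p ^ (n : ℕ) := dvd_pow_self p n.pos.ne'
    rw [← hc] at this
    norm_num
    exact this
  have h8 : p = 7 := (Nat.prime_dvd_prime_iff_eq hpp (by norm_num)).1 (hpp.dvd_of_dvd_pow h7)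
  rw [← h8]
  exact hp

lemma pow_card_sub (h : Nat.card K = 343) {y : K} (hy : y ≠ 0) : y ^ 342 = 1 := by
  have hf : Finite K := Nat.finite_of_card_ne_zero (by rw [h]; norm_num)
  have := Fintype.ofFinite K
  have h1 := FiniteField.pow_card_sub_one_eq_one y hy
  rw [← Nat.card_eq_fintype_card, h] at h1
  exact h1

lemma pow_card' (h : Nat.card K = 343) (y : K) : y ^ 343 = y := by
  by_cases hy : y = 0
  · rw [hy]
    simp
  · rw [pow_succ, pow_card_sub h hy, one_mul]

lemma seven (h : Nat.card K = 343) : (7 : K) = 0 := by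
  have := charP_of_card h
  exact_mod_cast CharP.cast_eq_zero K 7

lemma two_ne (h : Nat.card K = 343) : (2 : K) ≠ 0 := by
  intro h2
  have h7 := seven h
  have : (1 : K) = 0 := by linear_combination h7 - 3 * h2
  exact one_ne_zero this

lemma four_ne_two (h : Nat.card K = 343) : (4 : K) ≠ 2 := by
  intro h2
  exact two_ne h (by linear_combination h2)

lemma four_ne_one (h : Nat.card K = 343) : (4 : K) ≠ 1 := by
  intro h2
  have h7 := seven h
  have : (1 : K) = 0 := by linear_combination h7 - 2 * h2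
  exact one_ne_zero this

lemma two_ne_one : (2 : K) ≠ 1 := by
  intro h2
  have : (1 : K) = 0 := by linear_combination h2
  exact one_ne_zero this

lemma cube_one (h : Nat.card K = 343) {w : K} (hw : w ^ 3 = 1) : w = 1 ∨ w = 2 ∨ w = 4 := by
  have h7 := seven h
  have h1 : (w - 1) * ((w - 2) * (w - 4)) = 0 := by
    linear_combination hw + (-w ^ 2 + 2 * w - 1) * h7
  rcases mul_eq_zero.1 h1 with h2 | h2
  · exact Or.inl (sub_eq_zero.1 h2)
  · rcases mul_eq_zero.1 h2 with h3 | h3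
    · exact Or.inr (Or.inl (sub_eq_zero.1 h3))
    · exact Or.inr (Or.inr (sub_eq_zero.1 h3))

/-- a cube root of two -/
lemma exists_zeta (h : Nat.card K = 343) : ∃ ζ : K, ζ ^ 3 = 2 := by
  have hf : Finite K := Nat.finite_of_card_ne_zero (by rw [h]; norm_num)
  have h7 := seven h
  obtain ⟨g, hg⟩ := IsCyclic.exists_generator (α := Kˣ)
  let t : Kˣ := Units.mk0 2 (two_ne h)
  obtain ⟨n, hn⟩ := Subgroup.mem_zpowers_iff.1 (hg t)
  have ho : orderOf g = 342 := by
    rw [orderOf_eq_card_of_forall_mem_zpowers hg, Nat.card_units, h]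
  have ht : t ^ 3 = 1 := by
    apply Units.ext
    change (2 : K) ^ 3 = 1
    linear_combination h7
  have h3 : g ^ (n * 3) = 1 := by rw [zpow_mul, hn]; exact_mod_cast ht
  have h4 : ((342 : ℕ) : ℤ) ∣ n * 3 := by
    rw [← ho]
    exact orderOf_dvd_iff_zpow_eq_one.2 h3
  obtain ⟨m, hm⟩ : (3 : ℤ) ∣ n := by
    push_cast at h4
    omega
  refine ⟨((g ^ m : Kˣ) : K), ?_⟩
  have h5 : (g ^ m) ^ 3 = t := by
    rw [← hn, hm, mul_comm, zpow_mul]
    norm_cast
  have h6 := congrArg Units.val h5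
  rw [Units.val_pow_eq_pow_val] at h6
  exact h6

variable (ζ : K)

/-- the prime field -/
noncomputable def io (K : Type) [Field K] (h : Nat.card K = 343) : ZMod 7 →+* K :=
  haveI := charP_of_card h
  ZMod.castHom (dvd_refl 7) K

/-- the elements of the model -/
noncomputable def ph (h : Nat.card K = 343) (x : M) : K :=
  io K h x.1 + io K h x.2.1 * ζ + io K h x.2.2 * ζ ^ 2

variable {ζ} (h : Nat.card K = 343) (hz : ζ ^ 3 = 2)

lemma ph_add (x y : M) : ph ζ h x + ph ζ h y = ph ζ h (x + y) := by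
  unfold ph
  simp only [Prod.fst_add, Prod.snd_add, map_add]
  ring

lemma ph_neg (x : M) : - ph ζ h x = ph ζ h (-x) := by
  unfold ph
  simp only [Prod.fst_neg, Prod.snd_neg, map_neg]
  ring

include hz in
lemma ph_mul (x y : M) : ph ζ h x * ph ζ h y = ph ζ h (mulM x y) := by
  unfold ph mulM
  simp only [map_add, map_mul, map_ofNat]
  linear_combination (io K h x.2.1 * io K h y.2.2 + io K h x.2.2 * io K h y.2.1 +
    io K h x.2.2 * io K h y.2.2 * ζ) * hz

include hz in
lemma ph_frob (x : M) : ph ζ h x ^ 7 = ph ζ h (sigM x) := by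
  have hc := charP_of_card h
  have hp : Fact (Nat.Prime 7) := ⟨by norm_num⟩
  have hex : ExpChar K 7 := ExpChar.prime hp.out
  have h7 := seven h
  have hi : ∀ a : ZMod 7, io K h a ^ 7 = io K h a := by
    intro a
    rw [← map_pow, ZMod.pow_card]
  have hz7 : ζ ^ 7 = 4 * ζ := by
    linear_combination (ζ ^ 4 + 2 * ζ) * hz
  unfold ph sigM
  rw [add_pow_char, add_pow_char, mul_pow, mul_pow, hi, hi, hi, ← pow_mul,
    show 2 * 7 = 7 * 2 by norm_num, pow_mul, hz7]
  simp only [map_mul, map_ofNat]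
  linear_combination (2 * io K h x.2.2 * ζ ^ 2) * h7

lemma ph_zero : ph ζ h (0, 0, 0) = 0 := by
  unfold ph
  simp

lemma ph_one : ph ζ h (1, 0, 0) = 1 := by
  unfold ph
  simp

include hz in
lemma ph_57 (x : M) : ph ζ h x ^ 57 = io K h (nrM x) := by
  have h1 : ph ζ h x ^ 57 = ph ζ h x * ph ζ h x ^ 7 * (ph ζ h x ^ 7) ^ 7 := by ring
  rw [h1, ph_frob h hz, ph_frob h hz, ph_mul h hz, ph_mul h hz]
  obtain ⟨a, b, c⟩ := x
  rw [norm_id]
  unfold ph
  simp

include hz in
lemma ph_inj {x y : M} (hxy : ph ζ h x = ph ζ h y) : x = y := by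
  have h1 : ph ζ h (x + -y) = 0 := by
    rw [← ph_add, ← ph_neg, hxy, add_neg_cancel]
  have h2 := ph_57 h hz (x + -y)
  rw [h1, zero_pow (by norm_num)] at h2
  have hp : Fact (Nat.Prime 7) := ⟨by norm_num⟩
  have h3 : nrM (x + -y) = 0 := by
    apply (io K h).injective
    rw [← h2, map_zero]
  have h4 := norm_ne (x + -y).1 (x + -y).2.1 (x + -y).2.2 h3
  have h5 : x + -y = 0 := h4
  exact (add_neg_eq_zero.1 h5)

end K

end Pool.Agent.X254.NF
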