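import Pool.Agent.X254.NF1

/-! # In the field designs with `q = 343` and `g = 9` two blocks meet in at most two points -/

set_option autoImplicit false

namespace Pool.Agent.X254.NF

/-- the ninth roots of unity in the model -/
def L9 : List M := [(1,0,0),(2,0,0),(4,0,0),(0,1,0),(0,2,0),(0,4,0),(0,0,1),(0,0,2),(0,0,4)]

/-- the model of `1 - u` -/
def sb (u : M) : M := (1,0,0) + -u

lemma ratio_check : ∀ u ∈ L9, ∀ v ∈ L9, ∀ u' ∈ L9, ∀ v' ∈ L9,
    mulM (sb u) (sb v') = mulM (sb v) (sb u') → u = (1,0,0) ∨ v = (1,0,0) ∨ u' = (1,0,0) ∨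
      v' = (1,0,0) ∨ u = v ∨ u' = v' ∨ (u = u' ∧ v = v') := by
  decide +kernel

section K

variable {K : Type} [Field K] {ζ : K} (h : Nat.card K = 343) (hz : ζ ^ 3 = 2)

include h hz in
lemma zeta_ne : ζ ≠ 0 := by
  intro h0
  rw [h0, zero_pow (by norm_num)] at hz
  exact two_ne h hz.symm

include h hz in
lemma ninth {y : K} (hy : y ^ 9 = 1) : ∃ v ∈ L9, y = ph ζ h v := by
  have h7 := seven h
  have hz0 := zeta_ne h hz
  have h1 : (y ^ 3) ^ 3 = 1 := by rw [← pow_mul]; exact hy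
  have key : ∀ x : K, x ^ 3 = 1 → ∀ a b c : ZMod 7, (a, b, c) ∈ L9 → (2 * a, 2 * b, 2 * c) ∈ L9 →
      (4 * a, 4 * b, 4 * c) ∈ L9 → y = x * ph ζ h (a, b, c) → ∃ v ∈ L9, y = ph ζ h v := by
    intro x hx a b c m1 m2 m4 hyx
    rcases cube_one h hx with h2 | h2 | h2
    · exact ⟨_, m1, by rw [hyx, h2, one_mul]⟩
    · refine ⟨_, m2, ?_⟩
      rw [hyx, h2]
      unfold ph
      simp only [map_mul, map_ofNat]
      ring
    · refine ⟨_, m4, ?_⟩
      rw [hyx, h2]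
      unfold ph
      simp only [map_mul, map_ofNat]
      ring
  rcases cube_one h h1 with h2 | h2 | h2
  · exact key y h2 1 0 0 (by decide) (by decide) (by decide) (by rw [ph_one, mul_one])
  · have e : ph ζ h (0, 1, 0) = ζ := by unfold ph; simp
    refine key (y / ζ) ?_ 0 1 0 (by decide) (by decide) (by decide) ?_
    · rw [div_pow, h2, hz, div_self (two_ne h)]
    · rw [e, div_mul_cancel₀ _ hz0]
  · have e : ph ζ h (0, 0, 1) = ζ ^ 2 := by unfold ph; simp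
    refine key (y / ζ ^ 2) ?_ 0 0 1 (by decide) (by decide) (by decide) ?_
    · rw [div_pow, h2, ← pow_mul, mul_comm 2 3, pow_mul, hz]
      have : (2 : K) ^ 2 = 4 := by norm_num
      rw [this, div_self]
      intro h4
      have h5 : (2 : K) * 2 = 0 := by linear_combination h4
      exact two_ne h (mul_self_eq_zero.1 h5)
    · rw [e, div_mul_cancel₀ _ (pow_ne_zero 2 hz0)]

include h hz in
lemma ratio {u v u' v' : K} (hu : u ^ 9 = 1) (hv : v ^ 9 = 1) (hu' : u' ^ 9 = 1) (hv' : v' ^ 9 = 1)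
    (e : (1 - u) * (1 - v') = (1 - v) * (1 - u')) (h1 : u ≠ 1) (h2 : v ≠ 1) (h3 : u' ≠ 1)
    (h4 : v' ≠ 1) (h5 : u ≠ v) (h6 : u' ≠ v') : u = u' ∧ v = v' := by
  obtain ⟨a, ha, rfl⟩ := ninth h hz hu
  obtain ⟨b, hb, rfl⟩ := ninth h hz hv
  obtain ⟨a', ha', rfl⟩ := ninth h hz hu'
  obtain ⟨b', hb', rfl⟩ := ninth h hz hv'
  have hs : ∀ x : M, 1 - ph ζ h x = ph ζ h (sb x) := by
    intro x
    unfold sb
    rw [← ph_add, ← ph_neg, ph_one, sub_eq_add_neg]
  rw [hs, hs, hs, hs, ph_mul h hz, ph_mul h hz] at e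
  have e' := ph_inj h hz e
  have hne : ∀ x : M, ph ζ h x ≠ 1 → x ≠ (1, 0, 0) := by
    rintro x hx rfl
    exact hx (ph_one h)
  rcases ratio_check a ha b hb a' ha' b' hb' e' with q | q | q | q | q | q | q
  · exact absurd q (hne _ h1)
  · exact absurd q (hne _ h2)
  · exact absurd q (hne _ h3)
  · exact absurd q (hne _ h4)
  · exact absurd (by rw [q]) h5
  · exact absurd (by rw [q]) h6
  · exact ⟨by rw [q.1], by rw [q.2]⟩

include h in
/-- two blocks with three common points are equal -/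
theorem field_blocks (G : Subgroup Kˣ) (hG : Nat.card G = 9) {s t : Kˣ} {a b p q r : K}
    (hpq : p ≠ q) (hpr : p ≠ r) (hqr : q ≠ r)
    (p1 : ∃ x ∈ G, p = (x : K) * s + a) (q1 : ∃ x ∈ G, q = (x : K) * s + a)
    (r1 : ∃ x ∈ G, r = (x : K) * s + a) (p2 : ∃ x ∈ G, p = (x : K) * t + b)
    (q2 : ∃ x ∈ G, q = (x : K) * t + b) (r2 : ∃ x ∈ G, r = (x : K) * t + b) :
    {y : K | ∃ x ∈ G, y = (x : K) * s + a} = {y : K | ∃ x ∈ G, y = (x : K) * t + b} := by
  obtain ⟨ζ, hz⟩ := exists_zeta h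
  have h9 : ∀ x ∈ G, (x : K) ^ 9 = 1 := by
    intro x hx
    have h1 : (⟨x, hx⟩ : G) ^ 9 = 1 := by
      rw [← hG]
      exact pow_card_eq_one'
    have h2 := congrArg Subtype.val h1
    have h3 : x ^ 9 = 1 := h2
    have h4 := congrArg Units.val h3
    rw [Units.val_pow_eq_pow_val] at h4
    exact h4
  obtain ⟨x1, m1, e1⟩ := p1
  obtain ⟨x2, m2, e2⟩ := q1
  obtain ⟨x3, m3, e3⟩ := r1
  obtain ⟨y1, n1, f1⟩ := p2
  obtain ⟨y2, n2, f2⟩ := q2
  obtain ⟨y3, n3, f3⟩ := r2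
  have hx1 : (x1 : K) ≠ 0 := x1.ne_zero
  have hy1 : (y1 : K) ≠ 0 := y1.ne_zero
  have hs : (s : K) ≠ 0 := s.ne_zero
  have ht : (t : K) ≠ 0 := t.ne_zero
  have d12 : (x1 : K) ≠ x2 := fun e => hpq (by rw [e1, e2, e])
  have d13 : (x1 : K) ≠ x3 := fun e => hpr (by rw [e1, e3, e])
  have d23 : (x2 : K) ≠ x3 := fun e => hqr (by rw [e2, e3, e])
  have c12 : (y1 : K) ≠ y2 := fun e => hpq (by rw [f1, f2, e])
  have c13 : (y1 : K) ≠ y3 := fun e => hpr (by rw [f1, f3, e])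
  have c23 : (y2 : K) ≠ y3 := fun e => hqr (by rw [f2, f3, e])
  have k1 : ((x1 : K) - x2) * s = (y1 - y2) * t := by linear_combination f1 - e1 - f2 + e2
  have k2 : ((x1 : K) - x3) * s = (y1 - y3) * t := by linear_combination f1 - e1 - f3 + e3
  have k3 : ((x1 : K) - x2) * (y1 - y3) = (x1 - x3) * (y1 - y2) := by
    have : (((x1 : K) - x2) * (y1 - y3) - (x1 - x3) * (y1 - y2)) * (s * t) = 0 := by
      linear_combination (y1 - y3 : K) * t * k1 - (y1 - y2 : K) * t * k2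
    rcases mul_eq_zero.1 this with h0 | h0
    · exact sub_eq_zero.1 h0
    · exact absurd h0 (mul_ne_zero hs ht)
  have dv : ∀ x ∈ G, ∀ y ∈ G, ((x : K) / y) ^ 9 = 1 := by
    intro x hx y hy
    rw [div_pow, h9 x hx, h9 y hy, div_one]
  have nq : ∀ x y : K, y ≠ 0 → y ≠ x → x / y ≠ 1 := by
    intro x y h0 h1 h2
    exact h1 ((div_eq_one_iff_eq h0).1 h2).symm
  have e : (1 - (x2 : K) / x1) * (1 - (y3 : K) / y1) = (1 - (x3 : K) / x1) * (1 - (y2 : K) / y1) := by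
    field_simp
    linear_combination k3
  obtain ⟨r2', -⟩ := ratio h hz (dv x2 m2 x1 m1) (dv x3 m3 x1 m1) (dv y2 n2 y1 n1)
    (dv y3 n3 y1 n1) e (nq _ _ hx1 d12) (nq _ _ hx1 d13) (nq _ _ hy1 c12) (nq _ _ hy1 c13)
    (fun e0 => d23 (by
      have := congrArg (fun z => z * (x1 : K)) e0
      simpa [div_mul_cancel₀ _ hx1] using this))
    (fun e0 => c23 (by
      have := congrArg (fun z => z * (y1 : K)) e0
      simpa [div_mul_cancel₀ _ hy1] using this))
  -- `t = (x1 / y1) s`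
  have k4 : (x1 : K) * s = y1 * t := by
    have h1 : (x2 : K) * y1 = y2 * x1 := by
      field_simp at r2'
      linear_combination r2'
    have h2 : ((x1 : K) * s - y1 * t) * (y1 - y2) = 0 := by
      linear_combination y1 * k1 + s * h1
    rcases mul_eq_zero.1 h2 with h0 | h0
    · exact sub_eq_zero.1 h0
    · exact absurd (sub_eq_zero.1 h0) c12
  have k5 : a = b := by linear_combination f1 - e1 + (-1 : K) * k4
  subst k5
  have k6 : x1 * s = y1 * t := Units.ext (by push_cast; exact k4)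
  ext y
  constructor
  · rintro ⟨x, hx, rfl⟩
    refine ⟨x * x1⁻¹ * y1, G.mul_mem (G.mul_mem hx (G.inv_mem m1)) n1, ?_⟩
    have h1 : x * s = x * x1⁻¹ * y1 * t := by
      rw [mul_assoc, ← k6, mul_assoc x, inv_mul_cancel_left]
    have h2 := congrArg Units.val h1
    push_cast at h2 ⊢
    rw [h2]
  · rintro ⟨x, hx, rfl⟩
    refine ⟨x * y1⁻¹ * x1, G.mul_mem (G.mul_mem hx (G.inv_mem n1)) m1, ?_⟩
    have h1 : x * t = x * y1⁻¹ * x1 * s := by
      rw [mul_assoc, k6, mul_assoc x, inv_mul_cancel_left]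
    have h2 := congrArg Units.val h1
    push_cast at h2 ⊢
    rw [h2]

end K

end Pool.Agent.X254.NF
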