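import Mathlib

/-!
# Extremal multidimensional (0,1)-matrices of order two from weights
-/

set_option autoImplicit false

namespace Pool.Agent.X254.Polyplex

open Finset

/-- `K` is a polyplex in the `d`-dimensional (0,1)-matrix of order `n` whose unity entries are the `α` with
`A α`. -/
def IsPolyplex {d n : ℕ} (A : (Fin d → Fin n) → Prop) (K : (Fin d → Fin n) → ℝ) : Prop :=
  (∀ α, 0 ≤ K α) ∧ (∀ α, ¬ A α → K α = 0) ∧
    ∀ (i : Fin d) (j : Fin n), ∑ α ∈ univ.filter (fun α : Fin d → Fin n => α i = j), K α ≤ 1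

/-- `A` has a polydiagonal. -/
def HasPolydiagonal {d n : ℕ} (A : (Fin d → Fin n) → Prop) : Prop :=
  ∃ K, IsPolyplex A K ∧
    ∀ (i : Fin d) (j : Fin n), ∑ α ∈ univ.filter (fun α : Fin d → Fin n => α i = j), K α = 1

/-- `A` is extremal: it has no polydiagonal, but changing any zero entry to one gives a matrix with a
polydiagonal. -/
def Extremal {d n : ℕ} (A : (Fin d → Fin n) → Prop) : Prop :=
  ¬ HasPolydiagonal A ∧ ∀ β, ¬ A β → HasPolydiagonal fun α => A α ∨ α = β

/-- `n - δ` is the maximum weight of a polyplex of `A`. -/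
def IsDeficiency {d n : ℕ} (A : (Fin d → Fin n) → Prop) (δ : ℝ) : Prop :=
  IsGreatest {s : ℝ | ∃ K, IsPolyplex A K ∧ s = ∑ α, K α} ((n : ℝ) - δ)

/-- `L` is a hyperplane cover of `A`. -/
def IsCover {d n : ℕ} (A : (Fin d → Fin n) → Prop) (L : Fin d → Fin n → ℝ) : Prop :=
  (∀ i j, 0 ≤ L i j) ∧ ∀ α, A α → 1 ≤ ∑ i, L i (α i)

/-- `L` is an optimal hyperplane cover of `A`. -/
def IsOptimalCover {d n : ℕ} (A : (Fin d → Fin n) → Prop) (L : Fin d → Fin n → ℝ) : Prop :=
  IsCover A L ∧ ∀ L', IsCover A L' → ∑ i, ∑ j, L i j ≤ ∑ i, ∑ j, L' i j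

/-! ### Matrices of order two defined by weights -/

section two

variable {d : ℕ}

/-- the weight of the index `α` -/
def wt (w : Fin d → ℕ) (α : Fin d → Fin 2) : ℕ := ∑ i, if α i = 1 then w i else 0

/-- the matrix of the indices of weight at least `q` -/
def Amat (w : Fin d → ℕ) (q : ℕ) : (Fin d → Fin 2) → Prop := fun α => q ≤ wt w α

/-- the antipodal index -/
def anti (α : Fin d → Fin 2) : Fin d → Fin 2 := fun i => 1 - α i

lemma fin2 (x : Fin 2) : (1 - x = 1 ↔ ¬ x = 1) := by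
  revert x; decide

lemma wt_anti (w : Fin d → ℕ) (α : Fin d → Fin 2) : wt w α + wt w (anti α) = ∑ i, w i := by
  unfold wt anti
  rw [← sum_add_distrib]
  refine sum_congr rfl fun i _ => ?_
  by_cases h : α i = 1
  · rw [if_pos h, if_neg (by rw [fin2]; simpa using h), Nat.add_zero]
  · rw [if_neg h, if_pos ((fin2 _).2 h), Nat.zero_add]

lemma sum_wt (w : Fin d → ℕ) (K : (Fin d → Fin 2) → ℝ) :
    ∑ α, K α * (wt w α : ℝ) =
      ∑ i, (w i : ℝ) * ∑ α ∈ univ.filter (fun α : Fin d → Fin 2 => α i = 1), K α := by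
  have h1 : ∀ α, K α * (wt w α : ℝ) = ∑ i, if α i = 1 then (w i : ℝ) * K α else 0 := by
    intro α
    unfold wt
    push_cast
    rw [mul_sum]
    refine sum_congr rfl fun i _ => ?_
    split_ifs <;> ring
  simp_rw [h1]
  rw [sum_comm]
  refine sum_congr rfl fun i _ => ?_
  rw [mul_sum, sum_filter]

lemma total (K : (Fin d → Fin 2) → ℝ) (i : Fin d) :
    ∑ α, K α = ∑ α ∈ univ.filter (fun α : Fin d → Fin 2 => α i = 0), K α +
      ∑ α ∈ univ.filter (fun α : Fin d → Fin 2 => α i = 1), K α := by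
  rw [← sum_filter_add_sum_filter_not univ (fun α : Fin d → Fin 2 => α i = 0)]
  congr 1
  refine sum_congr ?_ fun _ _ => rfl
  ext α
  simp only [mem_filter, mem_univ, true_and]
  have : ∀ x : Fin 2, ¬ x = 0 ↔ x = 1 := by decide
  exact this _

/-- the polyplex with the entries `c t` at the indices `b t` -/
noncomputable def Kc {m : ℕ} (b : Fin m → Fin d → Fin 2) (c : Fin m → ℝ) : (Fin d → Fin 2) → ℝ :=
  fun α => ∑ t, if α = b t then c t else 0

lemma Kc_sum {m : ℕ} (b : Fin m → Fin d → Fin 2) (c : Fin m → ℝ) (P : (Fin d → Fin 2) → Prop)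
    [DecidablePred P] :
    ∑ α ∈ univ.filter P, Kc b c α = ∑ t, if P (b t) then c t else 0 := by
  unfold Kc
  rw [sum_comm]
  refine sum_congr rfl fun t _ => ?_
  rw [sum_ite_eq']
  simp

lemma Kc_total {m : ℕ} (b : Fin m → Fin d → Fin 2) (c : Fin m → ℝ) :
    ∑ α, Kc b c α = ∑ t, c t := by
  unfold Kc
  rw [sum_comm]
  refine sum_congr rfl fun t _ => ?_
  rw [sum_ite_eq']
  simp

variable {w : Fin d → ℕ} {q : ℕ}

lemma A_or (hW : ∑ i, w i + 2 = 2 * q) (hno : ∀ α : Fin d → Fin 2, wt w α + 1 ≠ q) (α : Fin d → Fin 2)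
    (h : ¬ Amat w q α) : Amat w q (anti α) := by
  unfold Amat at *
  have h1 := wt_anti w α
  have h2 := hno α
  omega

lemma extremal (hd : 0 < d) (hW : ∑ i, w i + 2 = 2 * q)
    (hno : ∀ α : Fin d → Fin 2, wt w α + 1 ≠ q) : Extremal (Amat w q) := by
  constructor
  · rintro ⟨K, ⟨h0, hA, -⟩, h1⟩
    have h2 := sum_wt w K
    have h3 : ∑ α, K α * (q : ℝ) ≤ ∑ α, K α * (wt w α : ℝ) := by
      refine sum_le_sum fun α _ => ?_
      by_cases h : Amat w q α
      · exact mul_le_mul_of_nonneg_left (by exact_mod_cast h) (h0 α)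
      · rw [hA α h, zero_mul, zero_mul]
    have h4 : ∑ i, (w i : ℝ) * ∑ α ∈ univ.filter (fun α : Fin d → Fin 2 => α i = 1), K α =
        ∑ i, (w i : ℝ) := by
      refine sum_congr rfl fun i _ => ?_
      rw [h1, mul_one]
    rw [h2, h4, ← sum_mul, total K ⟨0, hd⟩, h1, h1] at h3
    have h5 : (∑ i, (w i : ℝ)) + 2 = 2 * q := by exact_mod_cast hW
    linarith
  · intro β hβ
    have hβ' := A_or hW hno β hβ
    refine ⟨Kc ![β, anti β] ![1, 1], ⟨?_, ?_, ?_⟩, ?_⟩
    · intro α
      unfold Kc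
      refine sum_nonneg fun t _ => ?_
      split_ifs
      · fin_cases t <;> simp
      · exact le_rfl
    · intro α h
      have h1 : ¬ α = β := fun h2 => h (Or.inr h2)
      have h2 : ¬ α = anti β := by
        intro h2
        rw [h2] at h
        exact h (Or.inl hβ')
      unfold Kc
      simp [Fin.sum_univ_two, h1, h2]
    · intro i j
      rw [Kc_sum]
      have : ∀ x j : Fin 2, (if x = j then (1 : ℝ) else 0) + (if 1 - x = j then 1 else 0) = 1 := by
        intro x j
        fin_cases x <;> fin_cases j <;> simp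
      simpa [Fin.sum_univ_two, anti] using (this (β i) j).le
    · intro i j
      rw [Kc_sum]
      have : ∀ x j : Fin 2, (if x = j then (1 : ℝ) else 0) + (if 1 - x = j then 1 else 0) = 1 := by
        intro x j
        fin_cases x <;> fin_cases j <;> simp
      simpa [Fin.sum_univ_two, anti] using this (β i) j

/-- the certificate polyplex -/
lemma cert {m : ℕ} (b : Fin m → Fin d → Fin 2) (c : Fin m → ℕ) {D : ℕ} (hD : 0 < D)
    (hb : ∀ t, q ≤ wt w (b t)) (hc : ∀ i j, (∑ t, if b t i = j then c t else 0) ≤ D) :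
    IsPolyplex (Amat w q) (Kc b fun t => (c t : ℝ) / D) := by
  have hD' : (0 : ℝ) < D := by exact_mod_cast hD
  refine ⟨?_, ?_, ?_⟩
  · intro α
    unfold Kc
    refine sum_nonneg fun t _ => ?_
    split_ifs
    · positivity
    · exact le_rfl
  · intro α h
    unfold Kc
    refine sum_eq_zero fun t _ => ?_
    rw [if_neg]
    intro h1
    rw [h1] at h
    exact h (hb t)
  · intro i j
    rw [Kc_sum]
    have h1 : (∑ t, if b t i = j then (c t : ℝ) / D else 0) =
        ((∑ t, if b t i = j then c t else 0 : ℕ) : ℝ) / D := by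
      push_cast
      rw [sum_div]
      refine sum_congr rfl fun t _ => ?_
      split_ifs
      · rfl
      · rw [zero_div]
    rw [h1, div_le_one hD']
    exact_mod_cast hc i j

lemma le_of_polyplex {K : (Fin d → Fin 2) → ℝ} (hK : IsPolyplex (Amat w q) K) :
    (q : ℝ) * ∑ α, K α ≤ ∑ i, (w i : ℝ) := by
  obtain ⟨h0, hA, h1⟩ := hK
  have h3 : ∑ α, K α * (q : ℝ) ≤ ∑ α, K α * (wt w α : ℝ) := by
    refine sum_le_sum fun α _ => ?_
    by_cases h : Amat w q α
    · exact mul_le_mul_of_nonneg_left (by exact_mod_cast h) (h0 α)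
    · rw [hA α h, zero_mul, zero_mul]
  rw [sum_wt, ← sum_mul, mul_comm] at h3
  refine h3.trans (sum_le_sum fun i _ => ?_)
  calc (w i : ℝ) * _ ≤ (w i : ℝ) * 1 := mul_le_mul_of_nonneg_left (h1 i 1) (Nat.cast_nonneg _)
    _ = w i := mul_one _

lemma deficiency {m : ℕ} (b : Fin m → Fin d → Fin 2) (c : Fin m → ℕ) {D : ℕ} (hD : 0 < D)
    (hb : ∀ t, q ≤ wt w (b t)) (hc : ∀ i j, (∑ t, if b t i = j then c t else 0) ≤ D)
    (hq : 0 < q) (hW : ∑ i, w i + 2 = 2 * q) (hs : (∑ t, c t) * q = (∑ i, w i) * D) :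
    IsDeficiency (Amat w q) (2 / q) := by
  have hq' : (0 : ℝ) < q := by exact_mod_cast hq
  have hD' : (0 : ℝ) < D := by exact_mod_cast hD
  have h5 : (∑ i, (w i : ℝ)) + 2 = 2 * q := by exact_mod_cast hW
  have h6 : ((2 : ℕ) : ℝ) - 2 / q = (∑ i, (w i : ℝ)) / q := by
    field_simp
    push_cast
    linarith
  unfold IsDeficiency
  rw [h6]
  constructor
  · refine ⟨_, cert b c hD hb hc, ?_⟩
    rw [Kc_total, ← sum_div, div_eq_div_iff hq'.ne' hD'.ne']
    exact_mod_cast hs.symm
  · rintro s ⟨K, hK, rfl⟩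
    rw [le_div_iff₀ hq', mul_comm]
    exact le_of_polyplex hK

/-- the cover given by weights `v` and quota `p` -/
noncomputable def Lc (v : Fin d → ℕ) (p : ℕ) : Fin d → Fin 2 → ℝ :=
  fun i j => if j = 1 then (v i : ℝ) / p else 0

lemma Lc_total (v : Fin d → ℕ) (p : ℕ) : ∑ i, ∑ j, Lc v p i j = (∑ i, (v i : ℝ)) / p := by
  rw [sum_div]
  refine sum_congr rfl fun i _ => ?_
  simp [Lc, Fin.sum_univ_two]

lemma optimal {m : ℕ} (b : Fin m → Fin d → Fin 2) (c : Fin m → ℕ) {D : ℕ} (hD : 0 < D)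
    (hb : ∀ t, q ≤ wt w (b t)) (hc : ∀ i j, (∑ t, if b t i = j then c t else 0) ≤ D)
    {v : Fin d → ℕ} {p : ℕ} (hp : 0 < p) (hv : ∀ α : Fin d → Fin 2, q ≤ wt w α → p ≤ wt v α)
    (hs : (∑ t, c t) * p = (∑ i, v i) * D) : IsOptimalCover (Amat w q) (Lc v p) := by
  have hp' : (0 : ℝ) < p := by exact_mod_cast hp
  have hD' : (0 : ℝ) < D := by exact_mod_cast hD
  refine ⟨⟨?_, ?_⟩, ?_⟩
  · intro i j
    unfold Lc
    split_ifs
    · positivity
    · exact le_rfl
  · intro α hα
    have h1 : ∑ i, Lc v p i (α i) = (wt v α : ℝ) / p := by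
      unfold Lc wt
      push_cast
      rw [sum_div]
      refine sum_congr rfl fun i _ => ?_
      split_ifs
      · rfl
      · rw [zero_div]
    rw [h1, one_le_div hp']
    exact_mod_cast hv α hα
  · intro L' hL'
    obtain ⟨h0, hA, h1⟩ := cert b c hD hb hc
    set K := Kc b fun t => (c t : ℝ) / D with hK
    have h2 : ∑ i, ∑ j, Lc v p i j = ∑ α, K α := by
      rw [Lc_total, hK, Kc_total, ← sum_div, div_eq_div_iff hp'.ne' hD'.ne']
      exact_mod_cast hs.symm
    rw [h2]
    calc ∑ α, K α ≤ ∑ α, K α * ∑ i, L' i (α i) := by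
          refine sum_le_sum fun α _ => ?_
          by_cases h : Amat w q α
          · calc K α = K α * 1 := (mul_one _).symm
              _ ≤ _ := mul_le_mul_of_nonneg_left (hL'.2 α h) (h0 α)
          · rw [hA α h, zero_mul]
      _ = ∑ i, ∑ j, L' i j * ∑ α ∈ univ.filter (fun α : Fin d → Fin 2 => α i = j), K α := by
          simp_rw [mul_sum]
          rw [sum_comm]
          refine sum_congr rfl fun i _ => ?_
          rw [Fin.sum_univ_two, sum_filter, sum_filter, ← sum_add_distrib]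
          refine sum_congr rfl fun α _ => ?_
          have : ∀ x : Fin 2, x = 0 ∨ x = 1 := by decide
          rcases this (α i) with h | h
          · rw [h]
            simp [mul_comm]
          · rw [h]
            simp [mul_comm]
      _ ≤ ∑ i, ∑ j, L' i j := by
          refine sum_le_sum fun i _ => sum_le_sum fun j _ => ?_
          calc L' i j * _ ≤ L' i j * 1 := mul_le_mul_of_nonneg_left (h1 i j) (hL'.1 i j)
            _ = L' i j := mul_one _

end two

end Pool.Agent.X254.Polyplex
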